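import Pool.Agent.Work.MP_a5099b_nt.A.Defs

/-!
# Module A.DqF (S-M)

Formal facts on `E4q, E6q, Dq, Dinv, Jq`. Write `E4q = 1 + 240 A`, `E6q = 1 - 504 B`, `A = ∑ σ₃(m) q^m`,
`B = ∑ σ₅(m) q^m` (`m ≥ 1`). Then
`E4q^3 - E6q^2 = 144 (5A + 7B) + 172800 A^2 + 13824000 A^3 - 254016 B^2` and `172800 = 1728 * 100`,
`13824000 = 1728 * 8000`, `254016 = 1728 * 147`; and `12 ∣ 5 d^3 + 7 d^5` for every `d`, so
`12 ∣ 5 σ₃(m) + 7 σ₅(m)`: all coefficients of `E4q^3 - E6q^2` are divisible by `1728` and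
`Dq_spec` holds. Coefficients: `(E4q^3 - E6q^2)_0 = 0`, `_1 = 720 + 1008 = 1728`.
`Dq = X * u`, `u = mk (fun m => coeff (m+1) Dq)`, `constantCoeff u = 1`, `u * invOfUnit u 1 = 1`
(`PowerSeries.mul_invOfUnit`); `ofPowerSeries X = single 1 1`.
-/

set_option autoImplicit false

namespace Pool.Agent.SS

open UpperHalfPlane Polynomial
open Pool.Agent.Work.CM (IsLat g2 g3 tauLat)
open scoped Pointwise MatrixGroups

private noncomputable def sA : PowerSeries ℤ :=
  PowerSeries.mk fun m => if m = 0 then 0 else (ArithmeticFunction.sigma 3 m : ℤ)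

private noncomputable def sB : PowerSeries ℤ :=
  PowerSeries.mk fun m => if m = 0 then 0 else (ArithmeticFunction.sigma 5 m : ℤ)

private noncomputable def sC : PowerSeries ℤ :=
  PowerSeries.mk fun m => if m = 0 then 0 else
    (5 * (ArithmeticFunction.sigma 3 m : ℤ) + 7 * (ArithmeticFunction.sigma 5 m : ℤ)) / 12

private theorem coeff_num (n : ℤ) (x : PowerSeries ℤ) (m : ℕ) :
    PowerSeries.coeff m ((PowerSeries.C n) * x) = n * PowerSeries.coeff m x := by
  rw [PowerSeries.coeff_C_mul]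

private theorem E4_eq : E4q = 1 + PowerSeries.C 240 * sA := by
  ext m
  rw [map_add, coeff_num, PowerSeries.coeff_one]
  unfold E4q sA
  rw [PowerSeries.coeff_mk, PowerSeries.coeff_mk]
  split_ifs <;> simp

private theorem E6_eq : E6q = 1 - PowerSeries.C 504 * sB := by
  ext m
  rw [map_sub, coeff_num, PowerSeries.coeff_one]
  unfold E6q sB
  rw [PowerSeries.coeff_mk, PowerSeries.coeff_mk]
  split_ifs <;> simp

private theorem dvd_twelve (m : ℕ) :
    (12 : ℤ) ∣ 5 * (ArithmeticFunction.sigma 3 m : ℤ) + 7 * (ArithmeticFunction.sigma 5 m : ℤ) := by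
  rw [ArithmeticFunction.sigma_apply, ArithmeticFunction.sigma_apply]
  push_cast
  rw [Finset.mul_sum, Finset.mul_sum, ← Finset.sum_add_distrib]
  apply Finset.dvd_sum
  intro d _
  have h : ∀ x : ZMod 12, 5 * x ^ 3 + 7 * x ^ 5 = 0 := by decide
  have h2 : ((5 * (d : ℤ) ^ 3 + 7 * (d : ℤ) ^ 5 : ℤ) : ZMod 12) = 0 := by
    push_cast
    exact h d
  exact (ZMod.intCast_zmod_eq_zero_iff_dvd _ 12).mp h2

private theorem C_eq : PowerSeries.C 12 * sC = PowerSeries.C 5 * sA + PowerSeries.C 7 * sB := by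
  ext m
  rw [map_add, coeff_num, coeff_num, coeff_num]
  unfold sA sB sC
  rw [PowerSeries.coeff_mk, PowerSeries.coeff_mk, PowerSeries.coeff_mk]
  split_ifs
  · simp
  · exact Int.mul_ediv_cancel' (dvd_twelve m)

private theorem key : E4q ^ 3 - E6q ^ 2 = PowerSeries.C 1728 *
    (sC + PowerSeries.C 100 * sA ^ 2 + PowerSeries.C 8000 * sA ^ 3 - PowerSeries.C 147 * sB ^ 2) := by
  have h1 : (PowerSeries.C (1728 : ℤ)) * sC =
      PowerSeries.C 144 * (PowerSeries.C 5 * sA + PowerSeries.C 7 * sB) := by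
    rw [← C_eq, ← mul_assoc, ← map_mul]
    norm_num
  have h2 : E4q ^ 3 - E6q ^ 2 = PowerSeries.C 144 * (PowerSeries.C 5 * sA + PowerSeries.C 7 * sB) +
      PowerSeries.C 172800 * sA ^ 2 + PowerSeries.C 13824000 * sA ^ 3 -
      PowerSeries.C 254016 * sB ^ 2 := by
    rw [E4_eq, E6_eq]
    have e : ∀ n : ℕ, (PowerSeries.C (n : ℤ)) = ((n : ℕ) : PowerSeries ℤ) := fun n => by
      rw [← map_natCast (PowerSeries.C (R := ℤ)) n]
    have e240 := e 240
    have e504 := e 504
    have e144 := e 144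
    have e5 := e 5
    have e7 := e 7
    have e1 := e 172800
    have e2 := e 13824000
    have e3 := e 254016
    push_cast at e240 e504 e144 e5 e7 e1 e2 e3
    rw [e240, e504, e144, e5, e7, e1, e2, e3]
    ring
  rw [h2, ← h1]
  have g1 : (PowerSeries.C (172800 : ℤ)) = PowerSeries.C 1728 * PowerSeries.C 100 := by
    rw [← map_mul]
    norm_num
  have g2 : (PowerSeries.C (13824000 : ℤ)) = PowerSeries.C 1728 * PowerSeries.C 8000 := by
    rw [← map_mul]
    norm_num
  have g3 : (PowerSeries.C (254016 : ℤ)) = PowerSeries.C 1728 * PowerSeries.C 147 := by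
    rw [← map_mul]
    norm_num
  rw [g1, g2, g3]
  ring

private theorem Dq_eq : Dq =
    sC + PowerSeries.C 100 * sA ^ 2 + PowerSeries.C 8000 * sA ^ 3 - PowerSeries.C 147 * sB ^ 2 := by
  ext m
  unfold Dq
  rw [PowerSeries.coeff_mk, key, coeff_num]
  exact Int.mul_ediv_cancel_left _ (by norm_num)

theorem Dq_spec : 1728 * Dq = E4q ^ 3 - E6q ^ 2 := by
  have e : (PowerSeries.C (1728 : ℤ)) = 1728 := map_ofNat (PowerSeries.C (R := ℤ)) 1728
  rw [key, Dq_eq, e]

private theorem sA0 : PowerSeries.coeff 0 sA = 0 := by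
  unfold sA
  rw [PowerSeries.coeff_mk, if_pos rfl]

private theorem sB0 : PowerSeries.coeff 0 sB = 0 := by
  unfold sB
  rw [PowerSeries.coeff_mk, if_pos rfl]

private theorem sC0 : PowerSeries.coeff 0 sC = 0 := by
  unfold sC
  rw [PowerSeries.coeff_mk, if_pos rfl]

private theorem sC1 : PowerSeries.coeff 1 sC = 1 := by
  unfold sC
  rw [PowerSeries.coeff_mk, if_neg one_ne_zero, ArithmeticFunction.sigma_apply,
    ArithmeticFunction.sigma_apply]
  simp

private theorem sq0 {x : PowerSeries ℤ} (hx : PowerSeries.coeff 0 x = 0) (y : PowerSeries ℤ) :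
    PowerSeries.coeff 0 (x * y) = 0 := by
  rw [PowerSeries.coeff_mul]
  simp [hx]

private theorem sq1 {x y : PowerSeries ℤ} (hx : PowerSeries.coeff 0 x = 0)
    (hy : PowerSeries.coeff 0 y = 0) : PowerSeries.coeff 1 (x * y) = 0 := by
  rw [PowerSeries.coeff_mul, Finset.Nat.antidiagonal_succ]
  simp [hx, hy]

theorem Dq_zero : PowerSeries.coeff 0 Dq = 0 := by
  rw [Dq_eq, map_sub, map_add, map_add, coeff_num, coeff_num, coeff_num, sC0, pow_two, pow_two,
    pow_succ', sq0 sA0, sq0 sA0, sq0 sB0]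
  norm_num

theorem Dq_one : PowerSeries.coeff 1 Dq = 1 := by
  rw [Dq_eq, map_sub, map_add, map_add, coeff_num, coeff_num, coeff_num, sC1, pow_succ' sA 2,
    pow_two, pow_two, sq1 sA0 sA0, sq1 sB0 sB0, sq1 sA0 (sq0 sA0 _)]
  norm_num

private noncomputable def uu : PowerSeries ℤ :=
  PowerSeries.mk fun m => PowerSeries.coeff (m + 1) Dq

private theorem Dq_X : Dq = PowerSeries.X * uu := by
  ext m
  cases m with
  | zero => rw [Dq_zero, PowerSeries.coeff_zero_X_mul]
  | succ m =>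
    rw [PowerSeries.coeff_succ_X_mul]
    unfold uu
    rw [PowerSeries.coeff_mk]

private theorem uu_const : PowerSeries.constantCoeff uu = 1 := by
  rw [← PowerSeries.coeff_zero_eq_constantCoeff_apply]
  unfold uu
  rw [PowerSeries.coeff_mk, zero_add, Dq_one]

private theorem Dinv_def : Dinv = HahnSeries.single (-1) 1 *
    HahnSeries.ofPowerSeries ℤ ℤ (PowerSeries.invOfUnit uu 1) := rfl

theorem Dinv_mul : Dinv * HahnSeries.ofPowerSeries ℤ ℤ Dq = 1 := by
  rw [Dinv_def, Dq_X, map_mul, HahnSeries.ofPowerSeries_X]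
  have h1 : HahnSeries.ofPowerSeries ℤ ℤ uu *
      HahnSeries.ofPowerSeries ℤ ℤ (PowerSeries.invOfUnit uu 1) = 1 := by
    rw [← map_mul, PowerSeries.mul_invOfUnit uu 1 (by rw [uu_const]; rfl), map_one]
  have h2 : (HahnSeries.single (-1 : ℤ) (1 : ℤ)) * HahnSeries.single 1 1 = 1 := by
    rw [HahnSeries.single_mul_single]
    rfl
  calc _ = ((HahnSeries.single (-1 : ℤ) (1 : ℤ)) * HahnSeries.single 1 1) *
        (HahnSeries.ofPowerSeries ℤ ℤ uu *
        HahnSeries.ofPowerSeries ℤ ℤ (PowerSeries.invOfUnit uu 1)) := by ring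
    _ = 1 := by rw [h1, h2, one_mul]

theorem Jq_mul : Jq * HahnSeries.ofPowerSeries ℤ ℤ Dq =
    HahnSeries.ofPowerSeries ℤ ℤ (E4q ^ 3) := by
  unfold Jq
  rw [mul_assoc, Dinv_mul, mul_one]

private theorem ofPS_neg (y : PowerSeries ℤ) {m : ℤ} (hm : m < 0) :
    (HahnSeries.ofPowerSeries ℤ ℤ y).coeff m = 0 := by
  rw [HahnSeries.ofPowerSeries_apply]
  apply HahnSeries.embDomain_of_notMem_range
  rintro ⟨n, hn⟩
  have : (n : ℤ) = m := hn
  omega

private theorem coeff_sh (y : PowerSeries ℤ) (m : ℤ) :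
    (HahnSeries.single (-1 : ℤ) (1 : ℤ) * HahnSeries.ofPowerSeries ℤ ℤ y).coeff m =
      (HahnSeries.ofPowerSeries ℤ ℤ y).coeff (m + 1) := by
  have h := HahnSeries.coeff_single_mul_add (r := (1 : ℤ)) (x := HahnSeries.ofPowerSeries ℤ ℤ y)
    (a := m + 1) (b := (-1 : ℤ))
  rw [one_mul] at h
  rw [← h]
  congr 1
  ring

private theorem Jq_form : Jq = HahnSeries.single (-1) 1 *
    HahnSeries.ofPowerSeries ℤ ℤ (E4q ^ 3 * PowerSeries.invOfUnit uu 1) := by
  unfold Jq
  rw [Dinv_def, map_mul]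
  ring

private theorem inv_const : PowerSeries.constantCoeff (PowerSeries.invOfUnit uu 1) = 1 := by
  rw [PowerSeries.constantCoeff_invOfUnit]
  simp

private theorem E4_const : PowerSeries.constantCoeff E4q = 1 := by
  rw [← PowerSeries.coeff_zero_eq_constantCoeff_apply]
  unfold E4q
  rw [PowerSeries.coeff_mk, if_pos rfl]

private theorem ofPS_zero (y : PowerSeries ℤ) :
    (HahnSeries.ofPowerSeries ℤ ℤ y).coeff 0 = PowerSeries.constantCoeff y := by
  have h := HahnSeries.ofPowerSeries_apply_coeff (Γ := ℤ) y 0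
  rw [← PowerSeries.coeff_zero_eq_constantCoeff_apply, ← h]
  rfl

theorem Jq_coeff_neg_one : Jq.coeff (-1) = 1 := by
  rw [Jq_form, coeff_sh]
  rw [neg_add_cancel, ofPS_zero, map_mul, map_pow, E4_const, inv_const]
  norm_num

theorem Jq_coeff_lt {m : ℤ} (hm : m < -1) : Jq.coeff m = 0 := by
  rw [Jq_form, coeff_sh]
  exact ofPS_neg _ (by omega)

theorem Dinv_coeff_neg_one : Dinv.coeff (-1) = 1 := by
  rw [Dinv_def, coeff_sh]
  rw [neg_add_cancel, ofPS_zero, inv_const]

theorem Dinv_coeff_lt {m : ℤ} (hm : m < -1) : Dinv.coeff m = 0 := by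
  rw [Dinv_def, coeff_sh]
  exact ofPS_neg _ (by omega)

end Pool.Agent.SS
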