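import Pool.Agent.Work.MP_a5099b_nt.A.Defs
import Pool.Agent.Work.CM.Unif
import Pool.Agent.Work.CM.For
import Pool.Agent.Work.CM.Disc
import Pool.Agent.Work.CM.Hom

/-!
# Module A.Lat (M)

Basic facts about the lattice functions. Library `Work/CM`: `g2_tauLat`, `g3_tauLat` (Eis), `g2_smul`,
`g3_smul` (Hom), `IsLat.disc` (Disc: `g2 ^ 3 ≠ 27 g3 ^ 2`), `eq_of_inv` (For: a lattice is determined
by `g2, g3`), `exists_lattice` (Unif), `exists_j` (Jsu), Mathlib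
`ModularForm.discriminant_eq_E₄_cube_sub_E₆_sq`.

* `dl L = 27/(64 π^12) (g2^3 - 27 g3^2)/1728`, `jL L = e4 L ^ 3 / dl L`.
* `exists_tau`: `L = ℤω₁ + ℤω₂`; `τ = ±ω₁/ω₂` with positive imaginary part, `m = ω₂` (as
  `ℤω₁ + ℤω₂ = ℤ(-ω₁) + ℤω₂`).
* `tauLat_smul`: `(cτ+d)(ℤ γτ + ℤ) = ℤ(aτ+b) + ℤ(cτ+d) = ℤτ + ℤ` (matrix of determinant 1).
* `exists_smul_of_jL`: `(e4, e6) = (A, B)`, `(e4', e6') = (A', B')` with `A^3 B'^2 = A'^3 B^2` (equality of the
  `j`): find `m ≠ 0` with `A' = m^(-4) A`, `B' = m^(-6) B` (if `A B ≠ 0` take `m^2 = A' B/(A B')`; if `A = 0` a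
  sixth root, if `B = 0` a fourth root), then `L' = m • L` by `eq_of_e4_e6`. (Compare the proof of
  `CM.exists_lattice`.)
-/

set_option autoImplicit false

namespace Pool.Agent.SS

open UpperHalfPlane Polynomial
open Pool.Agent.Work.CM (IsLat g2 g3 tauLat)
open scoped Pointwise MatrixGroups

theorem e4_tauLat (τ : ℍ) : e4 (tauLat τ) = ModularForm.E₄ τ := by
  have hpi : (Real.pi : ℂ) ≠ 0 := by exact_mod_cast Real.pi_ne_zero
  rw [e4, Pool.Agent.Work.CM.g2_tauLat]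
  field_simp

theorem e6_tauLat (τ : ℍ) : e6 (tauLat τ) = ModularForm.E₆ τ := by
  have hpi : (Real.pi : ℂ) ≠ 0 := by exact_mod_cast Real.pi_ne_zero
  rw [e6, Pool.Agent.Work.CM.g3_tauLat]
  field_simp

theorem dl_tauLat (τ : ℍ) : dl (tauLat τ) = ModularForm.discriminant τ := by
  rw [dl, e4_tauLat, e6_tauLat, ModularForm.discriminant_eq_E₄_cube_sub_E₆_sq]

theorem Wt_e4 : Wt 4 e4 := by
  intro L _ m hm
  rw [zpow_ofNat, e4, e4, Pool.Agent.Work.CM.g2_smul hm]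
  field_simp

theorem Wt_e6 : Wt 6 e6 := by
  intro L _ m hm
  rw [zpow_ofNat, e6, e6, Pool.Agent.Work.CM.g3_smul hm]
  field_simp

theorem Wt_dl : Wt 12 dl := by
  intro L hL m hm
  have h4 := Wt_e4 L hL m hm
  have h6 := Wt_e6 L hL m hm
  rw [zpow_ofNat] at h4 h6 ⊢
  rw [dl, dl, ← h4, ← h6]
  ring

theorem Wt_jL : Wt 0 jL := by
  intro L hL m hm
  rw [zpow_zero, one_mul, jL, jL, Pool.Agent.Work.CM.g2_smul hm, Pool.Agent.Work.CM.g3_smul hm]
  have h1 : ((m ^ 12)⁻¹ : ℂ) ≠ 0 := inv_ne_zero (pow_ne_zero _ hm)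
  have h2 : (1728 : ℂ) * ((m ^ 4)⁻¹ * g2 L) ^ 3 = (m ^ 12)⁻¹ * (1728 * g2 L ^ 3) := by
    rw [mul_pow, inv_pow, ← pow_mul]
    ring
  have h3 : ((m ^ 4)⁻¹ * g2 L) ^ 3 - 27 * ((m ^ 6)⁻¹ * g3 L) ^ 2 =
      (m ^ 12)⁻¹ * (g2 L ^ 3 - 27 * g3 L ^ 2) := by
    rw [mul_pow, mul_pow, inv_pow, inv_pow, ← pow_mul, ← pow_mul]
    ring
  rw [h2, h3, mul_div_mul_left _ _ h1]

private theorem latc_ne : (27 : ℂ) / (64 * (Real.pi : ℂ) ^ 12) ≠ 0 := by
  have hpi : (Real.pi : ℂ) ≠ 0 := by exact_mod_cast Real.pi_ne_zero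
  exact div_ne_zero (by norm_num) (mul_ne_zero (by norm_num) (pow_ne_zero _ hpi))

private theorem e4_cube (L : Submodule ℤ ℂ) :
    e4 L ^ 3 = 27 / (64 * (Real.pi : ℂ) ^ 12) * g2 L ^ 3 := by
  have hpi : (Real.pi : ℂ) ≠ 0 := by exact_mod_cast Real.pi_ne_zero
  rw [e4]
  field_simp
  ring

private theorem dl_eq (L : Submodule ℤ ℂ) :
    dl L = 27 / (64 * (Real.pi : ℂ) ^ 12) * (g2 L ^ 3 - 27 * g3 L ^ 2) / 1728 := by
  have hpi : (Real.pi : ℂ) ≠ 0 := by exact_mod_cast Real.pi_ne_zero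
  rw [dl, e4_cube, e6]
  field_simp
  ring

theorem dl_ne_zero {L : Submodule ℤ ℂ} (hL : IsLat L) : dl L ≠ 0 := by
  rw [dl_eq]
  refine div_ne_zero (mul_ne_zero latc_ne (sub_ne_zero.2 hL.disc)) (by norm_num)

theorem jL_eq (L : Submodule ℤ ℂ) : jL L = e4 L ^ 3 / dl L := by
  rw [dl_eq, e4_cube, jL, div_div_eq_mul_div]
  rw [show (27 : ℂ) / (64 * (Real.pi : ℂ) ^ 12) * g2 L ^ 3 * 1728 =
    27 / (64 * (Real.pi : ℂ) ^ 12) * (1728 * g2 L ^ 3) from by ring,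
    mul_div_mul_left _ _ latc_ne]

private theorem lat_smul_tau (m : ℂ) (τ : ℍ) :
    m • tauLat τ = Submodule.span ℤ {m * (τ : ℂ), m} := by
  rw [tauLat, ← Submodule.span_smul]
  congr 1
  ext x
  simp only [Set.mem_smul_set, Set.mem_insert_iff, Set.mem_singleton_iff, smul_eq_mul]
  constructor
  · rintro ⟨y, rfl | rfl, rfl⟩
    · exact Or.inl rfl
    · exact Or.inr (mul_one m)
  · rintro (rfl | rfl)
    · exact ⟨_, Or.inl rfl, rfl⟩
    · exact ⟨1, Or.inr rfl, mul_one x⟩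

private theorem lat_span_neg (x y : ℂ) :
    Submodule.span ℤ {-x, y} = Submodule.span ℤ {x, y} := by
  apply le_antisymm
  · rw [Submodule.span_le]
    rintro z (rfl | rfl)
    · exact neg_mem (Submodule.subset_span (Or.inl rfl))
    · exact Submodule.subset_span (Or.inr rfl)
  · rw [Submodule.span_le]
    rintro z (rfl | rfl)
    · have h := neg_mem (Submodule.subset_span (R := ℤ) (s := {-z, y}) (Or.inl rfl))
      rwa [neg_neg] at h
    · exact Submodule.subset_span (Or.inr rfl)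

theorem exists_tau {L : Submodule ℤ ℂ} (hL : IsLat L) :
    ∃ m : ℂ, m ≠ 0 ∧ ∃ τ : ℍ, L = m • tauLat τ := by
  obtain ⟨P, rfl⟩ := hL
  have hind := P.indep
  have h2 : P.ω₂ ≠ 0 := by
    intro h
    have := hind.ne_zero 1
    simp [h] at this
  have him : (P.ω₁ / P.ω₂).im ≠ 0 := by
    intro h
    rw [LinearIndependent.pair_iff] at hind
    have h3 : P.ω₁ = ((P.ω₁ / P.ω₂).re : ℂ) * P.ω₂ := by
      have h4 : P.ω₁ / P.ω₂ = ((P.ω₁ / P.ω₂).re : ℂ) := by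
        apply Complex.ext <;> simp [h]
      rw [← h4]
      field_simp
    have h5 := hind 1 (-(P.ω₁ / P.ω₂).re) (by
      rw [one_smul, Complex.real_smul, Complex.ofReal_neg, neg_mul, ← h3, add_neg_cancel])
    exact one_ne_zero h5.1
  rcases lt_or_gt_of_ne him with h | h
  · refine ⟨P.ω₂, h2, ⟨-(P.ω₁ / P.ω₂), by rw [Complex.neg_im]; linarith⟩, ?_⟩
    rw [lat_smul_tau]
    show Submodule.span ℤ {P.ω₁, P.ω₂} = _
    rw [← lat_span_neg]
    congr 2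
    show _ = P.ω₂ * -(P.ω₁ / P.ω₂)
    field_simp
  · refine ⟨P.ω₂, h2, ⟨P.ω₁ / P.ω₂, h⟩, ?_⟩
    rw [lat_smul_tau]
    show Submodule.span ℤ {P.ω₁, P.ω₂} = _
    congr 2
    show _ = P.ω₂ * (P.ω₁ / P.ω₂)
    field_simp

theorem tauLat_smul (γ : SL(2, ℤ)) (τ : ℍ) :
    (UpperHalfPlane.denom γ τ) • tauLat (γ • τ) = tauLat τ := by
  rw [lat_smul_tau]
  have hd : UpperHalfPlane.denom γ τ ≠ 0 := UpperHalfPlane.denom_ne_zero _ _
  have h1 : UpperHalfPlane.denom γ τ = (γ 1 0 : ℂ) * τ + (γ 1 1 : ℂ) := by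
    simp [UpperHalfPlane.denom]
  have h2 : UpperHalfPlane.denom γ τ * ((γ • τ : ℍ) : ℂ) = (γ 0 0 : ℂ) * τ + (γ 0 1 : ℂ) := by
    rw [UpperHalfPlane.specialLinearGroup_apply, h1]
    rw [h1] at hd
    simp only [algebraMap_int_eq, eq_intCast, Complex.ofReal_intCast]
    field_simp
  rw [h2, h1, tauLat]
  have hdet : γ 0 0 * γ 1 1 - γ 0 1 * γ 1 0 = 1 := by
    have := γ.det_coe
    rwa [Matrix.det_fin_two] at this
  have hdet' : (γ 0 0 : ℂ) * (γ 1 1 : ℂ) - (γ 0 1 : ℂ) * (γ 1 0 : ℂ) = 1 := by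
    exact_mod_cast hdet
  apply le_antisymm
  · rw [Submodule.span_le]
    rintro z (rfl | rfl)
    · refine Submodule.mem_span_pair.2 ⟨γ 0 0, γ 0 1, ?_⟩
      simp
    · refine Submodule.mem_span_pair.2 ⟨γ 1 0, γ 1 1, ?_⟩
      simp
  · rw [Submodule.span_le]
    rintro z (rfl | rfl)
    · refine Submodule.mem_span_pair.2 ⟨γ 1 1, -γ 0 1, ?_⟩
      simp only [zsmul_eq_mul, Int.cast_neg]
      linear_combination (τ : ℂ) * hdet'
    · refine Submodule.mem_span_pair.2 ⟨-γ 1 0, γ 0 0, ?_⟩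
      simp only [zsmul_eq_mul, Int.cast_neg]
      linear_combination hdet'

theorem eq_of_e4_e6 {L L' : Submodule ℤ ℂ} (hL : IsLat L) (hL' : IsLat L') (h4 : e4 L = e4 L')
    (h6 : e6 L = e6 L') : L = L' := by
  have hpi : (Real.pi : ℂ) ≠ 0 := by exact_mod_cast Real.pi_ne_zero
  have c4 : (3 : ℂ) / (4 * (Real.pi : ℂ) ^ 4) ≠ 0 :=
    div_ne_zero (by norm_num) (mul_ne_zero (by norm_num) (pow_ne_zero _ hpi))
  have c6 : (27 : ℂ) / (8 * (Real.pi : ℂ) ^ 6) ≠ 0 :=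
    div_ne_zero (by norm_num) (mul_ne_zero (by norm_num) (pow_ne_zero _ hpi))
  exact Pool.Agent.Work.CM.eq_of_inv hL hL' (mul_left_cancel₀ c4 h4) (mul_left_cancel₀ c6 h6)

theorem exists_of_e4_e6 {a b : ℂ} (h : a ^ 3 ≠ b ^ 2) :
    ∃ L, IsLat L ∧ e4 L = a ∧ e6 L = b := by
  have hpi : (Real.pi : ℂ) ≠ 0 := by exact_mod_cast Real.pi_ne_zero
  obtain ⟨L, hL, h2, h3⟩ := Pool.Agent.Work.CM.exists_lattice
    (a := 4 * (Real.pi : ℂ) ^ 4 / 3 * a) (b := 8 * (Real.pi : ℂ) ^ 6 / 27 * b) (by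
      intro h1
      apply h
      have h2 : (64 : ℂ) * (Real.pi : ℂ) ^ 12 / 27 * (a ^ 3 - b ^ 2) = 0 := by
        linear_combination h1
      rcases mul_eq_zero.1 h2 with h3 | h3
      · exact absurd h3 (div_ne_zero (mul_ne_zero (by norm_num) (pow_ne_zero _ hpi)) (by norm_num))
      · exact sub_eq_zero.1 h3)
  refine ⟨L, hL, ?_, ?_⟩
  · rw [e4, h2]
    field_simp
  · rw [e6, h3]
    field_simp

theorem exists_jL (c : ℂ) : ∃ τ : ℍ, jL (tauLat τ) = c := by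
  obtain ⟨τ, hτ⟩ := Pool.Agent.Work.CM.exists_j c
  refine ⟨τ, ?_⟩
  rw [jL_eq, e4_tauLat, dl_tauLat, hτ, mul_div_assoc,
    div_self (ModularForm.discriminant_ne_zero τ), mul_one]

theorem jL_smul {L : Submodule ℤ ℂ} (hL : IsLat L) {m : ℂ} (hm : m ≠ 0) :
    jL (m • L) = jL L := by
  have h := Wt_jL L hL m hm
  rwa [zpow_zero, one_mul] at h

private theorem lat_alg {a b A B : ℂ} (h : a ^ 3 ≠ b ^ 2) (hAB : A ^ 3 ≠ B ^ 2)
    (hr : A ^ 3 * b ^ 2 = a ^ 3 * B ^ 2) :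
    ∃ m : ℂ, m ≠ 0 ∧ A = m ^ 4 * a ∧ B = m ^ 6 * b := by
  by_cases ha : a = 0
  · subst ha
    have hb : b ≠ 0 := by
      rintro rfl
      exact h (by norm_num)
    have hA : A = 0 := by
      have h1 : A ^ 3 * b ^ 2 = 0 := by rw [hr]; ring
      rcases mul_eq_zero.1 h1 with h2 | h2
      · exact (pow_eq_zero_iff (by norm_num)).1 h2
      · exact absurd ((pow_eq_zero_iff (by norm_num)).1 h2) hb
    subst hA
    have hB : B ≠ 0 := by
      rintro rfl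
      exact hAB (by norm_num)
    obtain ⟨m, hm⟩ := IsAlgClosed.exists_pow_nat_eq (B / b) (n := 6) (by norm_num)
    refine ⟨m, ?_, by ring, ?_⟩
    · rintro rfl
      have h1 : B / b = 0 := by rw [← hm]; norm_num
      exact div_ne_zero hB hb h1
    · rw [hm]
      field_simp
  by_cases hb : b = 0
  · subst hb
    have hB : B = 0 := by
      have h1 : a ^ 3 * B ^ 2 = 0 := by rw [← hr]; ring
      rcases mul_eq_zero.1 h1 with h2 | h2
      · exact absurd ((pow_eq_zero_iff (by norm_num)).1 h2) ha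
      · exact (pow_eq_zero_iff (by norm_num)).1 h2
    subst hB
    have hA : A ≠ 0 := by
      rintro rfl
      exact hAB (by norm_num)
    obtain ⟨m, hm⟩ := IsAlgClosed.exists_pow_nat_eq (A / a) (n := 4) (by norm_num)
    refine ⟨m, ?_, ?_, by ring⟩
    · rintro rfl
      have h1 : A / a = 0 := by rw [← hm]; norm_num
      exact div_ne_zero hA ha h1
    · rw [hm]
      field_simp
  have hA : A ≠ 0 := by
    rintro rfl
    have h1 : a ^ 3 * B ^ 2 = 0 := by rw [← hr]; ring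
    rcases mul_eq_zero.1 h1 with h2 | h2
    · exact ha ((pow_eq_zero_iff (by norm_num)).1 h2)
    · apply hAB
      rw [h2]
      norm_num
  have hB : B ≠ 0 := by
    rintro rfl
    have h1 : A ^ 3 * b ^ 2 = 0 := by rw [hr]; ring
    rcases mul_eq_zero.1 h1 with h2 | h2
    · exact hA ((pow_eq_zero_iff (by norm_num)).1 h2)
    · exact hb ((pow_eq_zero_iff (by norm_num)).1 h2)
  obtain ⟨m, hm⟩ := IsAlgClosed.exists_pow_nat_eq (B * a / (b * A)) (n := 2) (by norm_num)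
  have h4 : m ^ 4 = A / a := by
    have h5 : m ^ 4 = (m ^ 2) ^ 2 := by ring
    rw [h5, hm]
    field_simp
    linear_combination (-1 : ℂ) * hr
  refine ⟨m, ?_, ?_, ?_⟩
  · rintro rfl
    have h1 : B * a / (b * A) = 0 := by rw [← hm]; norm_num
    exact div_ne_zero (mul_ne_zero hB ha) (mul_ne_zero hb hA) h1
  · rw [h4]
    field_simp
  · have h5 : m ^ 6 = m ^ 2 * m ^ 4 := by ring
    rw [h5, hm, h4]
    field_simp

theorem exists_smul_of_jL {L L' : Submodule ℤ ℂ} (hL : IsLat L) (hL' : IsLat L')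
    (h : jL L = jL L') : ∃ m : ℂ, m ≠ 0 ∧ L' = m • L := by
  have hD := dl_ne_zero hL
  have hD' := dl_ne_zero hL'
  rw [jL_eq, jL_eq, div_eq_div_iff hD hD'] at h
  have hn : e4 L ^ 3 ≠ e6 L ^ 2 := fun h1 => hD (by rw [dl, h1, sub_self, zero_div])
  have hn' : e4 L' ^ 3 ≠ e6 L' ^ 2 := fun h1 => hD' (by rw [dl, h1, sub_self, zero_div])
  obtain ⟨m, hm, h4, h6⟩ := lat_alg hn' hn (by
    rw [dl, dl] at h
    linear_combination (-1728 : ℂ) * h)
  refine ⟨m, hm, ?_⟩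
  apply eq_of_e4_e6 hL' (hL.smul hm)
  · have h1 := Wt_e4 L hL m hm
    rw [zpow_ofNat, h4] at h1
    exact (mul_left_cancel₀ (pow_ne_zero 4 hm) h1).symm
  · have h1 := Wt_e6 L hL m hm
    rw [zpow_ofNat, h6] at h1
    exact (mul_left_cancel₀ (pow_ne_zero 6 hm) h1).symm

theorem Wt.ext {k : ℤ} {S S' : Submodule ℤ ℂ → ℂ} (hS : Wt k S) (hS' : Wt k S')
    (h : ∀ τ, S (tauLat τ) = S' (tauLat τ)) {L : Submodule ℤ ℂ} (hL : IsLat L) :
    S L = S' L := by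
  obtain ⟨m, hm, τ, rfl⟩ := exists_tau hL
  have h1 := hS _ (Pool.Agent.Work.CM.tauLat_isLat τ) m hm
  have h2 := hS' _ (Pool.Agent.Work.CM.tauLat_isLat τ) m hm
  rw [h τ, ← h2] at h1
  exact mul_left_cancel₀ (zpow_ne_zero k hm) h1

end Pool.Agent.SS
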