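import Pool.Agent.Work.MP_a5099b_nt.A.Lev

/-!
# Module A.Uniq (S-M)

Uniqueness of the expansion. Let `d = a - b`; then `lev d t = 0` for all `t` in the punctured disc
(`QX_iff`, surjectivity of `qParam`). If `d ≠ 0` let `m0 = d.order` and `c = d.coeff m0 ≠ 0`; then
`∑_{k ≥ 0} d_{m0+k} t^k = t^(-m0) lev d t = 0` for `0 < ‖t‖ < 1`. This power series converges in
the unit disc, hence is continuous at `0` (`HasFPowerSeriesOnBall`, or the estimate
`‖∑_{k≥1} d_{m0+k} t^k‖ ≤ 2‖t‖ ∑ ‖d_{m0+k}‖ 2^(-k)` for `‖t‖ ≤ 1/2`), and its value at `0` is `c`: so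
`c = 0`, a contradiction.
-/

set_option autoImplicit false

namespace Pool.Agent.SS

open UpperHalfPlane Polynomial
open Pool.Agent.Work.CM (IsLat g2 g3 tauLat)
open scoped Pointwise MatrixGroups

private theorem has_nat {d : LaurentSeries ℂ} (hd : Cv d) {t : ℂ} (h0 : t ≠ 0) (h1 : ‖t‖ < 1) :
    HasSum (fun k : ℕ => d.coeff (d.order + k) * t ^ k) (t ^ (-d.order) * lev d t) := by
  have h := hd.hasSum h0 h1
  have hinj : Function.Injective (fun k : ℕ => d.order + (k : ℤ)) := by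
    intro a b hab
    have : d.order + (a : ℤ) = d.order + (b : ℤ) := hab
    omega
  rw [← hinj.hasSum_iff] at h
  · have h2 := h.mul_left (t ^ (-d.order))
    have e : (fun k : ℕ => d.coeff (d.order + k) * t ^ k) = fun k : ℕ =>
        t ^ (-d.order) * (((fun m : ℤ => d.coeff m * t ^ m) ∘ fun k : ℕ => d.order + (k : ℤ)) k) := by
      funext k
      show _ = t ^ (-d.order) * (d.coeff (d.order + (k : ℤ)) * t ^ (d.order + (k : ℤ)))
      rw [zpow_add₀ h0, zpow_natCast, zpow_neg]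
      have : t ^ d.order ≠ 0 := zpow_ne_zero _ h0
      field_simp
    rw [e]
    exact h2
  · intro m hm
    have hlt : m < d.order := by
      by_contra hge
      apply hm
      refine ⟨(m - d.order).toNat, ?_⟩
      show d.order + ((m - d.order).toNat : ℤ) = m
      omega
    rw [HahnSeries.coeff_eq_zero_of_lt_order hlt, zero_mul]

theorem eq_zero_of_lev {d : LaurentSeries ℂ} (hd : Cv d)
    (h : ∀ t : ℂ, t ≠ 0 → ‖t‖ < 1 → lev d t = 0) : d = 0 := by
  by_contra hne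
  set F : ℕ → ℂ := fun k => d.coeff (d.order + k) with hF
  have hF0 : F 0 ≠ 0 := by
    simp only [hF, Nat.cast_zero, add_zero]
    exact (HahnSeries.coeff_order_eq_zero.not.mpr hne)
  have hhalf : (2⁻¹ : ℂ) ≠ 0 := by norm_num
  have hhalf1 : ‖(2⁻¹ : ℂ)‖ < 1 := by
    rw [norm_inv, Complex.norm_ofNat]
    norm_num
  have hs : Summable fun k : ℕ => ‖F (k + 1)‖ * (2⁻¹ : ℝ) ^ (k + 1) := by
    have h1 := (has_nat hd hhalf hhalf1).summable
    rw [← summable_norm_iff] at h1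
    have h2 := (summable_nat_add_iff 1).mpr h1
    refine h2.congr fun k => ?_
    rw [norm_mul, norm_pow, norm_inv, Complex.norm_ofNat]
  set S : ℝ := ∑' k : ℕ, ‖F (k + 1)‖ * (2⁻¹ : ℝ) ^ (k + 1) with hS
  have hS0 : 0 ≤ S := tsum_nonneg fun k => by positivity
  have hbound : ∀ ε : ℝ, 0 < ε → ε ≤ 2⁻¹ → ‖F 0‖ ≤ 2 * ε * S := by
    intro ε h0 h1
    have ht0 : (ε : ℂ) ≠ 0 := by exact_mod_cast h0.ne'
    have htn : ‖(ε : ℂ)‖ = ε := by rw [Complex.norm_real, Real.norm_of_nonneg h0.le]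
    have ht1 : ‖(ε : ℂ)‖ < 1 := by
      rw [htn]
      linarith
    have h2 := has_nat hd ht0 ht1
    rw [h _ ht0 ht1, mul_zero] at h2
    have h3 := h2.summable.tsum_eq_zero_add
    rw [h2.tsum_eq] at h3
    have h4 : F 0 = - ∑' k : ℕ, F (k + 1) * (ε : ℂ) ^ (k + 1) := by
      have h5 : (0 : ℂ) = F 0 * (ε : ℂ) ^ 0 + ∑' k : ℕ, F (k + 1) * (ε : ℂ) ^ (k + 1) := h3
      rw [pow_zero, mul_one] at h5
      linear_combination -h5
    rw [h4, norm_neg]
    have hle : ∀ k : ℕ, ‖F (k + 1) * (ε : ℂ) ^ (k + 1)‖ ≤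
        2 * ε * (‖F (k + 1)‖ * (2⁻¹ : ℝ) ^ (k + 1)) := by
      intro k
      rw [norm_mul, norm_pow, htn]
      have e1 : ε ^ (k + 1) = (2⁻¹ : ℝ) ^ (k + 1) * (2 * ε) ^ (k + 1) := by
        rw [← mul_pow]
        congr 1
        ring
      have e2 : (2 * ε) ^ (k + 1) ≤ 2 * ε := by
        have := pow_le_of_le_one (a := 2 * ε) (by positivity) (by linarith) (n := k + 1)
          (Nat.succ_ne_zero k)
        exact this
      calc ‖F (k + 1)‖ * ε ^ (k + 1) =
            ‖F (k + 1)‖ * (2⁻¹ : ℝ) ^ (k + 1) * (2 * ε) ^ (k + 1) := by rw [e1]; ring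
        _ ≤ ‖F (k + 1)‖ * (2⁻¹ : ℝ) ^ (k + 1) * (2 * ε) := by gcongr
        _ = _ := by ring
    have hsum : Summable fun k : ℕ => 2 * ε * (‖F (k + 1)‖ * (2⁻¹ : ℝ) ^ (k + 1)) :=
      hs.mul_left _
    have hsn : Summable fun k : ℕ => ‖F (k + 1) * (ε : ℂ) ^ (k + 1)‖ :=
      Summable.of_nonneg_of_le (fun k => norm_nonneg _) hle hsum
    calc ‖∑' k : ℕ, F (k + 1) * (ε : ℂ) ^ (k + 1)‖
        ≤ ∑' k : ℕ, ‖F (k + 1) * (ε : ℂ) ^ (k + 1)‖ := norm_tsum_le_tsum_norm hsn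
      _ ≤ ∑' k : ℕ, 2 * ε * (‖F (k + 1)‖ * (2⁻¹ : ℝ) ^ (k + 1)) :=
          hsn.tsum_le_tsum hle hsum
      _ = 2 * ε * S := tsum_mul_left
  have hpos : 0 < ‖F 0‖ := norm_pos_iff.mpr hF0
  set ε : ℝ := min 2⁻¹ (‖F 0‖ / (4 * (S + 1))) with hε
  have hε0 : 0 < ε := lt_min (by norm_num) (by positivity)
  have h1 := hbound ε hε0 (min_le_left _ _)
  have h2 : ε ≤ ‖F 0‖ / (4 * (S + 1)) := min_le_right _ _
  rw [le_div_iff₀ (by positivity)] at h2
  nlinarith

theorem QX.unique {n : ℕ} (hn : n ≠ 0) {f : ℍ → ℂ} {a b : LaurentSeries ℂ} (ha : QX n f a)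
    (hb : QX n f b) : a = b := by
  rw [QX_iff hn] at ha hb
  have h : a + (-b) = 0 := by
    apply eq_zero_of_lev (ha.1.add hb.1.neg)
    intro t h0 h1
    rw [lev_add ha.1 hb.1.neg h0 h1, lev_neg]
    have hnpos : (0 : ℝ) < n := by exact_mod_cast Nat.pos_of_ne_zero hn
    have him := Function.Periodic.im_invQParam_pos_of_norm_lt_one hnpos h1 h0
    have hq : Function.Periodic.qParam (n : ℝ) (Function.Periodic.invQParam (n : ℝ) t) = t :=
      Function.Periodic.qParam_right_inv hnpos.ne' h0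
    have e1 := ha.2 ⟨_, him⟩
    have e2 := hb.2 ⟨_, him⟩
    have e3 : lev a t = lev b t := by
      have e4 : ((⟨Function.Periodic.invQParam (n : ℝ) t, him⟩ : ℍ) : ℂ) =
        Function.Periodic.invQParam (n : ℝ) t := rfl
      rw [e4, hq] at e1 e2
      rw [← e1, ← e2]
    rw [e3]
    ring
  rw [← sub_eq_add_neg] at h
  exact sub_eq_zero.mp h

end Pool.Agent.SS
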