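import Pool.Agent.Work.MP_a5099b_nt.A.Lev
import Pool.Agent.Work.MP_a5099b_nt.A.Lat
import Pool.Agent.Work.MP_a5099b_nt.A.DqF
import Pool.Agent.Work.MP_a5099b_nt.A.Uniq

/-!
# Module A.Exp (M)

The expansions of `e4, e6, dl, 1/dl, jL`. For `e4, e6`: Mathlib `EisensteinSeries.E_qExpansion_coeff`
(with `bernoulli 4 = -1/30`, `bernoulli 6 = 1/42`, `decide +kernel`) and
`ModularFormClass.hasSum_qExpansion` / `UpperHalfPlane.hasSum_qExpansion`; pass from a sum over `ℕ` to a
sum over `ℤ` (`Function.Injective.hasSum_iff Nat.cast_injective`, the coefficients of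
`HahnSeries.ofPowerSeries` vanish at negative integers). `dl = (e4^3 - e6^2)/1728`: `QX.mul`, `QX.add`,
`Dq_spec` (divide by 1728 over `ℂ`). `Dinv`: first `Cv (toC Dinv)`: the function `1/(∏ (1 - t^m)^24)`, or:
`dl (tauLat τ) ≠ 0` for all `τ`, so `t/Δ(t)` is holomorphic in the unit disc (`Δ(t)/t` has value 1 at
`0`, `discriminant_cuspFunction_eqOn`), its Taylor series converges in the disc
(`hasSum_taylorSeries_on_ball`) and its product with the Taylor series of `Δ(t)/t` is `1`, so it is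
the formal inverse. Then `lev (toC Dinv) t * lev (toC Dq) t = 1` by `lev_mul` and `Dinv_mul`.
-/

set_option autoImplicit false

namespace Pool.Agent.SS

open UpperHalfPlane Polynomial
open Pool.Agent.Work.CM (IsLat g2 g3 tauLat)
open scoped Pointwise MatrixGroups

private theorem xe_coeff {R : Type*} [CommRing R] (p : PowerSeries R) (n : ℕ) :
    (HahnSeries.ofPowerSeries ℤ R p).coeff (n : ℤ) = PowerSeries.coeff n p :=
  HahnSeries.ofPowerSeries_apply_coeff p n

private theorem xe_neg {R : Type*} [CommRing R] (p : PowerSeries R) {m : ℤ} (hm : m < 0) :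
    (HahnSeries.ofPowerSeries ℤ R p).coeff m = 0 := by
  rw [HahnSeries.ofPowerSeries_apply]
  apply HahnSeries.embDomain_of_notMem_range
  rintro ⟨n, hn⟩
  have : (n : ℤ) = m := hn
  omega

private theorem xe_hs (p : PowerSeries ℂ) (t s : ℂ) :
    HasSum (fun m : ℤ => (HahnSeries.ofPowerSeries ℤ ℂ p).coeff m * t ^ m) s ↔
      HasSum (fun n : ℕ => PowerSeries.coeff n p * t ^ n) s := by
  rw [← Function.Injective.hasSum_iff (g := fun n : ℕ => (n : ℤ)) Nat.cast_injective]
  · have e : ((fun m : ℤ => (HahnSeries.ofPowerSeries ℤ ℂ p).coeff m * t ^ m) ∘ fun n : ℕ => (n : ℤ)) =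
        fun n : ℕ => PowerSeries.coeff n p * t ^ n := by
      funext n
      show (HahnSeries.ofPowerSeries ℤ ℂ p).coeff (n : ℤ) * t ^ (n : ℤ) = _
      rw [xe_coeff, zpow_natCast]
    rw [e]
  · intro m hm
    have hneg : m < 0 := by
      by_contra h
      exact hm ⟨m.toNat, Int.toNat_of_nonneg (by omega)⟩
    rw [xe_neg p hneg, zero_mul]

private theorem toC_ofPS (p : PowerSeries ℤ) : toC (HahnSeries.ofPowerSeries ℤ ℤ p) =
    HahnSeries.ofPowerSeries ℤ ℂ (PowerSeries.map (Int.castRingHom ℂ) p) := by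
  ext m
  have h1 : (toC (HahnSeries.ofPowerSeries ℤ ℤ p)).coeff m =
      (((HahnSeries.ofPowerSeries ℤ ℤ p).coeff m : ℤ) : ℂ) := rfl
  rw [h1]
  rcases lt_or_ge m 0 with hm | hm
  · rw [xe_neg _ hm, xe_neg _ hm, Int.cast_zero]
  · obtain ⟨n, rfl⟩ := Int.eq_ofNat_of_zero_le hm
    rw [xe_coeff, xe_coeff, PowerSeries.coeff_map]
    rfl

private theorem xe_E {k : ℕ} (hk : 3 ≤ k) (hk2 : Even k) (p : PowerSeries ℤ) (c : ℤ)
    (hc : -(2 * k / _root_.bernoulli k : ℂ) = c)
    (hp : ∀ m, PowerSeries.coeff m p = if m = 0 then 1 else c * (ArithmeticFunction.sigma (k - 1) m : ℤ)) :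
    QX 1 (fun τ => ModularForm.E hk τ) (toC (HahnSeries.ofPowerSeries ℤ ℤ p)) := by
  intro τ
  rw [toC_ofPS, xe_hs]
  have h := ModularForm.hasSum_qExpansion (ModularForm.E hk) one_pos one_mem_strictPeriods_SL τ
  have e : (fun n : ℕ => PowerSeries.coeff n (PowerSeries.map (Int.castRingHom ℂ) p) *
      Function.Periodic.qParam ((1 : ℕ) : ℝ) (τ : ℂ) ^ n) = fun m : ℕ =>
      (qExpansion 1 (ModularForm.E hk)).coeff m * Function.Periodic.qParam 1 (τ : ℂ) ^ m := by
    funext m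
    rw [EisensteinSeries.E_qExpansion_coeff hk hk2, PowerSeries.coeff_map, hp, hc, Nat.cast_one]
    congr 1
    split_ifs
    · simp
    · simp
  rw [e]
  exact h

theorem QX_e4 : QX 1 (fun τ => e4 (tauLat τ)) (toC (HahnSeries.ofPowerSeries ℤ ℤ E4q)) := by
  have h := xe_E (k := 4) (by norm_num) ⟨2, rfl⟩ E4q 240 (by
    have : _root_.bernoulli 4 = -1 / 30 := by decide +kernel
    rw [this]
    norm_num) (fun m => by
      unfold E4q
      rw [PowerSeries.coeff_mk])
  have e : (fun τ => e4 (tauLat τ)) = fun τ => ModularForm.E (k := 4) (by norm_num) τ := by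
    funext τ
    rw [e4_tauLat]
  rw [e]
  exact h

theorem QX_e6 : QX 1 (fun τ => e6 (tauLat τ)) (toC (HahnSeries.ofPowerSeries ℤ ℤ E6q)) := by
  have h := xe_E (k := 6) (by norm_num) ⟨3, rfl⟩ E6q (-504) (by
    have : _root_.bernoulli 6 = 1 / 42 := by decide +kernel
    rw [this]
    norm_num) (fun m => by
      unfold E6q
      rw [PowerSeries.coeff_mk])
  have e : (fun τ => e6 (tauLat τ)) = fun τ => ModularForm.E (k := 6) (by norm_num) τ := by
    funext τ
    rw [e6_tauLat]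
  rw [e]
  exact h

theorem QX_dl : QX 1 (fun τ => dl (tauLat τ)) (toC (HahnSeries.ofPowerSeries ℤ ℤ Dq)) := by
  have h4 := QX_e4
  have h6 := QX_e6
  have h := (QX.const 1 (1728⁻¹ : ℂ)).mul one_ne_zero
    (((h4.mul one_ne_zero h4).mul one_ne_zero h4).add one_ne_zero (h6.mul one_ne_zero h6).neg)
  have e1 : ((fun _ => (1728⁻¹ : ℂ)) : ℍ → ℂ) * ((fun τ => e4 (tauLat τ)) * (fun τ => e4 (tauLat τ)) *
      (fun τ => e4 (tauLat τ)) + -((fun τ => e6 (tauLat τ)) * fun τ => e6 (tauLat τ))) =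
      fun τ => dl (tauLat τ) := by
    funext τ
    simp only [Pi.mul_apply, Pi.add_apply, Pi.neg_apply, dl]
    ring
  have e2 : (HahnSeries.C (1728⁻¹ : ℂ) : LaurentSeries ℂ) *
      (toC (HahnSeries.ofPowerSeries ℤ ℤ E4q) * toC (HahnSeries.ofPowerSeries ℤ ℤ E4q) *
        toC (HahnSeries.ofPowerSeries ℤ ℤ E4q) +
        -(toC (HahnSeries.ofPowerSeries ℤ ℤ E6q) * toC (HahnSeries.ofPowerSeries ℤ ℤ E6q))) =
      toC (HahnSeries.ofPowerSeries ℤ ℤ Dq) := by
    have h1 : toC (HahnSeries.ofPowerSeries ℤ ℤ (1728 * Dq)) =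
        toC (HahnSeries.ofPowerSeries ℤ ℤ (E4q ^ 3 - E6q ^ 2)) := by rw [Dq_spec]
    unfold toC at h1 ⊢
    rw [map_mul, map_mul, map_sub, map_sub, map_pow, map_pow, map_pow, map_pow, map_ofNat, map_ofNat] at h1
    have h2 : (HahnSeries.C (1728⁻¹ : ℂ) : LaurentSeries ℂ) * 1728 = 1 := by
      have h3 : (1728 : LaurentSeries ℂ) = HahnSeries.C (1728 : ℂ) := by rw [map_ofNat]
      rw [h3, ← map_mul]
      norm_num
    calc _ = (HahnSeries.C (1728⁻¹ : ℂ) : LaurentSeries ℂ) *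
          (lmap (Int.castRingHom ℂ) (HahnSeries.ofPowerSeries ℤ ℤ E4q) ^ 3 -
            lmap (Int.castRingHom ℂ) (HahnSeries.ofPowerSeries ℤ ℤ E6q) ^ 2) := by ring
      _ = (HahnSeries.C (1728⁻¹ : ℂ) : LaurentSeries ℂ) *
          (1728 * lmap (Int.castRingHom ℂ) (HahnSeries.ofPowerSeries ℤ ℤ Dq)) := by rw [← h1]
      _ = _ := by rw [← mul_assoc, h2, one_mul]
  rw [e1, e2] at h
  exact h

/-- inversion of a convergent power series without zeros in the disc -/
private theorem xe_inv (P Q : PowerSeries ℂ) (hPQ : P * Q = 1) (U : ℂ → ℂ)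
    (hU : ∀ t : ℂ, ‖t‖ < 1 → HasSum (fun n : ℕ => PowerSeries.coeff n P * t ^ n) (U t))
    (hU0 : ∀ t : ℂ, ‖t‖ < 1 → U t ≠ 0) (t : ℂ) (ht : ‖t‖ < 1) :
    HasSum (fun n : ℕ => PowerSeries.coeff n Q * t ^ n) (U t)⁻¹ := by
  have hdiff : DifferentiableOn ℂ U (Metric.ball 0 1) := by
    intro z hz
    rw [mem_ball_zero_iff] at hz
    obtain ⟨r, hr1, hr2⟩ := exists_between hz
    have hr0 : 0 ≤ r := (norm_nonneg z).trans hr1.le
    have hrn : ‖(r : ℂ)‖ < 1 := by
      rw [Complex.norm_real, Real.norm_of_nonneg hr0]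
      exact hr2
    have hs := (hU (r : ℂ) hrn).summable.norm
    have h1 := Complex.differentiableOn_tsum_of_summable_norm (F := fun n w => PowerSeries.coeff n P * w ^ n)
      (U := Metric.ball (0 : ℂ) r) hs (fun n => ((differentiable_id.pow n).const_mul _).differentiableOn)
      Metric.isOpen_ball (fun n w hw => by
        rw [mem_ball_zero_iff] at hw
        rw [norm_mul, norm_mul, norm_pow, norm_pow, Complex.norm_real, Real.norm_of_nonneg hr0]
        exact mul_le_mul_of_nonneg_left (pow_le_pow_left₀ (norm_nonneg w) hw.le n) (norm_nonneg _))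
    have hz' : z ∈ Metric.ball (0 : ℂ) r := by rw [mem_ball_zero_iff]; exact hr1
    have h2 := (h1 z hz').differentiableAt (Metric.isOpen_ball.mem_nhds hz')
    have h3 : U =ᶠ[nhds z] fun w => ∑' n : ℕ, PowerSeries.coeff n P * w ^ n := by
      filter_upwards [Metric.isOpen_ball.mem_nhds hz'] with w hw
      rw [mem_ball_zero_iff] at hw
      exact (hU w (hw.trans hr2)).tsum_eq.symm
    exact (h3.differentiableAt_iff.2 h2).differentiableWithinAt
  have hinv : DifferentiableOn ℂ (fun z => (U z)⁻¹) (Metric.ball 0 1) :=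
    hdiff.inv fun z hz => hU0 z (by rwa [mem_ball_zero_iff] at hz)
  set W : PowerSeries ℂ := PowerSeries.mk fun n =>
    ((n.factorial : ℂ))⁻¹ * iteratedDeriv n (fun z => (U z)⁻¹) 0 with hW
  have hWs : ∀ z : ℂ, ‖z‖ < 1 → HasSum (fun n : ℕ => PowerSeries.coeff n W * z ^ n) (U z)⁻¹ := by
    intro z hz
    have h1 := Complex.hasSum_taylorSeries_on_ball (f := fun z => (U z)⁻¹) (c := 0) (r := 1) hinv
      (z := z) (by rw [mem_ball_zero_iff]; exact hz)
    have e : (fun n : ℕ => PowerSeries.coeff n W * z ^ n) = fun n : ℕ =>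
        ((n.factorial : ℂ))⁻¹ • (z - 0) ^ n • iteratedDeriv n (fun z => (U z)⁻¹) 0 := by
      funext n
      rw [hW, PowerSeries.coeff_mk, sub_zero, smul_eq_mul, smul_eq_mul]
      ring
    rw [e]
    exact h1
  have hPc : Cv (HahnSeries.ofPowerSeries ℤ ℂ P) := fun z _ hz => ((xe_hs P z _).2 (hU z hz)).summable
  have hWc : Cv (HahnSeries.ofPowerSeries ℤ ℂ W) := fun z _ hz => ((xe_hs W z _).2 (hWs z hz)).summable
  have h1c : Cv (HahnSeries.single 0 1 : LaurentSeries ℂ) := Cv.single 0 1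
  have hzero : HahnSeries.ofPowerSeries ℤ ℂ P * HahnSeries.ofPowerSeries ℤ ℂ W +
      -(HahnSeries.single 0 1 : LaurentSeries ℂ) = 0 := by
    apply eq_zero_of_lev ((hPc.mul hWc).add h1c.neg)
    intro z h0 hz
    rw [lev_add (hPc.mul hWc) h1c.neg h0 hz, lev_mul hPc hWc h0 hz, lev_neg, lev_single]
    have h4 : lev (HahnSeries.ofPowerSeries ℤ ℂ P) z = U z := ((xe_hs P z _).2 (hU z hz)).tsum_eq
    have h5 : lev (HahnSeries.ofPowerSeries ℤ ℂ W) z = (U z)⁻¹ := ((xe_hs W z _).2 (hWs z hz)).tsum_eq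
    rw [h4, h5, mul_inv_cancel₀ (hU0 z hz), zpow_zero, mul_one, add_neg_cancel]
  have hPW : P * W = 1 := by
    have h6 : HahnSeries.ofPowerSeries ℤ ℂ (P * W) = HahnSeries.ofPowerSeries ℤ ℂ 1 := by
      rw [map_mul, map_one]
      have h7 : (HahnSeries.single 0 1 : LaurentSeries ℂ) = 1 := rfl
      rw [h7] at hzero
      linear_combination hzero
    exact HahnSeries.ofPowerSeries_injective h6
  have hQW : Q = W := by
    calc Q = (P * W) * Q := by rw [hPW, one_mul]
      _ = (P * Q) * W := by ring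
      _ = W := by rw [hPQ, one_mul]
  rw [hQW]
  exact hWs t ht

theorem QX_dinv : QX 1 (fun τ => (dl (tauLat τ))⁻¹) (toC Dinv) := by
  have hd := (QX_iff one_ne_zero).1 QX_dl
  set u : PowerSeries ℤ := PowerSeries.mk fun m => PowerSeries.coeff (m + 1) Dq with hu
  set v : PowerSeries ℤ := PowerSeries.invOfUnit u 1 with hv
  have hDX : Dq = PowerSeries.X * u := by
    ext m
    cases m with
    | zero => rw [Dq_zero, PowerSeries.coeff_zero_X_mul]
    | succ m => rw [PowerSeries.coeff_succ_X_mul, hu, PowerSeries.coeff_mk]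
  have hu0 : PowerSeries.constantCoeff u = 1 := by
    rw [← PowerSeries.coeff_zero_eq_constantCoeff_apply, hu, PowerSeries.coeff_mk, zero_add, Dq_one]
  have huv : u * v = 1 := PowerSeries.mul_invOfUnit u 1 (by rw [hu0]; rfl)
  have hDi : Dinv = HahnSeries.single (-1) 1 * HahnSeries.ofPowerSeries ℤ ℤ v := rfl
  set P : PowerSeries ℂ := PowerSeries.map (Int.castRingHom ℂ) u with hP
  set Q : PowerSeries ℂ := PowerSeries.map (Int.castRingHom ℂ) v with hQ
  have hPQ : P * Q = 1 := by rw [hP, hQ, ← map_mul, huv, map_one]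
  -- surjectivity
  have hsurj : ∀ t : ℂ, t ≠ 0 → ‖t‖ < 1 → ∃ τ : ℍ, Function.Periodic.qParam (1 : ℝ) (τ : ℂ) = t := by
    intro t h0 h1
    have him := Function.Periodic.im_invQParam_pos_of_norm_lt_one one_pos h1 h0
    exact ⟨⟨Function.Periodic.invQParam 1 t, him⟩, Function.Periodic.qParam_right_inv one_ne_zero h0⟩
  have hne : ∀ t : ℂ, t ≠ 0 → ‖t‖ < 1 → lev (toC (HahnSeries.ofPowerSeries ℤ ℤ Dq)) t ≠ 0 := by
    intro t h0 h1
    obtain ⟨τ, hτ⟩ := hsurj t h0 h1
    have h2 := hd.2 τ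
    rw [Nat.cast_one, hτ] at h2
    rw [← h2]
    exact dl_ne_zero (Pool.Agent.Work.CM.tauLat_isLat τ)
  set U : ℂ → ℂ := fun t => ∑' n : ℕ, PowerSeries.coeff n P * t ^ n with hU
  have hDs : ∀ t : ℂ, t ≠ 0 → ‖t‖ < 1 → HasSum (fun n : ℕ => PowerSeries.coeff n P * t ^ n)
      (t⁻¹ * lev (toC (HahnSeries.ofPowerSeries ℤ ℤ Dq)) t) := by
    intro t h0 h1
    have h2 := hd.1.hasSum h0 h1
    rw [toC_ofPS, xe_hs, ← toC_ofPS, ← hasSum_nat_add_iff' 1] at h2
    have h3 := h2.mul_left t⁻¹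
    rw [Finset.sum_range_one, PowerSeries.coeff_map, Dq_zero, map_zero, zero_mul, sub_zero] at h3
    have e : (fun n : ℕ => PowerSeries.coeff n P * t ^ n) = fun n : ℕ => t⁻¹ *
        (PowerSeries.coeff (n + 1) (PowerSeries.map (Int.castRingHom ℂ) Dq) * t ^ (n + 1)) := by
      funext n
      rw [hP, PowerSeries.coeff_map, PowerSeries.coeff_map, hu, PowerSeries.coeff_mk, pow_succ]
      field_simp
    rw [e]
    exact h3
  have hUs : ∀ t : ℂ, ‖t‖ < 1 → HasSum (fun n : ℕ => PowerSeries.coeff n P * t ^ n) (U t) := by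
    intro t ht
    by_cases h0 : t = 0
    · subst h0
      have h4 : Summable fun n : ℕ => PowerSeries.coeff n P * (0 : ℂ) ^ n := by
        apply summable_of_ne_finset_zero (s := {0})
        intro n hn
        rw [Finset.mem_singleton] at hn
        rw [zero_pow hn, mul_zero]
      exact h4.hasSum
    · exact (hDs t h0 ht).summable.hasSum
  have hU0 : ∀ t : ℂ, ‖t‖ < 1 → U t ≠ 0 := by
    intro t ht
    by_cases h0 : t = 0
    · subst h0
      have h4 : U 0 = 1 := by
        rw [hU]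
        simp only
        rw [tsum_eq_single 0 (fun n hn => by rw [zero_pow hn, mul_zero]), pow_zero, mul_one, hP,
          PowerSeries.coeff_map, PowerSeries.coeff_zero_eq_constantCoeff_apply, hu0, map_one]
      rw [h4]
      exact one_ne_zero
    · have h5 : U t = t⁻¹ * lev (toC (HahnSeries.ofPowerSeries ℤ ℤ Dq)) t := (hDs t h0 ht).tsum_eq
      rw [h5]
      exact mul_ne_zero (inv_ne_zero h0) (hne t h0 ht)
  have hQc : Cv (toC (HahnSeries.ofPowerSeries ℤ ℤ v)) := by
    intro z _ hz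
    rw [toC_ofPS]
    exact ((xe_hs Q z _).2 (xe_inv P Q hPQ U hUs hU0 z hz)).summable
  have hDt : toC Dinv = HahnSeries.single (-1) 1 * toC (HahnSeries.ofPowerSeries ℤ ℤ v) := by
    rw [hDi]
    unfold toC
    rw [map_mul]
    congr 1
    ext m
    show (((HahnSeries.single (-1 : ℤ) (1 : ℤ)).coeff m : ℤ) : ℂ) = _
    by_cases hm : m = -1
    · subst hm
      rw [HahnSeries.coeff_single_same, HahnSeries.coeff_single_same, Int.cast_one]
    · rw [HahnSeries.coeff_single_of_ne hm, HahnSeries.coeff_single_of_ne hm, Int.cast_zero]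
  have hcv : Cv (toC Dinv) := by
    rw [hDt]
    exact (Cv.single _ _).mul hQc
  rw [QX_iff one_ne_zero]
  refine ⟨hcv, fun τ => ?_⟩
  have h0 : Function.Periodic.qParam ((1 : ℕ) : ℝ) (τ : ℂ) ≠ 0 := Function.Periodic.qParam_ne_zero _
  have h1 : ‖Function.Periodic.qParam ((1 : ℕ) : ℝ) (τ : ℂ)‖ < 1 := UpperHalfPlane.norm_qParam_lt_one _ _
  have h2 := hd.2 τ
  have h3 : lev (toC Dinv) (Function.Periodic.qParam ((1 : ℕ) : ℝ) (τ : ℂ)) * dl (tauLat τ) = 1 := by
    rw [h2, ← lev_mul hcv hd.1 h0 h1]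
    have h4 : toC Dinv * toC (HahnSeries.ofPowerSeries ℤ ℤ Dq) = 1 := by
      unfold toC
      rw [← map_mul, Dinv_mul, map_one]
    rw [h4]
    have h5 := lev_single 0 1 (Function.Periodic.qParam ((1 : ℕ) : ℝ) (τ : ℂ))
    rw [zpow_zero, mul_one] at h5
    exact h5
  exact (eq_inv_of_mul_eq_one_left h3).symm

theorem QX_jL : QX 1 (fun τ => jL (tauLat τ)) (toC Jq) := by
  have h4 := QX_e4
  have h := ((h4.mul one_ne_zero h4).mul one_ne_zero h4).mul one_ne_zero QX_dinv
  have e1 : ((fun τ => e4 (tauLat τ)) * (fun τ => e4 (tauLat τ)) * (fun τ => e4 (tauLat τ)) *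
      fun τ => (dl (tauLat τ))⁻¹ : ℍ → ℂ) = fun τ => jL (tauLat τ) := by
    funext τ
    simp only [Pi.mul_apply]
    rw [jL_eq, div_eq_mul_inv]
    ring
  have e2 : toC (HahnSeries.ofPowerSeries ℤ ℤ E4q) * toC (HahnSeries.ofPowerSeries ℤ ℤ E4q) *
      toC (HahnSeries.ofPowerSeries ℤ ℤ E4q) * toC Dinv = toC Jq := by
    unfold Jq toC
    rw [map_mul, map_pow, map_pow]
    ring
  rw [e1, e2] at h
  exact h

end Pool.Agent.SS
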