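import Pool.Agent.Work.MP_a5099b_nt.A.FormL

/-!
# Module A.FormJ (S-M)

Weight zero: polynomials in `j`. By `formsL_pole` with `k = 0`: `S L * dl L ^ M = P(e4, e6, dl)`, `P` of
weight `12 M`. Every monomial `e4^a e6^b dl^c` with `4a + 6b + 12c = 12M` has `3 ∣ a` and `2 ∣ b`
(`2a + 3b ≡ 0 mod 6`), `a = 3a'`, `b = 2b'`, `a' + b' + c = M`, and
`e4^a e6^b dl^c / dl^M = (e4^3/dl)^a' (e6^2/dl)^b' = j^a' (j - 1728)^b'`, as `e6^2 = e4^3 - 1728 dl`. So
`Q = ∑ P_(a,b,c) X^a' (X - 1728)^b'` over the support of `P`.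
-/

set_option autoImplicit false

namespace Pool.Agent.SS

open UpperHalfPlane Polynomial
open Pool.Agent.Work.CM (IsLat g2 g3 tauLat)
open scoped Pointwise MatrixGroups

theorem formsJ (R : Subring ℂ) {S : Submodule ℤ ℂ → ℂ} (hS : Wt 0 S)
    {a : LaurentSeries ℂ} (ha : QX 1 (fun τ => S (tauLat τ)) a) (hR : InR R a) :
    ∃ Q : R[X], ∀ L, IsLat L → S L = aeval (jL L) Q := by
  obtain ⟨M, w, P, hw, hP, hPS⟩ := formsL_pole R hS ha hR
  refine ⟨∑ d ∈ P.support, C (P.coeff d) * X ^ (d 0 / 3) * (X - 1728) ^ (d 1 / 2),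
    fun L hL => ?_⟩
  have hd := dl_ne_zero hL
  have h1 := hPS L hL
  have h2 : S L = (MvPolynomial.aeval ![e4 L, e6 L, dl L] P) / dl L ^ M := by
    rw [← h1]
    field_simp
  rw [h2, MvPolynomial.aeval_def, MvPolynomial.eval₂_eq', Finset.sum_div, map_sum]
  refine Finset.sum_congr rfl fun d hdd => ?_
  have hww := hP (MvPolynomial.mem_support_iff.mp hdd)
  rw [Finsupp.weight_apply, Finsupp.sum_fintype _ _ (by intro i; simp)] at hww
  simp only [Fin.sum_univ_three, Matrix.cons_val_zero, Matrix.cons_val_one, Matrix.cons_val,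
    smul_eq_mul] at hww
  obtain ⟨x, hx⟩ : ∃ x, d 0 = 3 * x := ⟨d 0 / 3, by omega⟩
  obtain ⟨y, hy⟩ : ∃ y, d 1 = 2 * y := ⟨d 1 / 2, by omega⟩
  have hM : M = x + y + d 2 := by omega
  have hx' : d 0 / 3 = x := by omega
  have hy' : d 1 / 2 = y := by omega
  rw [hx', hy']
  simp only [Fin.prod_univ_three, Matrix.cons_val_zero, Matrix.cons_val_one, Matrix.cons_val,
    map_mul, map_pow, map_sub, aeval_X, aeval_C, map_ofNat]
  have h1728 : (1728 : ℂ) ≠ 0 := by norm_num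
  have hj : jL L - 1728 = e6 L ^ 2 / dl L := by
    rw [jL_eq]
    field_simp
    have : dl L * 1728 = e4 L ^ 3 - e6 L ^ 2 := by
      unfold dl
      field_simp
    linear_combination -this
  rw [hj, jL_eq, hx, hy, hM, pow_mul, pow_mul, div_pow, div_pow, pow_add, pow_add]
  field_simp

end Pool.Agent.SS
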