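import Pool.Agent.Work.MP_a5099b_nt.A.Defs

/-!
# Module A.Lev (M)

Convergent Laurent series form a ring and the value is a ring homomorphism.

Proof. In `ℂ` summable = absolutely summable (`summable_norm_iff`). Sum, negative, monomial: clear
(a monomial has one term). Product: fix `t ≠ 0`, `‖t‖ < 1`, `f i = a_i t^i`, `g j = b_j t^j`. The
family `f i * g j` over `ℤ × ℤ` is summable with sum `(∑ f)(∑ g)` (`Summable.mul_of_norm`,
`tsum_mul_tsum_of_summable_norm`). Reindex by the equivalence `(i, j) ↦ (m, i)`, `m = i + j`, and sum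
first over `i` for fixed `m` (`HasSum.prod_fiberwise`/`HasSum.sigma`): the inner sum is
`∑_i a_i b_{m-i} t^m = (a * b)_m t^m`, as `HahnSeries.coeff_mul` is the sum over the finite set
`antidiagonal` of the supports, and all other terms vanish (`hasSum_sum_of_ne_finset_zero`).

`QX_iff`: for `n ≠ 0` the map `τ ↦ qParam n τ` is onto the punctured disc
(`Function.Periodic.qParam_right_inv`, `Function.Periodic.im_invQParam_pos_of_norm_lt_one`,
`Function.Periodic.norm_qParam_lt_one`, `qParam_ne_zero`). The `QX` rules follow from `QX_iff`.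
-/

set_option autoImplicit false

namespace Pool.Agent.SS

open UpperHalfPlane Polynomial
open Pool.Agent.Work.CM (IsLat g2 g3 tauLat)
open scoped Pointwise MatrixGroups

theorem Cv.hasSum {a : LaurentSeries ℂ} (ha : Cv a) {t : ℂ} (h0 : t ≠ 0) (h1 : ‖t‖ < 1) :
    HasSum (fun m : ℤ => a.coeff m * t ^ m) (lev a t) :=
  (ha t h0 h1).hasSum

theorem Cv.add {a b : LaurentSeries ℂ} (ha : Cv a) (hb : Cv b) : Cv (a + b) := by
  intro t h0 h1
  have h := (ha t h0 h1).add (hb t h0 h1)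
  refine h.congr fun m => ?_
  rw [HahnSeries.coeff_add, add_mul]

private theorem inner_hasSum (a b : LaurentSeries ℂ) {t : ℂ} (h0 : t ≠ 0) (m : ℤ) :
    HasSum (fun i : ℤ => (a.coeff i * t ^ i) * (b.coeff (m - i) * t ^ (m - i)))
      ((a * b).coeff m * t ^ m) := by
  classical
  have hmul : ∀ i : ℤ, (a.coeff i * t ^ i) * (b.coeff (m - i) * t ^ (m - i)) =
      a.coeff i * b.coeff (m - i) * t ^ m := by
    intro i
    have h : t ^ i * t ^ (m - i) = t ^ m := by
      rw [← zpow_add₀ h0]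
      congr 1
      ring
    rw [← h]
    ring
  simp_rw [hmul]
  rw [HahnSeries.coeff_mul, Finset.sum_mul]
  have h1 : ∑ ij ∈ Finset.antidiagonal a.isPWO_support b.isPWO_support m,
      a.coeff ij.1 * b.coeff ij.2 * t ^ m =
      ∑ i ∈ (Finset.antidiagonal a.isPWO_support b.isPWO_support m).image Prod.fst,
        a.coeff i * b.coeff (m - i) * t ^ m := by
    rw [Finset.sum_image]
    · refine Finset.sum_congr rfl fun ij hij => ?_
      have h2 := (Finset.mem_antidiagonal.1 hij).2.2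
      rw [show m - ij.1 = ij.2 by omega]
    · intro x hx y hy hxy
      have h2 := (Finset.mem_antidiagonal.1 hx).2.2
      have h3 := (Finset.mem_antidiagonal.1 hy).2.2
      have hxy' : x.1 = y.1 := hxy
      refine Prod.ext hxy' ?_
      omega
  rw [h1]
  refine hasSum_sum_of_ne_finset_zero fun i hi => ?_
  by_contra hne
  apply hi
  rw [Finset.mem_image]
  refine ⟨(i, m - i), ?_, rfl⟩
  rw [Finset.mem_antidiagonal]
  refine ⟨?_, ?_, by simp⟩
  · rw [HahnSeries.mem_support]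
    intro h2
    simp [h2] at hne
  · rw [HahnSeries.mem_support]
    intro h2
    simp [h2] at hne

/-- `(m, i) ↦ (i, m - i)`. -/
private def eqv : ℤ × ℤ ≃ ℤ × ℤ where
  toFun p := (p.2, p.1 - p.2)
  invFun p := (p.1 + p.2, p.1)
  left_inv p := by
    refine Prod.ext ?_ rfl
    show p.2 + (p.1 - p.2) = p.1
    ring
  right_inv p := by
    refine Prod.ext rfl ?_
    show p.1 + p.2 - p.1 = p.2
    ring

private theorem prod_hasSum {f g : ℤ → ℂ} {c : ℤ → ℂ} (hf : Summable fun i => ‖f i‖)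
    (hg : Summable fun i => ‖g i‖) (h : ∀ m, HasSum (fun i => f i * g (m - i)) (c m)) :
    HasSum c ((∑' i, f i) * ∑' j, g j) := by
  have h2 : Summable fun x : ℤ × ℤ => f x.1 * g x.2 := summable_mul_of_summable_norm hf hg
  have h3 : HasSum (fun x : ℤ × ℤ => f x.1 * g x.2) ((∑' i, f i) * ∑' j, g j) := by
    rw [tsum_mul_tsum_of_summable_norm hf hg]
    exact h2.hasSum
  have h4 : HasSum ((fun x : ℤ × ℤ => f x.1 * g x.2) ∘ eqv) ((∑' i, f i) * ∑' j, g j) :=
    eqv.hasSum_iff.2 h3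
  exact HasSum.prod_fiberwise h4 h

private theorem mul_hasSum {a b : LaurentSeries ℂ} (ha : Cv a) (hb : Cv b) {t : ℂ} (h0 : t ≠ 0)
    (h1 : ‖t‖ < 1) :
    HasSum (fun m : ℤ => (a * b).coeff m * t ^ m) (lev a t * lev b t) :=
  prod_hasSum (ha t h0 h1).norm (hb t h0 h1).norm (inner_hasSum a b h0)

theorem Cv.mul {a b : LaurentSeries ℂ} (ha : Cv a) (hb : Cv b) : Cv (a * b) := by
  intro t h0 h1
  exact (mul_hasSum ha hb h0 h1).summable

theorem Cv.neg {a : LaurentSeries ℂ} (ha : Cv a) : Cv (-a) := by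
  intro t h0 h1
  refine (ha t h0 h1).neg.congr fun m => ?_
  rw [HahnSeries.coeff_neg, neg_mul]

private theorem single_hasSum (m : ℤ) (c t : ℂ) :
    HasSum (fun k : ℤ => (HahnSeries.single m c : LaurentSeries ℂ).coeff k * t ^ k) (c * t ^ m) := by
  have h := hasSum_single (f := fun k : ℤ =>
    (HahnSeries.single m c : LaurentSeries ℂ).coeff k * t ^ k) m fun k hk => by
      rw [HahnSeries.coeff_single_of_ne hk, zero_mul]
  simpa using h

theorem Cv.single (m : ℤ) (c : ℂ) : Cv (HahnSeries.single m c) := by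
  intro t _ _
  exact (single_hasSum m c t).summable

theorem lev_add {a b : LaurentSeries ℂ} (ha : Cv a) (hb : Cv b) {t : ℂ} (h0 : t ≠ 0)
    (h1 : ‖t‖ < 1) : lev (a + b) t = lev a t + lev b t := by
  rw [lev, lev, lev, ← (ha t h0 h1).tsum_add (hb t h0 h1)]
  refine tsum_congr fun m => ?_
  rw [HahnSeries.coeff_add, add_mul]

theorem lev_mul {a b : LaurentSeries ℂ} (ha : Cv a) (hb : Cv b) {t : ℂ} (h0 : t ≠ 0)
    (h1 : ‖t‖ < 1) : lev (a * b) t = lev a t * lev b t :=
  (mul_hasSum ha hb h0 h1).tsum_eq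

theorem lev_neg (a : LaurentSeries ℂ) (t : ℂ) : lev (-a) t = -lev a t := by
  rw [lev, lev, ← tsum_neg]
  refine tsum_congr fun m => ?_
  rw [HahnSeries.coeff_neg, neg_mul]

theorem lev_single (m : ℤ) (c t : ℂ) : lev (HahnSeries.single m c) t = c * t ^ m :=
  (single_hasSum m c t).tsum_eq

private theorem qParam_ok {n : ℕ} (hn : n ≠ 0) (τ : ℍ) :
    Function.Periodic.qParam (n : ℝ) (τ : ℂ) ≠ 0 ∧ ‖Function.Periodic.qParam (n : ℝ) (τ : ℂ)‖ < 1 := by
  have h0 : (0 : ℝ) < n := by exact_mod_cast Nat.pos_of_ne_zero hn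
  have : NeZero n := ⟨hn⟩
  exact ⟨Function.Periodic.qParam_ne_zero _, UpperHalfPlane.norm_qParam_lt_one _ _⟩

theorem QX_iff {n : ℕ} (hn : n ≠ 0) {f : ℍ → ℂ} {a : LaurentSeries ℂ} :
    QX n f a ↔ Cv a ∧ ∀ τ : ℍ, f τ = lev a (Function.Periodic.qParam (n : ℝ) τ) := by
  have hn0 : (0 : ℝ) < n := by exact_mod_cast Nat.pos_of_ne_zero hn
  constructor
  · intro h
    refine ⟨?_, fun τ => (h τ).tsum_eq.symm⟩
    intro t h0 h1
    have him := Function.Periodic.im_invQParam_pos_of_norm_lt_one hn0 h1 h0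
    have h2 := (h ⟨Function.Periodic.invQParam n t, him⟩).summable
    have h3 : Function.Periodic.qParam (n : ℝ) (Function.Periodic.invQParam (n : ℝ) t) = t :=
      Function.Periodic.qParam_right_inv hn0.ne' h0
    have h4 : ((⟨Function.Periodic.invQParam n t, him⟩ : ℍ) : ℂ) =
      Function.Periodic.invQParam (n : ℝ) t := rfl
    rw [h4, h3] at h2
    exact h2
  · rintro ⟨h1, h2⟩ τ
    obtain ⟨h3, h4⟩ := qParam_ok hn τ
    rw [h2 τ]
    exact h1.hasSum h3 h4

theorem QX.add {n : ℕ} (hn : n ≠ 0) {f g : ℍ → ℂ} {a b : LaurentSeries ℂ} (hf : QX n f a)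
    (hg : QX n g b) : QX n (f + g) (a + b) := by
  rw [QX_iff hn] at hf hg ⊢
  refine ⟨hf.1.add hg.1, fun τ => ?_⟩
  obtain ⟨h3, h4⟩ := qParam_ok hn τ
  rw [lev_add hf.1 hg.1 h3 h4, Pi.add_apply, hf.2 τ, hg.2 τ]

theorem QX.mul {n : ℕ} (hn : n ≠ 0) {f g : ℍ → ℂ} {a b : LaurentSeries ℂ} (hf : QX n f a)
    (hg : QX n g b) : QX n (f * g) (a * b) := by
  rw [QX_iff hn] at hf hg ⊢
  refine ⟨hf.1.mul hg.1, fun τ => ?_⟩
  obtain ⟨h3, h4⟩ := qParam_ok hn τ
  rw [lev_mul hf.1 hg.1 h3 h4, Pi.mul_apply, hf.2 τ, hg.2 τ]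

theorem QX.neg {n : ℕ} {f : ℍ → ℂ} {a : LaurentSeries ℂ} (hf : QX n f a) :
    QX n (-f) (-a) := by
  intro τ
  have h := (hf τ).neg
  simpa [HahnSeries.coeff_neg, neg_mul] using h

theorem QX.const (n : ℕ) (c : ℂ) : QX n (fun _ => c) (HahnSeries.C c) := by
  intro τ
  have h := single_hasSum 0 c (Function.Periodic.qParam (n : ℝ) τ)
  simpa [HahnSeries.C_apply] using h

/-- The pairs `(f, a)`, `a` the expansion of `f`, form a ring. -/
def QXring (n : ℕ) (hn : n ≠ 0) : Subring ((ℍ → ℂ) × LaurentSeries ℂ) where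
  carrier := {p | QX n p.1 p.2}
  mul_mem' := fun ha hb => QX.mul hn ha hb
  one_mem' := by
    have h := QX.const n 1
    rwa [map_one] at h
  add_mem' := fun ha hb => QX.add hn ha hb
  zero_mem' := by
    have h := QX.const n 0
    rwa [map_zero] at h
  neg_mem' := fun ha => QX.neg ha

end Pool.Agent.SS
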