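import Mathlib
import Pool.Agent.Work.CM.Eis
import Pool.Agent.Work.MP_a5099b_nt.Defs

/-!
# MP_a5099b_nt, blocks A and B: definitions (helper1)

Lattices in `ℂ` (library `Work/CM`: `IsLat`, `g2`, `g3`, `tauLat τ = ℤτ + ℤ`), their normalised
invariants, superlattices of index `n`, Laurent series (`q`-expansions) and their values, the formal
`q`-expansions of `E₄`, `E₆`, `Δ`, `j` with integer coefficients. No `sorry` in this file.
-/

set_option autoImplicit false

namespace Pool.Agent.SS

open UpperHalfPlane Polynomial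
open Pool.Agent.Work.CM (IsLat g2 g3 tauLat)
open scoped Pointwise ArithmeticFunction.sigma

noncomputable section

/-! ## Lattice functions -/

/-- `E₄` of a lattice, normalised by `e4 (ℤτ + ℤ) = E₄(τ)`. -/
def e4 (L : Submodule ℤ ℂ) : ℂ := 3 / (4 * (Real.pi : ℂ) ^ 4) * g2 L

/-- `E₆` of a lattice, normalised by `e6 (ℤτ + ℤ) = E₆(τ)`. -/
def e6 (L : Submodule ℤ ℂ) : ℂ := 27 / (8 * (Real.pi : ℂ) ^ 6) * g3 L

/-- `Δ` of a lattice, normalised by `dl (ℤτ + ℤ) = Δ(τ)`. -/
def dl (L : Submodule ℤ ℂ) : ℂ := (e4 L ^ 3 - e6 L ^ 2) / 1728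

/-- `S` is a homogeneous function of lattices, of weight `k`. -/
def Wt (k : ℤ) (S : Submodule ℤ ℂ → ℂ) : Prop :=
  ∀ L, IsLat L → ∀ m : ℂ, m ≠ 0 → m ^ k * S (m • L) = S L

open Classical in
/-- The superlattices of `L` of index `n`, as a finite set. -/
def supF (n : ℕ) (L : Submodule ℤ ℂ) : Finset (Submodule ℤ ℂ) :=
  if h : {L' | Sup n L L'}.Finite then h.toFinset else ∅

/-- The superlattice `ℤ (τ + b)/n + ℤ` of `ℤτ + ℤ`. -/
def supb (n : ℕ) (τ : ℍ) (b : ℤ) : Submodule ℤ ℂ := Submodule.span ℤ {((τ : ℂ) + b) / n, 1}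

/-- The superlattice `ℤ τ + ℤ (1/n)` of `ℤτ + ℤ`. -/
def supi (n : ℕ) (τ : ℍ) : Submodule ℤ ℂ := Submodule.span ℤ {(τ : ℂ), 1 / (n : ℂ)}

/-- The homogeneous function of lattices of weight `k` attached to a function on the upper half
plane. -/
def latFun (k : ℤ) (f : ℍ → ℂ) (L : Submodule ℤ ℂ) : ℂ :=
  open Classical in
  if h : ∃ p : ℂ × ℍ, p.1 ≠ 0 ∧ L = p.1 • tauLat p.2 then
    (h.choose.1 ^ k)⁻¹ * f h.choose.2 else 0

/-! ## Laurent series -/

/-- The Laurent series `a` converges in the punctured open unit disc. -/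
def Cv (a : LaurentSeries ℂ) : Prop :=
  ∀ t : ℂ, t ≠ 0 → ‖t‖ < 1 → Summable fun m : ℤ => a.coeff m * t ^ m

/-- The value of a Laurent series. -/
def lev (a : LaurentSeries ℂ) (t : ℂ) : ℂ := ∑' m : ℤ, a.coeff m * t ^ m

/-- `a` is the expansion of `f` in powers of `e(τ/n)`: `f τ = ∑ a_m e(mτ/n)` for all `τ`. -/
def QX (n : ℕ) (f : ℍ → ℂ) (a : LaurentSeries ℂ) : Prop :=
  ∀ τ : ℍ, HasSum (fun m : ℤ => a.coeff m * Function.Periodic.qParam (n : ℝ) τ ^ m) (f τ)

/-- The coefficients of `a` lie in `R`. -/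
def InR (R : Subring ℂ) (a : LaurentSeries ℂ) : Prop := ∀ m, a.coeff m ∈ R

section Formal

variable {A B : Type*} [CommRing A] [CommRing B]

/-- Coefficientwise application of a ring homomorphism. -/
def lmap (f : A →+* B) : LaurentSeries A →+* LaurentSeries B where
  toFun a := a.map f
  map_zero' := by ext; simp
  map_one' := by
    ext m
    by_cases h : m = 0 <;> simp [h]
  map_add' a b := by ext; simp
  map_mul' a b := by
    ext m
    simp only [HahnSeries.map_coeff, HahnSeries.coeff_mul, map_sum, map_mul]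
    symm
    apply Finset.sum_subset
    · intro ij hij
      rw [Finset.mem_antidiagonal] at hij ⊢
      exact ⟨HahnSeries.support_map_subset a f.toZeroHom hij.1,
        HahnSeries.support_map_subset b f.toZeroHom hij.2.1, hij.2.2⟩
    · intro ij hij hij'
      rw [Finset.mem_antidiagonal] at hij hij'
      by_contra hne
      apply hij'
      refine ⟨?_, ?_, hij.2.2⟩
      · rw [HahnSeries.mem_support, HahnSeries.map_coeff]
        exact left_ne_zero_of_mul hne
      · rw [HahnSeries.mem_support, HahnSeries.map_coeff]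
        exact right_ne_zero_of_mul hne

/-- The substitution `t ↦ t^n` (for `n ≠ 0`). -/
def lexp (n : ℕ) : LaurentSeries A →+* LaurentSeries A :=
  if hn : n = 0 then RingHom.id _ else
    HahnSeries.embDomainRingHom (AddMonoidHom.mulLeft (n : ℤ))
      (fun a b h => by
        have h' : (n : ℤ) * a = (n : ℤ) * b := h
        exact mul_left_cancel₀ (by exact_mod_cast hn) h')
      (fun a b => by
        have h0 : (0 : ℤ) < n := by exact_mod_cast Nat.pos_of_ne_zero hn
        exact mul_le_mul_iff_right₀ h0)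

/-- The series with coefficients `a_{nm+r}` (for `n ≠ 0`). -/
def sec (n : ℕ) (r : ℤ) (a : LaurentSeries A) : LaurentSeries A :=
  if hn : n = 0 then 0 else
    HahnSeries.ofSuppBddBelow (fun m : ℤ => a.coeff (n * m + r)) (by
      have h0 : (1 : ℤ) ≤ n := by exact_mod_cast Nat.pos_of_ne_zero hn
      refine ⟨min (a.order - r) 0 , ?_⟩
      intro m hm
      have h1 : a.order ≤ n * m + r := HahnSeries.order_le_of_coeff_ne_zero hm
      rcases le_total 0 m with h2 | h2
      · exact le_trans (min_le_right _ _) h2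
      · refine le_trans (min_le_left _ _) ?_
        nlinarith)

/-- The matrix of multiplication by `a(t)` on `A((t))` in the basis `1, t, …, t^(n-1)` over
`A((t^n))`, where `t^n` is written `t`. -/
def reg (n : ℕ) (a : LaurentSeries A) : Matrix (Fin n) (Fin n) (LaurentSeries A) :=
  fun i j => sec n ((i : ℤ) - (j : ℤ)) a

/-- The norm form `∏_b (X - a(ζ^b t))`, as a polynomial over `A((t^n))`, where `t^n` is written
`t`. -/
def Nm (n : ℕ) (a : LaurentSeries A) : (LaurentSeries A)[X] := (reg n a).charpoly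

/-- The substitution `t ↦ z t`. -/
def lsc {K : Type*} [Field K] (z : K) (a : LaurentSeries K) : LaurentSeries K where
  coeff m := z ^ m * a.coeff m
  isPWO_support' := a.isPWO_support.mono fun _ hm => right_ne_zero_of_mul hm

/-- The derivation `θ = t d/dt`. -/
def theta (a : LaurentSeries A) : LaurentSeries A where
  coeff m := (m : A) * a.coeff m
  isPWO_support' := a.isPWO_support.mono fun _ hm => right_ne_zero_of_mul hm

end Formal

/-! ## Formal expansions with integer coefficients -/

/-- The expansion of `E₄`. -/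
def E4q : PowerSeries ℤ := PowerSeries.mk fun m => if m = 0 then 1 else 240 * (σ 3 m : ℤ)

/-- The expansion of `E₆`. -/
def E6q : PowerSeries ℤ := PowerSeries.mk fun m => if m = 0 then 1 else -504 * (σ 5 m : ℤ)

/-- The expansion of `Δ = (E₄³ - E₆²)/1728`. -/
def Dq : PowerSeries ℤ :=
  PowerSeries.mk fun m => (PowerSeries.coeff m (E4q ^ 3 - E6q ^ 2)) / 1728

/-- The expansion of `Δ⁻¹`. -/
def Dinv : LaurentSeries ℤ :=
  HahnSeries.single (-1) 1 *
    HahnSeries.ofPowerSeries ℤ ℤ
      (PowerSeries.invOfUnit (PowerSeries.mk fun m => PowerSeries.coeff (m + 1) Dq) 1)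

/-- The expansion of `j = E₄³/Δ`. -/
def Jq : LaurentSeries ℤ := HahnSeries.ofPowerSeries ℤ ℤ (E4q ^ 3) * Dinv

/-- An integral Laurent series as a complex one. -/
def toC (a : LaurentSeries ℤ) : LaurentSeries ℂ := lmap (Int.castRingHom ℂ) a

end

end Pool.Agent.SS
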