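import Pool.Agent.Work.MP_a5099b_nt.A.Lev

/-!
# Module A.Deriv (M)

Termwise differentiation. `f ∘ ofComplex` on the upper half plane is `z ↦ lev a (e(z))`, `e(z) = exp(2πiz)`;
write `a = t^(-N) * (power series G)`, `N ≥ 0`: `f(z) = e(-N z) G(e(z))` with `G` analytic in the unit disc
(`HasFPowerSeriesOnBall`), `f'(z) = 2πi(-N e(-Nz) G(e(z)) + e(-Nz) e(z) G'(e(z)))` and
`G'(t) = ∑ k G_k t^(k-1)` (`HasFPowerSeriesOnBall.deriv`/`hasDerivAt`), so
`(2πi)^(-1) f'(z) = ∑ (k - N) G_k t^(k-N) = lev (theta a) (e(z))`; the series converges. Or: termwise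
differentiation of the locally uniformly convergent series (`hasDerivAt_tsum_of_isPreconnected`,
`hasSum_deriv_of_summable_norm`).
-/

set_option autoImplicit false

namespace Pool.Agent.SS

open UpperHalfPlane Polynomial
open Pool.Agent.Work.CM (IsLat g2 g3 tauLat)
open scoped Pointwise MatrixGroups

private theorem dq_norm (z : ℂ) : ‖Function.Periodic.qParam (1 : ℝ) z‖ = Real.exp (-2 * Real.pi * z.im) := by
  rw [Function.Periodic.norm_qParam]
  simp

private theorem dq_norm_zpow (z : ℂ) (m : ℤ) :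
    ‖Function.Periodic.qParam (1 : ℝ) z ^ m‖ = Real.exp (m * (-2 * Real.pi * z.im)) := by
  rw [norm_zpow, dq_norm, ← Real.rpow_intCast, ← Real.exp_mul, mul_comm]

private theorem dq_deriv (m : ℤ) (z : ℂ) :
    HasDerivAt (fun w : ℂ => Function.Periodic.qParam (1 : ℝ) w ^ m)
      ((2 * Real.pi * Complex.I) * m * Function.Periodic.qParam (1 : ℝ) z ^ m) z := by
  have h1 : (fun w : ℂ => Function.Periodic.qParam (1 : ℝ) w ^ m) =
      fun w => Complex.exp ((m : ℂ) * (2 * Real.pi * Complex.I * w)) := by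
    funext w
    rw [Function.Periodic.qParam, ← Complex.exp_int_mul]
    simp
  have h2 : Function.Periodic.qParam (1 : ℝ) z ^ m = Complex.exp ((m : ℂ) * (2 * Real.pi * Complex.I * z)) :=
    congrFun h1 z
  rw [h1, h2]
  have h3 : HasDerivAt (fun w : ℂ => (m : ℂ) * (2 * Real.pi * Complex.I * w))
      ((m : ℂ) * (2 * Real.pi * Complex.I * 1)) z :=
    ((hasDerivAt_id z).const_mul _).const_mul _
  have h4 := h3.cexp
  refine h4.congr_deriv ?_
  ring

/-- the majorant -/
private theorem maj {a : LaurentSeries ℂ} (ha : Cv a) (z₀ : ℂ) (h0 : 0 < z₀.im) :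
    ∃ u : ℤ → ℝ, Summable u ∧ ∀ (m : ℤ) (w : ℂ), w ∈ {w : ℂ | z₀.im / 2 < w.im ∧ w.im < 2 * z₀.im} →
      ‖a.coeff m * Function.Periodic.qParam (1 : ℝ) w ^ m‖ ≤ u m := by
  have hs : ∀ y : ℝ, 0 < y → Summable fun m : ℤ => ‖a.coeff m‖ * Real.exp (m * (-2 * Real.pi * y)) := by
    intro y hy
    have h1 : Function.Periodic.qParam (1 : ℝ) (y * Complex.I) ≠ 0 := Function.Periodic.qParam_ne_zero _
    have h2 : ‖Function.Periodic.qParam (1 : ℝ) (y * Complex.I)‖ < 1 := by
      rw [dq_norm]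
      simp
      positivity
    have h3 := (ha _ h1 h2).norm
    refine h3.congr fun m => ?_
    rw [norm_mul, dq_norm_zpow]
    simp
  refine ⟨fun m => ‖a.coeff m‖ * Real.exp (m * (-2 * Real.pi * (z₀.im / 2))) +
    ‖a.coeff m‖ * Real.exp (m * (-2 * Real.pi * (2 * z₀.im))),
    (hs _ (by positivity)).add (hs _ (by positivity)), fun m w hw => ?_⟩
  obtain ⟨h1, h2⟩ := hw
  rw [norm_mul, dq_norm_zpow]
  have hpi := Real.pi_pos
  rcases le_or_gt 0 m with hm | hm
  · have hm' : (0 : ℝ) ≤ m := by exact_mod_cast hm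
    have h3 : Real.exp (m * (-2 * Real.pi * w.im)) ≤ Real.exp (m * (-2 * Real.pi * (z₀.im / 2))) := by
      apply Real.exp_le_exp.2
      apply mul_le_mul_of_nonneg_left _ hm'
      nlinarith
    have h4 := mul_le_mul_of_nonneg_left h3 (norm_nonneg (a.coeff m))
    have h5 : 0 ≤ ‖a.coeff m‖ * Real.exp (m * (-2 * Real.pi * (2 * z₀.im))) := by positivity
    linarith
  · have hm' : (m : ℝ) ≤ 0 := by exact_mod_cast hm.le
    have h3 : Real.exp (m * (-2 * Real.pi * w.im)) ≤ Real.exp (m * (-2 * Real.pi * (2 * z₀.im))) := by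
      apply Real.exp_le_exp.2
      apply mul_le_mul_of_nonpos_left _ hm'
      nlinarith
    have h4 := mul_le_mul_of_nonneg_left h3 (norm_nonneg (a.coeff m))
    have h5 : 0 ≤ ‖a.coeff m‖ * Real.exp (m * (-2 * Real.pi * (z₀.im / 2))) := by positivity
    linarith

theorem QX_deriv {f : ℍ → ℂ} {a : LaurentSeries ℂ} (ha : QX 1 f a) :
    QX 1 (Derivative.normalizedDerivOfComplex f) (theta a) ∧
      DifferentiableOn ℂ (fun z : ℂ => f (ofComplex z)) {z : ℂ | 0 < z.im} := by
  have hcv : Cv a := ((QX_iff one_ne_zero).1 ha).1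
  have hval : ∀ z : ℂ, 0 < z.im →
      f (ofComplex z) = ∑' m : ℤ, a.coeff m * Function.Periodic.qParam (1 : ℝ) z ^ m := by
    intro z hz
    have h1 := ((QX_iff one_ne_zero).1 ha).2 ⟨z, hz⟩
    rw [ofComplex_apply_of_im_pos hz, h1, lev]
    simp
  have hopen : IsOpen {z : ℂ | 0 < z.im} := isOpen_lt continuous_const Complex.continuous_im
  have hU : ∀ z₀ : ℂ, IsOpen {w : ℂ | z₀.im / 2 < w.im ∧ w.im < 2 * z₀.im} := fun z₀ =>
    (isOpen_lt continuous_const Complex.continuous_im).inter (isOpen_lt Complex.continuous_im continuous_const)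
  have hev : ∀ z₀ : ℂ, 0 < z₀.im → (fun z : ℂ => f (ofComplex z)) =ᶠ[nhds z₀]
      fun z => ∑' m : ℤ, a.coeff m * Function.Periodic.qParam (1 : ℝ) z ^ m := by
    intro z₀ h0
    filter_upwards [hopen.mem_nhds h0] with z hz
    exact hval z hz
  have hdf : ∀ (m : ℤ) (U : Set ℂ), DifferentiableOn ℂ
      (fun w => a.coeff m * Function.Periodic.qParam (1 : ℝ) w ^ m) U := fun m U w _ =>
    ((dq_deriv m w).const_mul (a.coeff m)).differentiableAt.differentiableWithinAt
  constructor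
  · intro τ
    have h0 : 0 < (τ : ℂ).im := τ.im_pos
    obtain ⟨u, hu, hub⟩ := maj hcv (τ : ℂ) h0
    have hz : (τ : ℂ) ∈ {w : ℂ | (τ : ℂ).im / 2 < w.im ∧ w.im < 2 * (τ : ℂ).im} := by
      constructor <;> linarith
    have h1 := Complex.hasSum_deriv_of_summable_norm hu (fun m => hdf m _) (hU _) hub hz
    rw [← (hev _ h0).deriv_eq] at h1
    have h2 := h1.mul_left (2 * Real.pi * Complex.I)⁻¹
    rw [Derivative.normalizedDerivOfComplex]
    have e : (fun m : ℤ => (theta a).coeff m * Function.Periodic.qParam ((1 : ℕ) : ℝ) (τ : ℂ) ^ m) =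
        fun i : ℤ => (2 * Real.pi * Complex.I)⁻¹ *
          deriv (fun w => a.coeff i * Function.Periodic.qParam (1 : ℝ) w ^ i) (τ : ℂ) := by
      funext m
      rw [((dq_deriv m (τ : ℂ)).const_mul (a.coeff m)).deriv]
      have hI : (2 * Real.pi * Complex.I) ≠ 0 := Complex.two_pi_I_ne_zero
      have h3 : (theta a).coeff m = (m : ℂ) * a.coeff m := rfl
      rw [h3, Nat.cast_one]
      calc (m : ℂ) * a.coeff m * Function.Periodic.qParam (1 : ℝ) (τ : ℂ) ^ m =
          ((2 * Real.pi * Complex.I)⁻¹ * (2 * Real.pi * Complex.I)) *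
            ((m : ℂ) * a.coeff m * Function.Periodic.qParam (1 : ℝ) (τ : ℂ) ^ m) := by
            rw [inv_mul_cancel₀ hI, one_mul]
        _ = _ := by ring
    rw [e]
    exact h2
  · intro z₀ h0
    obtain ⟨u, hu, hub⟩ := maj hcv z₀ h0
    have h1 := Complex.differentiableOn_tsum_of_summable_norm hu (fun m => hdf m _) (hU z₀) hub
    have hz : z₀ ∈ {w : ℂ | z₀.im / 2 < w.im ∧ w.im < 2 * z₀.im} := by
      have h0' : 0 < z₀.im := h0
      constructor <;> linarith
    have h2 := (h1 z₀ hz).differentiableAt ((hU z₀).mem_nhds hz)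
    exact ((hev z₀ h0).differentiableAt_iff.2 h2).differentiableWithinAt

end Pool.Agent.SS
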