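import Pool.Agent.Work.MP_a5099b_nt.A.FormL

/-!
# Module A.Fin2 (S-M)

Variants with `1/6 ∈ R`: substitute `X₂ = (X₀^3 - X₁^2)/1728` in the polynomial of `formsL`
(`MvPolynomial.aeval`/`bind₁`; weighted homogeneity is preserved, `1728 = 2^6 3^3`).
`alg_indep`: every pair `(a, b)` with `a^3 ≠ b^2` is `(e4 L, e6 L)` (`exists_of_e4_e6`), so
`P (X₀^3 - X₁^2)` vanishes at all points of `ℂ^2`, hence is `0` (`MvPolynomial.funext`); the second factor is
not `0`.
-/

set_option autoImplicit false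

namespace Pool.Agent.SS

open UpperHalfPlane Polynomial
open Pool.Agent.Work.CM (IsLat g2 g3 tauLat)
open scoped Pointwise MatrixGroups

theorem formsL2 (R : Subring ℂ) (h6 : (6 : ℂ)⁻¹ ∈ R) {k : ℕ} {S : Submodule ℤ ℂ → ℂ}
    (hS : Wt k S) {a : LaurentSeries ℂ} (ha : QX 1 (fun τ => S (tauLat τ)) a) (hR : InR R a)
    (h0 : ∀ m : ℤ, m < 0 → a.coeff m = 0) :
    ∃ P : MvPolynomial (Fin 2) R, P.IsWeightedHomogeneous ![4, 6] k ∧
      ∀ L, IsLat L → S L = MvPolynomial.aeval ![e4 L, e6 L] P := by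
  obtain ⟨P, hP, hPS⟩ := formsL R hS ha hR h0
  have hc : (1728 : ℂ)⁻¹ ∈ R := by
    have h := R.mul_mem (R.pow_mem h6 6) (natCast_mem R 27)
    have e : ((6 : ℂ)⁻¹) ^ 6 * ((27 : ℕ) : ℂ) = (1728 : ℂ)⁻¹ := by norm_num
    rwa [e] at h
  set c : R := ⟨(1728 : ℂ)⁻¹, hc⟩ with hcdef
  set f : Fin 3 → MvPolynomial (Fin 2) R :=
    ![MvPolynomial.X 0, MvPolynomial.X 1,
      MvPolynomial.C c * (MvPolynomial.X 0 ^ 3 - MvPolynomial.X 1 ^ 2)] with hf
  have hX0 : (MvPolynomial.X 0 : MvPolynomial (Fin 2) R).IsWeightedHomogeneous ![4, 6] 4 :=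
    MvPolynomial.isWeightedHomogeneous_X R _ 0
  have hX1 : (MvPolynomial.X 1 : MvPolynomial (Fin 2) R).IsWeightedHomogeneous ![4, 6] 6 :=
    MvPolynomial.isWeightedHomogeneous_X R _ 1
  have hX2 : (MvPolynomial.C c * (MvPolynomial.X 0 ^ 3 - MvPolynomial.X 1 ^ 2) :
      MvPolynomial (Fin 2) R).IsWeightedHomogeneous ![4, 6] 12 := by
    have h1 := hX0.pow 3
    have h2 := hX1.pow 2
    have h3 := (MvPolynomial.isWeightedHomogeneous_C (![4, 6] : Fin 2 → ℕ) c).mul (h1.sub h2)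
    simpa using h3
  refine ⟨MvPolynomial.aeval f P, ?_, fun L hL => ?_⟩
  · rw [MvPolynomial.aeval_def, MvPolynomial.eval₂_eq']
    refine MvPolynomial.IsWeightedHomogeneous.sum _ _ _ fun d hd => ?_
    have hww := hP (MvPolynomial.mem_support_iff.mp hd)
    rw [Finsupp.weight_apply, Finsupp.sum_fintype _ _ (by intro i; simp)] at hww
    simp only [Fin.sum_univ_three, Matrix.cons_val_zero, Matrix.cons_val_one, Matrix.cons_val,
      smul_eq_mul] at hww
    have h3 := (MvPolynomial.isWeightedHomogeneous_C (![4, 6] : Fin 2 → ℕ) (P.coeff d)).mul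
      (((hX0.pow (d 0)).mul (hX1.pow (d 1))).mul (hX2.pow (d 2)))
    simp only [Fin.prod_univ_three, hf, Matrix.cons_val_zero, Matrix.cons_val_one,
      Matrix.cons_val]
    have e : 0 + (d 0 • 4 + d 1 • 6 + d 2 • 12) = k := by
      simp only [smul_eq_mul]
      omega
    rw [← e]
    exact h3
  · rw [hPS L hL]
    have h : (MvPolynomial.aeval ![e4 L, e6 L]).comp (MvPolynomial.aeval f)
        = (MvPolynomial.aeval ![e4 L, e6 L, dl L] : MvPolynomial (Fin 3) R →ₐ[R] ℂ) := by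
      apply MvPolynomial.algHom_ext
      intro i
      fin_cases i
      · simp [hf]
      · simp [hf]
      · simp only [hf, AlgHom.comp_apply, MvPolynomial.aeval_X, Fin.reduceFinMk,
          Matrix.cons_val, map_mul, map_sub, map_pow, MvPolynomial.aeval_C,
          Matrix.cons_val_zero, Matrix.cons_val_one]
        have hcc : (algebraMap R ℂ) c = (1728 : ℂ)⁻¹ := rfl
        rw [hcc]
        unfold dl
        ring
    exact (DFunLike.congr_fun h P).symm

theorem alg_indep {P : MvPolynomial (Fin 2) ℂ}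
    (h : ∀ L, IsLat L → MvPolynomial.aeval ![e4 L, e6 L] P = 0) : P = 0 := by
  have h1 : P * (MvPolynomial.X 0 ^ 3 - MvPolynomial.X 1 ^ 2) = 0 := by
    apply MvPolynomial.funext
    intro x
    simp only [map_mul, map_sub, map_pow, MvPolynomial.eval_X, map_zero]
    by_cases hx : x 0 ^ 3 = x 1 ^ 2
    · rw [hx, sub_self, mul_zero]
    · obtain ⟨L, hL, h4, h6⟩ := exists_of_e4_e6 hx
      have h2 := h L hL
      have h3 : (![e4 L, e6 L] : Fin 2 → ℂ) = x := by
        ext i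
        fin_cases i
        · simpa using h4
        · simpa using h6
      rw [h3] at h2
      rw [← MvPolynomial.coe_aeval_eq_eval]
      have h5 : (MvPolynomial.aeval x : MvPolynomial (Fin 2) ℂ →ₐ[ℂ] ℂ) P = 0 := h2
      show (MvPolynomial.aeval x : MvPolynomial (Fin 2) ℂ →ₐ[ℂ] ℂ) P * _ = 0
      rw [h5, zero_mul]
  rcases mul_eq_zero.mp h1 with h2 | h2
  · exact h2
  · exfalso
    have h3 := congrArg (MvPolynomial.eval (![1, 0] : Fin 2 → ℂ)) h2
    simp at h3

end Pool.Agent.SS
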