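import Pool.Agent.Work.MP_a5099b_nt.A.Mf
import Pool.Agent.Work.MP_a5099b_nt.A.Exp

/-!
# Module A.Form (M-L)

Level one forms with coefficients in `R` are polynomials in `E₄, E₆, Δ` over `R`. Strong induction on
`k`. If `k` is odd, `f = 0` (`ModularForm.levelOne_odd_weight_eq_zero`); if `k = 2`, `f = 0`
(`levelOne_weight_two_rank_zero`); if `k = 0`, `f` is a constant
(`ModularFormClass.levelOne_weight_zero_const`), equal to its coefficient `0`, in `R`. Let `k ≥ 4` be
even; choose `a, b` with `4a + 6b = k`. `c = (qExpansion 1 f).coeff 0 ∈ R`; `g = f - c E₄^a E₆^b` has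
constant coefficient `0` and coefficients in `R` (`E₄, E₆` have integer coefficients `E4q, E6q`). So `g` is a cusp
form (`toCuspForm`) and `g = Δ h` with `h = CuspForm.discriminantEquiv g` of weight `k - 12`
(`qExpansion_eq_qExpansion_discriminant_mul`). If `k < 12`, `h = 0` (`levelOne_neg_weight_eq_zero`). If
`k ≥ 12`: the coefficients of `h` are in `R`, as `qExpansion Δ = X * (1 + ...)` has integer coefficients
(`Dq`): `g_{m+1} = h_m + (integer combination of h_0, ..., h_{m-1})`, induction on `m`. By induction `h` is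
given by `P_h` and `P = c X₀^a X₁^b + X₂ P_h`.
(`ModularForm.mcast`, `ModularForm.mul`, `ModularForm.pow` in Mathlib's `Basic.lean`; compare
`LevelOne/GradedRing.lean`.)
-/

set_option autoImplicit false

namespace Pool.Agent.SS

open UpperHalfPlane Polynomial
open Pool.Agent.Work.CM (IsLat g2 g3 tauLat)
open scoped Pointwise MatrixGroups

section FormPriv

open ModularForm EisensteinSeries

private lemma qE4 : qExpansion 1 (E₄ : ℍ → ℂ) = PowerSeries.map (Int.castRingHom ℂ) E4q := by
  ext m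
  rw [PowerSeries.coeff_map, E4q, PowerSeries.coeff_mk, E_qExpansion_coeff _ ⟨2, rfl⟩]
  by_cases h : m = 0
  · simp [h]
  · rw [if_neg h, if_neg h, show _root_.bernoulli 4 = -1 / 30 by decide +kernel]
    push_cast
    norm_num

private lemma qE6 : qExpansion 1 (E₆ : ℍ → ℂ) = PowerSeries.map (Int.castRingHom ℂ) E6q := by
  ext m
  rw [PowerSeries.coeff_map, E6q, PowerSeries.coeff_mk, E_qExpansion_coeff _ ⟨3, rfl⟩]
  by_cases h : m = 0
  · simp [h]
  · rw [if_neg h, if_neg h, show _root_.bernoulli 6 = 1 / 42 by decide +kernel]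
    push_cast
    norm_num

private lemma qD : qExpansion 1 (discriminant : ℍ → ℂ) =
    PowerSeries.map (Int.castRingHom ℂ) Dq := by
  have h := discriminant_eq_E₄_cube_sub_E₆_sq_graded
  have h2 : (1728 : ℕ) • DirectSum.of (ModularForm 𝒮ℒ) 12 (CuspForm.discriminant : ModularForm 𝒮ℒ 12)
      = .of (ModularForm 𝒮ℒ) 4 E₄ ^ 3 - .of (ModularForm 𝒮ℒ) 6 E₆ ^ 2 := by
    rw [h, ← Nat.cast_smul_eq_nsmul ℂ, smul_smul]
    norm_num
  have h3 := congrArg (qExpansionRingHom 1 one_pos one_mem_strictPeriods_SL) h2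
  rw [map_nsmul, map_sub, map_pow, map_pow, qExpansionRingHom_apply, qExpansionRingHom_apply,
    qExpansionRingHom_apply, qE4, qE6, ← map_pow, ← map_pow, ← map_sub, ← Dq_spec, map_mul] at h3
  have h4 : (1728 : PowerSeries ℂ) * qExpansion 1 (discriminant : ℍ → ℂ) =
      1728 * PowerSeries.map (Int.castRingHom ℂ) Dq := by
    rw [nsmul_eq_mul, map_ofNat] at h3
    exact_mod_cast h3
  have h5 : (1728 : PowerSeries ℂ) ≠ 0 := by
    intro h0
    have := congrArg PowerSeries.constantCoeff h0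
    rw [map_ofNat, map_zero] at this
    norm_num at this
  exact mul_left_cancel₀ h5 h4

private noncomputable def PR (R : Subring ℂ) : Subring (PowerSeries ℂ) := (PowerSeries.map R.subtype).range

private lemma mem_PR (R : Subring ℂ) (a : PowerSeries ℂ) :
    a ∈ PR R ↔ ∀ m, PowerSeries.coeff m a ∈ R := by
  constructor
  · rintro ⟨b, rfl⟩ m
    simp
  · intro h
    refine ⟨PowerSeries.mk fun m => ⟨PowerSeries.coeff m a, h m⟩, ?_⟩
    ext m
    simp

private lemma map_int_mem (R : Subring ℂ) (a : PowerSeries ℤ) :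
    PowerSeries.map (Int.castRingHom ℂ) a ∈ PR R := by
  rw [mem_PR]
  intro m
  simp

private lemma C_mem (R : Subring ℂ) {c : ℂ} (hc : c ∈ R) : PowerSeries.C c ∈ PR R := by
  rw [mem_PR]
  intro m
  rw [PowerSeries.coeff_C]
  split_ifs
  · exact hc
  · exact R.zero_mem

private lemma div_mem (R : Subring ℂ) {g h : PowerSeries ℂ} (hg : g ∈ PR R)
    (e : g = PowerSeries.map (Int.castRingHom ℂ) Dq * h) : h ∈ PR R := by
  set U : PowerSeries ℤ := PowerSeries.mk fun m => PowerSeries.coeff (m + 1) Dq with hU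
  have hD : Dq = PowerSeries.X * U := by
    ext m
    rcases m with _ | m
    · simpa using Dq_zero
    · rw [PowerSeries.coeff_succ_X_mul, hU, PowerSeries.coeff_mk]
  have hU1 : PowerSeries.constantCoeff U = ((1 : ℤˣ) : ℤ) := by
    rw [← PowerSeries.coeff_zero_eq_constantCoeff_apply, hU, PowerSeries.coeff_mk]
    simpa using Dq_one
  set V : PowerSeries ℤ := PowerSeries.invOfUnit U 1 with hV
  have hUV : U * V = 1 := PowerSeries.mul_invOfUnit U 1 hU1
  have e2 : g * PowerSeries.map (Int.castRingHom ℂ) V = PowerSeries.X * h := by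
    rw [e, hD, map_mul, PowerSeries.map_X]
    calc PowerSeries.X * PowerSeries.map (Int.castRingHom ℂ) U * h *
          PowerSeries.map (Int.castRingHom ℂ) V
        = PowerSeries.X * h * PowerSeries.map (Int.castRingHom ℂ) (U * V) := by
          rw [map_mul]; ring
      _ = PowerSeries.X * h := by rw [hUV]; simp
  have h3 : PowerSeries.X * h ∈ PR R := e2 ▸ (PR R).mul_mem hg (map_int_mem R V)
  rw [mem_PR] at h3 ⊢
  intro m
  simpa [PowerSeries.coeff_succ_X_mul] using h3 (m + 1)

private noncomputable def Gab (a b k : ℕ) (h : 4 * a + 6 * b = k) : ModularForm 𝒮ℒ (k : ℤ) :=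
  ModularForm.mcast (by push_cast [← h]; ring) ((E₄.pow a).mul (E₆.pow b))

private lemma Gab_apply (a b k : ℕ) (h : 4 * a + 6 * b = k) (τ : ℍ) :
    Gab a b k h τ = E₄ τ ^ a * E₆ τ ^ b := by
  simp [Gab]

private lemma Gab_q (a b k : ℕ) (h : 4 * a + 6 * b = k) :
    qExpansion 1 (Gab a b k h) = PowerSeries.map (Int.castRingHom ℂ) (E4q ^ a * E6q ^ b) := by
  rw [Gab, ModularForm.qExpansion_mcast, ModularForm.qExpansion_mul one_pos one_mem_strictPeriods_SL,
    ModularForm.qExpansion_pow one_pos one_mem_strictPeriods_SL,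
    ModularForm.qExpansion_pow one_pos one_mem_strictPeriods_SL, qE4, qE6, map_mul, map_pow, map_pow]

private lemma Gab_q0 (a b k : ℕ) (h : 4 * a + 6 * b = k) :
    (qExpansion 1 (Gab a b k h)).coeff 0 = 1 := by
  rw [Gab_q, PowerSeries.coeff_map, PowerSeries.coeff_zero_eq_constantCoeff_apply, map_mul, map_pow,
    map_pow, ← PowerSeries.coeff_zero_eq_constantCoeff_apply,
    ← PowerSeries.coeff_zero_eq_constantCoeff_apply, E4q, E6q, PowerSeries.coeff_mk,
    PowerSeries.coeff_mk]
  simp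

end FormPriv

open ModularForm EisensteinSeries in
theorem forms_R (R : Subring ℂ) (k : ℕ) (f : ModularForm 𝒮ℒ (k : ℤ))
    (hR : ∀ m : ℕ, (qExpansion 1 f).coeff m ∈ R) :
    ∃ P : MvPolynomial (Fin 3) R, P.IsWeightedHomogeneous ![4, 6, 12] k ∧
      ∀ τ : ℍ, f τ = MvPolynomial.aeval
        ![ModularForm.E₄ τ, ModularForm.E₆ τ, ModularForm.discriminant τ] P := by
  induction k using Nat.strong_induction_on with | h k ih =>
  by_cases hf : f = 0
  · exact ⟨0, MvPolynomial.isWeightedHomogeneous_zero R _ _, fun τ => by simp [hf]⟩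
  have hev : Even k := by
    by_contra hodd
    rw [Nat.not_even_iff_odd] at hodd
    exact hf (ModularForm.levelOne_odd_weight_eq_zero (by exact_mod_cast hodd) f)
  have hk2 : k ≠ 2 := by
    rintro rfl
    exact hf (rank_zero_iff_forall_zero.mp ModularForm.levelOne_weight_two_rank_zero f)
  obtain ⟨a, b, hab⟩ : ∃ a b : ℕ, 4 * a + 6 * b = k := by
    obtain ⟨r, hr⟩ := hev
    refine ⟨(k - 6 * (r % 2)) / 4, r % 2, ?_⟩
    omega
  set c : ℂ := (qExpansion 1 f).coeff 0 with hc
  have hcR : c ∈ R := hR 0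
  set g : ModularForm 𝒮ℒ (k : ℤ) := f - c • Gab a b k hab with hg
  have hgq : qExpansion 1 g = qExpansion 1 f - PowerSeries.C c * qExpansion 1 (Gab a b k hab) := by
    rw [hg, FunLike.coe_sub, FunLike.coe_smul, ← FunLike.coe_smul,
      ModularForm.qExpansion_sub one_pos one_mem_strictPeriods_SL, FunLike.coe_smul,
      ModularForm.qExpansion_smul one_pos one_mem_strictPeriods_SL, PowerSeries.smul_eq_C_mul]
  have hgR : qExpansion 1 g ∈ PR R := by
    rw [hgq]
    refine (PR R).sub_mem ((mem_PR _ _).2 hR) ((PR R).mul_mem (C_mem R hcR) ?_)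
    rw [Gab_q]
    exact map_int_mem R _
  have hg0 : (qExpansion 1 g).coeff 0 = 0 := by
    rw [hgq, map_sub, PowerSeries.coeff_C_mul, Gab_q0, ← hc]
    ring
  have hfg : ∀ τ, f τ = c * (E₄ τ ^ a * E₆ τ ^ b) + g τ := by
    intro τ
    rw [hg]
    simp [Gab_apply]
  set h := CuspForm.discriminantEquiv (toCuspForm g hg0) with hh
  have hgh : ∀ τ, g τ = discriminant τ * h τ := by
    intro τ
    have := discriminant_mul_discriminantEquiv_apply (toCuspForm g hg0) τ
    rw [← hh] at this
    rw [this, toCuspForm_apply]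
  have hbase : (MvPolynomial.C (⟨c, hcR⟩ : R) * (MvPolynomial.X 0 ^ a * MvPolynomial.X 1 ^ b) :
      MvPolynomial (Fin 3) R).IsWeightedHomogeneous ![4, 6, 12] k := by
    have h0 := (MvPolynomial.isWeightedHomogeneous_C (σ := Fin 3) ![4, 6, 12] (⟨c, hcR⟩ : R))
    have h1 := (MvPolynomial.isWeightedHomogeneous_X (R := R) ![4, 6, 12] (0 : Fin 3)).pow a
    have h2 := (MvPolynomial.isWeightedHomogeneous_X (R := R) ![4, 6, 12] (1 : Fin 3)).pow b
    have h3 := h0.mul (h1.mul h2)
    convert h3 using 1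
    simp [← hab]
    ring
  have hbase2 : ∀ τ : ℍ, MvPolynomial.aeval ![E₄ τ, E₆ τ, discriminant τ]
      (MvPolynomial.C (⟨c, hcR⟩ : R) * (MvPolynomial.X 0 ^ a * MvPolynomial.X 1 ^ b) :
      MvPolynomial (Fin 3) R) = c * (E₄ τ ^ a * E₆ τ ^ b) := by
    intro τ
    simp [MvPolynomial.aeval_def]
    left
    rfl
  by_cases hk : k < 12
  · have h0 : ⇑h = 0 := ModularFormClass.levelOne_neg_weight_eq_zero (by omega) h
    refine ⟨_, hbase, fun τ => ?_⟩
    rw [hbase2, hfg, hgh, h0]
    simp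
  · have hk12 : 12 ≤ k := by omega
    set h' : ModularForm 𝒮ℒ ((k - 12 : ℕ) : ℤ) := ModularForm.mcast (by omega) h with hh'
    have hq : qExpansion 1 g = PowerSeries.map (Int.castRingHom ℂ) Dq * qExpansion 1 h' := by
      rw [hh', ModularForm.qExpansion_mcast, ← qD, hh]
      exact qExpansion_eq_qExpansion_discriminant_mul g hg0
    have hh'R : ∀ m, (qExpansion 1 h').coeff m ∈ R := (mem_PR _ _).1 (div_mem R hgR hq)
    obtain ⟨P, hP1, hP2⟩ := ih (k - 12) (by omega) h' hh'R
    refine ⟨MvPolynomial.C (⟨c, hcR⟩ : R) * (MvPolynomial.X 0 ^ a * MvPolynomial.X 1 ^ b) +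
      MvPolynomial.X 2 * P, hbase.add ?_, fun τ => ?_⟩
    · have h2 := (MvPolynomial.isWeightedHomogeneous_X (R := R) ![4, 6, 12] (2 : Fin 3)).mul hP1
      convert h2 using 1
      simp
      omega
    · rw [map_add, hbase2, hfg, hgh, map_mul, ← hP2]
      simp [hh']

end Pool.Agent.SS
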