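import Pool.Agent.Work.MP_a5099b_nt.A.Form

/-!
# Module A.FormL (S-M)

Lattice version. `formsL`: `exists_modularForm`, `forms_R`; both sides are homogeneous of weight `k` (a
weighted homogeneous polynomial in `e4, e6, dl` is homogeneous: `Wt`), and agree at `tauLat τ`:
`Wt.ext`. `formsL_pole`: choose `M` with `a.coeff m = 0` for `m < -M` and `k + 12 M ≥ 0`; apply `formsL` to
`S * dl^M`, expansion `a * (toC Dq)^M`, which has no negative coefficients (`Dq` has order 1) and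
coefficients in `R` (`InR R` is a subring of `LaurentSeries ℂ`: `InR.mul` etc.; it contains the
integral series).
-/

set_option autoImplicit false

namespace Pool.Agent.SS

open UpperHalfPlane Polynomial
open Pool.Agent.Work.CM (IsLat g2 g3 tauLat)
open scoped Pointwise MatrixGroups

/-- The series with coefficients in `R`. -/
theorem InR.mul {R : Subring ℂ} {a b : LaurentSeries ℂ} (ha : InR R a) (hb : InR R b) :
    InR R (a * b) := by
  intro m
  rw [HahnSeries.coeff_mul]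
  exact R.sum_mem fun ij _ => R.mul_mem (ha _) (hb _)

private theorem InR_pow {R : Subring ℂ} {a : LaurentSeries ℂ} (ha : InR R a) (n : ℕ) :
    InR R (a ^ n) := by
  induction n with
  | zero =>
    intro m
    rw [pow_zero, HahnSeries.coeff_one]
    split_ifs
    · exact R.one_mem
    · exact R.zero_mem
  | succ n ih =>
    rw [pow_succ]
    exact InR.mul ih ha

theorem InR.toC (R : Subring ℂ) (a : LaurentSeries ℤ) : InR R (Pool.Agent.SS.toC a) := by
  intro m
  have h : (Pool.Agent.SS.toC a).coeff m = ((a.coeff m : ℤ) : ℂ) := rfl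
  rw [h]
  exact intCast_mem R _

/-- A weighted homogeneous polynomial in `e4, e6, dl` is homogeneous. -/
theorem Wt_aeval {R : Subring ℂ} {k : ℕ} {P : MvPolynomial (Fin 3) R}
    (hP : P.IsWeightedHomogeneous ![4, 6, 12] k) :
    Wt k (fun L => MvPolynomial.aeval ![e4 L, e6 L, dl L] P) := by
  intro L hL m hm
  simp only [MvPolynomial.aeval_def, MvPolynomial.eval₂_eq', Finset.mul_sum]
  refine Finset.sum_congr rfl fun d hd => ?_
  have hw := hP (MvPolynomial.mem_support_iff.mp hd)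
  rw [Finsupp.weight_apply, Finsupp.sum_fintype _ _ (by intro i; simp)] at hw
  simp only [Fin.sum_univ_three, Matrix.cons_val_zero, Matrix.cons_val_one, Matrix.cons_val,
    smul_eq_mul] at hw
  simp only [Fin.prod_univ_three, Matrix.cons_val_zero, Matrix.cons_val_one, Matrix.cons_val]
  rw [← Wt_e4 L hL m hm, ← Wt_e6 L hL m hm, ← Wt_dl L hL m hm, ← hw]
  push_cast
  have e1 : (m : ℂ) ^ ((d 0 : ℤ) * 4 + (d 1 : ℤ) * 6 + (d 2 : ℤ) * 12)
      = (m ^ (4 : ℤ)) ^ (d 0) * (m ^ (6 : ℤ)) ^ (d 1) * (m ^ (12 : ℤ)) ^ (d 2) := by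
    rw [← zpow_natCast, ← zpow_natCast, ← zpow_natCast, ← zpow_mul, ← zpow_mul, ← zpow_mul,
      ← zpow_add₀ hm, ← zpow_add₀ hm]
    congr 1
    ring
  rw [e1]
  ring

theorem formsL (R : Subring ℂ) {k : ℕ} {S : Submodule ℤ ℂ → ℂ} (hS : Wt k S)
    {a : LaurentSeries ℂ} (ha : QX 1 (fun τ => S (tauLat τ)) a) (hR : InR R a)
    (h0 : ∀ m : ℤ, m < 0 → a.coeff m = 0) :
    ∃ P : MvPolynomial (Fin 3) R, P.IsWeightedHomogeneous ![4, 6, 12] k ∧
      ∀ L, IsLat L → S L = MvPolynomial.aeval ![e4 L, e6 L, dl L] P := by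
  obtain ⟨f, hf, hfc⟩ := exists_modularForm hS ha h0
  obtain ⟨P, hP, hPf⟩ := forms_R R k f (fun m => by rw [hfc]; exact hR _)
  refine ⟨P, hP, fun L hL => ?_⟩
  refine Wt.ext hS (Wt_aeval hP) (fun τ => ?_) hL
  rw [← hf, hPf, e4_tauLat, e6_tauLat, dl_tauLat]

theorem formsL_pole (R : Subring ℂ) {k : ℤ} {S : Submodule ℤ ℂ → ℂ} (hS : Wt k S)
    {a : LaurentSeries ℂ} (ha : QX 1 (fun τ => S (tauLat τ)) a) (hR : InR R a) :
    ∃ (M w : ℕ) (P : MvPolynomial (Fin 3) R), (w : ℤ) = k + 12 * M ∧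
      P.IsWeightedHomogeneous ![4, 6, 12] w ∧
      ∀ L, IsLat L → S L * dl L ^ M = MvPolynomial.aeval ![e4 L, e6 L, dl L] P := by
  obtain ⟨M, hM1, hM2⟩ : ∃ M : ℕ, 0 ≤ k + 12 * (M : ℤ) ∧ 0 ≤ a.order + (M : ℤ) := by
    refine ⟨k.natAbs + a.order.natAbs, ?_, ?_⟩ <;> push_cast <;>
      rcases abs_cases k with ⟨h1, h2⟩ | ⟨h1, h2⟩ <;>
      rcases abs_cases a.order with ⟨h3, h4⟩ | ⟨h3, h4⟩ <;> omega
  set D : LaurentSeries ℂ := Pool.Agent.SS.toC (HahnSeries.ofPowerSeries ℤ ℤ Dq) with hD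
  have hDc : ∀ m : ℤ, D.coeff m = (((HahnSeries.ofPowerSeries ℤ ℤ Dq).coeff m : ℤ) : ℂ) :=
    fun m => rfl
  have hD1 : D.coeff 1 ≠ 0 := by
    rw [hDc]
    have := HahnSeries.ofPowerSeries_apply_coeff (Γ := ℤ) Dq 1
    rw [Nat.cast_one, Dq_one] at this
    rw [this]
    simp
  have hD0 : D ≠ 0 := by
    intro h
    rw [h] at hD1
    exact hD1 rfl
  have hDlt : ∀ m : ℤ, m < 1 → D.coeff m = 0 := by
    intro m hm
    rw [hDc]
    rcases lt_or_ge m 0 with h | h
    · have : (HahnSeries.ofPowerSeries ℤ ℤ Dq).coeff m = 0 := by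
        rw [HahnSeries.ofPowerSeries_apply]
        refine HahnSeries.embDomain_of_notMem_range ?_
        rintro ⟨n, hn⟩
        simp at hn
        omega
      rw [this]
      simp
    · have hm0 : m = 0 := by omega
      subst hm0
      have := HahnSeries.ofPowerSeries_apply_coeff (Γ := ℤ) Dq 0
      rw [Nat.cast_zero, Dq_zero] at this
      rw [this]
      simp
  have hDord : 1 ≤ D.order := by
    by_contra hlt
    exact (HahnSeries.coeff_order_eq_zero.not.mpr hD0) (hDlt _ (by omega))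
  have hneg : ∀ m : ℤ, m < 0 → (a * D ^ M).coeff m = 0 := by
    intro m hm
    by_cases ha0 : a = 0
    · rw [ha0, zero_mul]
      rfl
    · apply HahnSeries.coeff_eq_zero_of_lt_order
      rw [HahnSeries.order_mul ha0 (pow_ne_zero _ hD0), HahnSeries.order_pow]
      have : (M : ℤ) ≤ M • D.order := by
        rw [nsmul_eq_mul]
        nlinarith
      omega
  have hdlpow : ∀ n : ℕ, QX 1 (fun τ => dl (tauLat τ) ^ n) (D ^ n) := by
    intro n
    have h := (QXring 1 one_ne_zero).pow_mem (x := ((fun τ => dl (tauLat τ)), D)) QX_dl n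
    exact h
  have hQ : QX 1 (fun τ => S (tauLat τ) * dl (tauLat τ) ^ M) (a * D ^ M) :=
    QX.mul one_ne_zero ha (hdlpow M)
  have hW : Wt (k + 12 * (M : ℤ)) (fun L => S L * dl L ^ M) := by
    intro L hL m hm
    show m ^ (k + 12 * (M : ℤ)) * (S (m • L) * dl (m • L) ^ M) = S L * dl L ^ M
    rw [← hS L hL m hm, ← Wt_dl L hL m hm, zpow_add₀ hm, zpow_mul, zpow_natCast]
    ring
  obtain ⟨w, hw⟩ := Int.eq_ofNat_of_zero_le hM1
  have hW' : Wt (w : ℤ) (fun L => S L * dl L ^ M) := by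
    rw [← hw]
    exact hW
  obtain ⟨P, hP, hPS⟩ := formsL R hW' hQ (InR.mul hR (InR_pow (InR.toC R _) M)) hneg
  exact ⟨M, w, P, hw.symm, hP, hPS⟩

end Pool.Agent.SS
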