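import Pool.Agent.Work.MP_a5099b_nt.A.Lev
import Pool.Agent.Work.MP_a5099b_nt.A.Lat
import Pool.Agent.Work.MP_a5099b_nt.A.Uniq

/-!
# Module A.Gal (M)

Galois principle (A4). `M L` is the multiset of the values at `L` of an intrinsic finite family of
lattice functions of weight `k` (e.g. `℘(c; L)` for the nonzero `c ∈ n⁻¹L/L`, modulo `±`); at `ℤτ + ℤ` it is
given by functions `f i` with expansions `a i` in powers of `e(τ/n)`, coefficients in `R'`, the family
`a` being stable under all automorphisms of `ℂ`. Then the coefficients of `∏ (X - x)` have expansions in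
powers of `e(τ)` with coefficients in `R`, where `R` contains the elements of `R'` fixed by all
automorphisms.

Proof. `P_L = ∏_{x ∈ M L} (X - x)`, `N = card ι`. `P_{m•L}` is `scaleRoots P_L (m^(-k))`, so coefficient `j` is
multiplied by `m^(-k(N-j))` (`Polynomial.coeff_scaleRoots`). Let `Q = ∏_i (X - C (a i))` over `ℂ((t))`. By
`QXring`, coefficient `j` of `P_{tauLat τ}` has the expansion `c = Q.coeff j` in powers of `e(τ/n)`. Since
`tauLat (τ + 1) = tauLat τ`, `c` is also the expansion of `c_j(τ + 1)`, i.e. `c` and the series with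
coefficients `ζ^m c_m`, `ζ = e(1/n)`, have the same values: by uniqueness `c_m (ζ^m - 1) = 0`, so `c_m = 0` for
`n ∤ m`, and `b = sec n 0 c` is the expansion in powers of `e(τ)`. Coefficients: `InR R'` is a subring, so
`c ∈ InR R'`; for an automorphism `σ`, `Q.map (lmap σ) = ∏ (X - C (lmap σ (a i))) = Q` by the hypothesis, so
`σ (c_m) = c_m`; hence `c_m ∈ R`.
-/

set_option autoImplicit false

namespace Pool.Agent.SS

open UpperHalfPlane Polynomial
open Pool.Agent.Work.CM (IsLat g2 g3 tauLat)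
open scoped Pointwise MatrixGroups

/-- coefficients of products of linear factors lie in a subring -/
private theorem coeff_mem_sub {A : Type*} [CommRing A] (T : Subring A) {ι : Type*} [Fintype ι]
    (a : ι → A) (h : ∀ i, a i ∈ T) (j : ℕ) : (∏ i, (X - C (a i))).coeff j ∈ T := by
  have h1 : (∏ i, (X - C (a i))) = (∏ i, (X - C (⟨a i, h i⟩ : T))).map T.subtype := by
    rw [Polynomial.map_prod]
    refine Finset.prod_congr rfl (fun i _ => ?_)
    simp
  rw [h1, coeff_map]
  exact ((∏ i, (X - C (⟨a i, h i⟩ : T))).coeff j).2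

/-- the subring of the series with coefficients in `R` -/
private def InRring (R : Subring ℂ) : Subring (LaurentSeries ℂ) where
  carrier := {a | InR R a}
  mul_mem' := by
    intro a b ha hb m
    rw [HahnSeries.coeff_mul]
    exact R.sum_mem fun p _ => R.mul_mem (ha _) (hb _)
  one_mem' := by
    intro m
    rw [HahnSeries.coeff_one]
    split_ifs
    · exact R.one_mem
    · exact R.zero_mem
  add_mem' := by
    intro a b ha hb m
    rw [HahnSeries.coeff_add]
    exact R.add_mem (ha m) (hb m)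
  zero_mem' := by
    intro m
    rw [HahnSeries.coeff_zero]
    exact R.zero_mem
  neg_mem' := by
    intro a ha m
    rw [HahnSeries.coeff_neg]
    exact R.neg_mem (ha m)

/-- the subring of the series without negative coefficients -/
private def Hring : Subring (LaurentSeries ℂ) where
  carrier := {a | ∀ m : ℤ, m < 0 → a.coeff m = 0}
  mul_mem' := by
    intro a b ha hb m hm
    rw [HahnSeries.coeff_mul]
    refine Finset.sum_eq_zero fun p hp => ?_
    rw [Finset.mem_antidiagonal] at hp
    rcases lt_or_ge p.1 0 with h | h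
    · rw [ha _ h, zero_mul]
    · rw [hb p.2 (by have := hp.2.2; omega), mul_zero]
  one_mem' := by
    intro m hm
    rw [HahnSeries.coeff_one, if_neg hm.ne]
  add_mem' := by
    intro a b ha hb m hm
    rw [HahnSeries.coeff_add, ha m hm, hb m hm, add_zero]
  zero_mem' := by
    intro m _
    rw [HahnSeries.coeff_zero]
  neg_mem' := by
    intro a ha m hm
    rw [HahnSeries.coeff_neg, ha m hm, neg_zero]

/-- scaling of the roots -/
private theorem scale_coeff (s : Multiset ℂ) {c : ℂ} (hc : c ≠ 0) {j : ℕ}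
    (hj : j ≤ Multiset.card s) :
    ((s.map (fun x => c * x)).map fun x => X - C x).prod.coeff j =
      c ^ (Multiset.card s - j) * (s.map fun x => X - C x).prod.coeff j := by
  have h1 : ((s.map (fun x => c * x)).map fun x => X - C x).prod.comp (C c * X) =
      C (c ^ Multiset.card s) * (s.map fun x => X - C x).prod := by
    clear hj
    induction s using Multiset.induction_on with
    | empty => simp
    | cons x s ih =>
      rw [Multiset.map_cons, Multiset.map_cons, Multiset.prod_cons, mul_comp, ih,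
        Multiset.map_cons, Multiset.prod_cons, Multiset.card_cons, pow_succ, sub_comp, X_comp,
        C_comp]
      simp only [C_mul]
      ring
  have h2 := congrArg (fun P => coeff P j) h1
  simp only [comp_C_mul_X_coeff, coeff_C_mul] at h2
  have h3 : c ^ Multiset.card s = c ^ (Multiset.card s - j) * c ^ j := by
    rw [← pow_add, Nat.sub_add_cancel hj]
  rw [h3, mul_right_comm] at h2
  exact mul_right_cancel₀ (pow_ne_zero j hc) h2

private theorem prod_map_eq {ι : Type*} [Fintype ι] {A : Type*} [CommRing A] (g : ι → A) :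
    ((Finset.univ.val.map g).map fun x => X - C x).prod = ∏ i, (X - C (g i)) := by
  rw [Multiset.map_map]
  rfl

private theorem qParam_shift {n : ℕ} (hn : n ≠ 0) (z : ℂ) :
    Function.Periodic.qParam (n : ℝ) (z + 1) =
      Complex.exp (2 * Real.pi * Complex.I / n) * Function.Periodic.qParam (n : ℝ) z := by
  have hn' : (n : ℂ) ≠ 0 := by exact_mod_cast hn
  unfold Function.Periodic.qParam
  rw [← Complex.exp_add]
  congr 1
  push_cast
  field_simp
  ring

private theorem qParam_pow {n : ℕ} (hn : n ≠ 0) (z : ℂ) :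
    Function.Periodic.qParam (n : ℝ) z ^ n = Function.Periodic.qParam ((1 : ℕ) : ℝ) z := by
  have hn' : (n : ℂ) ≠ 0 := by exact_mod_cast hn
  unfold Function.Periodic.qParam
  rw [← Complex.exp_nat_mul]
  congr 1
  push_cast
  field_simp

private theorem coe_shift (τ : ℍ) : (((1 : ℝ) +ᵥ τ : ℍ) : ℂ) = (τ : ℂ) + 1 := by
  rw [UpperHalfPlane.coe_vadd]
  push_cast
  ring

private theorem tauLat_add_one (τ : ℍ) : tauLat ((1 : ℝ) +ᵥ τ) = tauLat τ := by
  unfold Pool.Agent.Work.CM.tauLat
  rw [coe_shift]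
  refine le_antisymm (Submodule.span_le.2 ?_) (Submodule.span_le.2 ?_)
  · rintro z (rfl | rfl)
    · exact Submodule.add_mem _ (Submodule.subset_span (by simp))
        (Submodule.subset_span (by simp))
    · exact Submodule.subset_span (by simp)
  · rintro z (rfl | rfl)
    · have h1 : (τ : ℂ) = ((τ : ℂ) + 1) - 1 := by ring
      rw [h1]
      exact Submodule.sub_mem _ (Submodule.subset_span (by simp))
        (Submodule.subset_span (by simp))
    · exact Submodule.subset_span (by simp)

private theorem sec_cf {n : ℕ} (hn : n ≠ 0) (a : LaurentSeries ℂ) (m : ℤ) :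
    (sec n 0 a).coeff m = a.coeff (n * m) := by
  unfold sec
  rw [dif_neg hn]
  show a.coeff (n * m + 0) = a.coeff (n * m)
  rw [add_zero]

/-- the common part of both statements -/
private theorem gal_aux {n : ℕ} (hn : n ≠ 0) {k : ℤ} {M : Submodule ℤ ℂ → Multiset ℂ}
    (hM : ∀ L, IsLat L → ∀ m : ℂ, m ≠ 0 → (M (m • L)).map (fun x => m ^ k * x) = M L)
    {ι : Type*} [Fintype ι] (f : ι → ℍ → ℂ) (a : ι → LaurentSeries ℂ)
    (hf : ∀ i, QX n (f i) (a i))
    (hMf : ∀ τ, M (tauLat τ) = Finset.univ.val.map fun i => f i τ)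
    (R R' : Subring ℂ) (hR' : ∀ i, InR R' (a i))
    (hgal : ∀ σ : ℂ ≃+* ℂ,
      (Finset.univ.val.map fun i => lmap σ.toRingHom (a i)) = Finset.univ.val.map a)
    (hRR' : ∀ z ∈ R', (∀ σ : ℂ ≃+* ℂ, σ z = z) → z ∈ R) {j : ℕ} (hj : j ≤ Fintype.card ι) :
    Wt (k * (Fintype.card ι - j : ℕ)) (fun L => ((M L).map fun x => X - C x).prod.coeff j) ∧
      QX 1 (fun τ => ((M (tauLat τ)).map fun x => X - C x).prod.coeff j)
        (sec n 0 ((∏ i, (X - C (a i))).coeff j)) ∧
      InR R (sec n 0 ((∏ i, (X - C (a i))).coeff j)) := by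
  classical
  have hcard : ∀ L, IsLat L → Multiset.card (M L) = Fintype.card ι := by
    intro L hL
    obtain ⟨m, hm, τ, rfl⟩ := exists_tau hL
    have hlat : IsLat (tauLat τ) := by
      have h1 := Pool.Agent.Work.CM.IsLat.smul hL (inv_ne_zero hm)
      rwa [inv_smul_smul₀ hm] at h1
    have h1 := congrArg Multiset.card (hM (tauLat τ) hlat m hm)
    rw [Multiset.card_map] at h1
    rw [h1, hMf, Multiset.card_map]
    rfl
  set c : LaurentSeries ℂ := (∏ i, (X - C (a i))).coeff j with hc
  set F : ℍ → ℂ := fun τ => ((M (tauLat τ)).map fun x => X - C x).prod.coeff j with hF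
  -- the expansion in powers of e(τ/n)
  have hQ : QX n F c := by
    let x : ι → QXring n hn := fun i => ⟨(f i, a i), hf i⟩
    let P : (QXring n hn)[X] := ∏ i, (X - C (x i))
    have h1 : ((P.coeff j : QXring n hn) : (ℍ → ℂ) × LaurentSeries ℂ).2 = c := by
      have h2 : (P.map ((RingHom.snd (ℍ → ℂ) (LaurentSeries ℂ)).comp (QXring n hn).subtype)) =
          ∏ i, (X - C (a i)) := by
        rw [Polynomial.map_prod]
        refine Finset.prod_congr rfl fun i _ => ?_
        rw [Polynomial.map_sub, map_X, map_C]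
        rfl
      rw [hc, ← h2, coeff_map]
      rfl
    have h3 : ((P.coeff j : QXring n hn) : (ℍ → ℂ) × LaurentSeries ℂ).1 = F := by
      funext τ
      have h2 : (P.map ((Pi.evalRingHom (fun _ : ℍ => ℂ) τ).comp
          ((RingHom.fst (ℍ → ℂ) (LaurentSeries ℂ)).comp (QXring n hn).subtype))) =
          ∏ i, (X - C (f i τ)) := by
        rw [Polynomial.map_prod]
        refine Finset.prod_congr rfl fun i _ => ?_
        rw [Polynomial.map_sub, map_X, map_C]
        rfl
      have h4 : F τ = (∏ i, (X - C (f i τ))).coeff j := by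
        rw [hF]
        simp only
        rw [hMf, prod_map_eq]
      rw [h4, ← h2, coeff_map]
      rfl
    have h5 := (P.coeff j).2
    have h6 : QX n ((P.coeff j : QXring n hn) : (ℍ → ℂ) × LaurentSeries ℂ).1
      ((P.coeff j : QXring n hn) : (ℍ → ℂ) × LaurentSeries ℂ).2 := h5
    rwa [h1, h3] at h6
  -- only multiples of n occur
  set ζ : ℂ := Complex.exp (2 * Real.pi * Complex.I / n) with hζ
  have hζ0 : ζ ≠ 0 := Complex.exp_ne_zero _
  have hprim : IsPrimitiveRoot ζ n := Complex.isPrimitiveRoot_exp n hn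
  have hQ' : QX n F (lsc ζ c) := by
    intro τ
    have h1 := hQ ((1 : ℝ) +ᵥ τ)
    have h2 : F ((1 : ℝ) +ᵥ τ) = F τ := by
      rw [hF]
      simp only
      rw [tauLat_add_one]
    rw [h2] at h1
    rw [coe_shift, qParam_shift hn] at h1
    have e : (fun m : ℤ => (lsc ζ c).coeff m * Function.Periodic.qParam (n : ℝ) τ ^ m) =
        fun m : ℤ => c.coeff m * (ζ * Function.Periodic.qParam (n : ℝ) τ) ^ m := by
      funext m
      show (ζ ^ m * c.coeff m) * Function.Periodic.qParam (n : ℝ) τ ^ m =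
        c.coeff m * (ζ * Function.Periodic.qParam (n : ℝ) τ) ^ m
      rw [mul_zpow]
      ring
    rw [e]
    exact h1
  have hcz : ∀ m : ℤ, ¬ (n : ℤ) ∣ m → c.coeff m = 0 := by
    intro m hm
    have h1 : c.coeff m = ζ ^ m * c.coeff m := by
      conv_lhs => rw [QX.unique hn hQ hQ']
      rfl
    by_contra hne
    have h2 : ζ ^ m = 1 := by
      have h3 : 1 * c.coeff m = ζ ^ m * c.coeff m := by rw [one_mul]; exact h1
      exact (mul_right_cancel₀ hne h3).symm
    exact hm ((hprim.zpow_eq_one_iff_dvd m).1 h2)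
  refine ⟨?_, ?_, ?_⟩
  · intro L hL m hm
    have hLm : IsLat (m • L) := Pool.Agent.Work.CM.IsLat.smul hL hm
    show m ^ (k * ((Fintype.card ι - j : ℕ) : ℤ)) *
      ((M (m • L)).map fun x => X - C x).prod.coeff j = ((M L).map fun x => X - C x).prod.coeff j
    rw [← hM L hL m hm, scale_coeff _ (zpow_ne_zero k hm) (by rw [hcard _ hLm]; exact hj),
      hcard _ hLm, zpow_mul, zpow_natCast]
  · intro τ
    have h1 := hQ τ
    have hn' : (n : ℤ) ≠ 0 := by exact_mod_cast hn
    have hinj : Function.Injective (fun m : ℤ => (n : ℤ) * m) := fun x y hxy =>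
      mul_left_cancel₀ hn' hxy
    have h2 := (hinj.hasSum_iff (f := fun m : ℤ => c.coeff m *
      Function.Periodic.qParam (n : ℝ) τ ^ m) (a := F τ) (by
        intro m hm
        rw [hcz m (fun ⟨l, hl⟩ => hm ⟨l, hl.symm⟩), zero_mul])).2 h1
    have e : (fun m : ℤ => (sec n 0 c).coeff m *
        Function.Periodic.qParam ((1 : ℕ) : ℝ) τ ^ m) =
        (fun m : ℤ => c.coeff m * Function.Periodic.qParam (n : ℝ) τ ^ m) ∘
          (fun m : ℤ => (n : ℤ) * m) := by
      funext m
      show (sec n 0 c).coeff m * Function.Periodic.qParam ((1 : ℕ) : ℝ) τ ^ m =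
        c.coeff (n * m) * Function.Periodic.qParam (n : ℝ) τ ^ ((n : ℤ) * m)
      rw [sec_cf hn, ← qParam_pow hn, zpow_mul, zpow_natCast]
    rw [e]
    exact h2
  · intro m
    rw [sec_cf hn]
    have hcR : InR R' c := coeff_mem_sub (InRring R') a hR' j
    refine hRR' _ (hcR _) fun σ => ?_
    have h1 : (∏ i, (X - C (a i))).map (lmap σ.toRingHom) = ∏ i, (X - C (a i)) := by
      rw [Polynomial.map_prod]
      have h2 : ∀ i, (X - C (a i)).map (lmap σ.toRingHom) =
          X - C (lmap σ.toRingHom (a i)) := by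
        intro i
        rw [Polynomial.map_sub, map_X, map_C]
      rw [Finset.prod_congr rfl fun i _ => h2 i, ← prod_map_eq, ← prod_map_eq, hgal σ]
    have h3 : lmap σ.toRingHom c = c := by
      rw [hc]
      conv_rhs => rw [← h1]
      rw [coeff_map]
    have h4 := congrArg (fun x : LaurentSeries ℂ => x.coeff (n * m)) h3
    exact h4

theorem gal_fam {n : ℕ} (hn : n ≠ 0) {k : ℤ} {M : Submodule ℤ ℂ → Multiset ℂ}
    (hM : ∀ L, IsLat L → ∀ m : ℂ, m ≠ 0 → (M (m • L)).map (fun x => m ^ k * x) = M L)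
    {ι : Type*} [Fintype ι] (f : ι → ℍ → ℂ) (a : ι → LaurentSeries ℂ)
    (hf : ∀ i, QX n (f i) (a i))
    (hMf : ∀ τ, M (tauLat τ) = Finset.univ.val.map fun i => f i τ)
    (R R' : Subring ℂ) (hR' : ∀ i, InR R' (a i))
    (hgal : ∀ σ : ℂ ≃+* ℂ,
      (Finset.univ.val.map fun i => lmap σ.toRingHom (a i)) = Finset.univ.val.map a)
    (hRR' : ∀ z ∈ R', (∀ σ : ℂ ≃+* ℂ, σ z = z) → z ∈ R) {j : ℕ} (hj : j ≤ Fintype.card ι) :
    Wt (k * (Fintype.card ι - j : ℕ)) (fun L => ((M L).map fun x => X - C x).prod.coeff j) ∧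
      ∃ b, QX 1 (fun τ => ((M (tauLat τ)).map fun x => X - C x).prod.coeff j) b ∧ InR R b := by
  obtain ⟨h1, h2, h3⟩ := gal_aux hn hM f a hf hMf R R' hR' hgal hRR' hj
  exact ⟨h1, _, h2, h3⟩

/-- If the expansions of the members have no negative coefficients, neither has the result. -/
theorem gal_fam_hol {n : ℕ} (hn : n ≠ 0) {k : ℤ} {M : Submodule ℤ ℂ → Multiset ℂ}
    (hM : ∀ L, IsLat L → ∀ m : ℂ, m ≠ 0 → (M (m • L)).map (fun x => m ^ k * x) = M L)
    {ι : Type*} [Fintype ι] (f : ι → ℍ → ℂ) (a : ι → LaurentSeries ℂ)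
    (hf : ∀ i, QX n (f i) (a i))
    (hMf : ∀ τ, M (tauLat τ) = Finset.univ.val.map fun i => f i τ)
    (R R' : Subring ℂ) (hR' : ∀ i, InR R' (a i)) (h0 : ∀ i, ∀ m : ℤ, m < 0 → (a i).coeff m = 0)
    (hgal : ∀ σ : ℂ ≃+* ℂ,
      (Finset.univ.val.map fun i => lmap σ.toRingHom (a i)) = Finset.univ.val.map a)
    (hRR' : ∀ z ∈ R', (∀ σ : ℂ ≃+* ℂ, σ z = z) → z ∈ R) {j : ℕ} (hj : j ≤ Fintype.card ι) :
    Wt (k * (Fintype.card ι - j : ℕ)) (fun L => ((M L).map fun x => X - C x).prod.coeff j) ∧
      ∃ b, QX 1 (fun τ => ((M (tauLat τ)).map fun x => X - C x).prod.coeff j) b ∧ InR R b ∧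
        ∀ m : ℤ, m < 0 → b.coeff m = 0 := by
  obtain ⟨h1, h2, h3⟩ := gal_aux hn hM f a hf hMf R R' hR' hgal hRR' hj
  refine ⟨h1, _, h2, h3, fun m hm => ?_⟩
  rw [sec_cf hn]
  have h4 : ∀ m : ℤ, m < 0 → ((∏ i, (X - C (a i))).coeff j).coeff m = 0 :=
    coeff_mem_sub Hring a h0 j
  apply h4
  have : (0 : ℤ) < n := by exact_mod_cast Nat.pos_of_ne_zero hn
  nlinarith

end Pool.Agent.SS
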