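import Pool.Agent.Work.MP_a5099b_nt.A.Defs
import Pool.Agent.Work.CM.Ext1
import Pool.Agent.Work.CM.Ext2

/-!
# Module A.GalZ (M)

The ring `ℤ[1/N]` and the elements of `ℤ[1/N, ζ_n]` fixed by all automorphisms of `ℂ`.

`fixed_rat`: an algebraic number `z ∈ ℂ` fixed by all automorphisms is rational: if not, its minimal
polynomial over `ℚ` has degree `≥ 2` and (characteristic 0) another root `z' ≠ z` in `ℂ`; `ℚ(z) → ℂ`, `z ↦ z'`,
extends to an automorphism of `ℂ` (library `CM.Ext1`, `CM.Ext2`: `exists_extension`, `algebraic_of_finite`;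
`IsAlgClosed.lift`, transcendence bases).
`zinv_fixed`: `z ∈ closure {1/N, ζ}`: `N^k z` is an algebraic integer for some `k` (closure induction), it is
rational by `fixed_rat`, so an integer (`IsIntegrallyClosed`), `z = a/N^k`.
-/

set_option autoImplicit false

namespace Pool.Agent.SS

open UpperHalfPlane Polynomial
open Pool.Agent.Work.CM (IsLat g2 g3 tauLat)
open scoped Pointwise MatrixGroups

/-- the ring `ℤ[1/N]` -/
noncomputable def Zinv (N : ℕ) : Subring ℂ := Subring.closure {(N : ℂ)⁻¹}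

/-- the ring `ℤ[1/N, ζ_n]` -/
noncomputable def ZinvZ (N n : ℕ) : Subring ℂ :=
  Subring.closure {(N : ℂ)⁻¹, Complex.exp (2 * Real.pi * Complex.I / n)}

private theorem fixed_gen {K : Type*} [Field K] [CharZero K] [Algebra K ℂ] {z : ℂ} (hz : IsAlgebraic K z)
    (h : ∀ σ : ℂ ≃ₐ[K] ℂ, σ z = z) : ∃ r : K, algebraMap K ℂ r = z := by
  have hcl : IsAlgClosure K (algebraicClosure K ℂ) := inferInstance
  have hac : IsAlgClosed (algebraicClosure K ℂ) := IsAlgClosure.isAlgClosed K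
  have hn : Normal K (algebraicClosure K ℂ) := IsAlgClosure.normal K _
  have hg : IsGalois K (algebraicClosure K ℂ) := ⟨⟩
  obtain ⟨x, hx⟩ : ∃ x : algebraicClosure K ℂ, (algebraicClosure K ℂ).val x = z :=
    ⟨⟨z, mem_algebraicClosure_iff.2 hz⟩, rfl⟩
  have h1 : ∀ σ : (algebraicClosure K ℂ) ≃ₐ[K] (algebraicClosure K ℂ), σ x = x := by
    intro σ
    obtain ⟨τ, hτ⟩ := Pool.Agent.Work.CM.exists_extension (algebraicClosure K ℂ).val σ
    have h2 := hτ x
    rw [hx, h τ, ← hx] at h2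
    exact (Subtype.ext h2).symm
  have h2 : x ∈ (⊥ : IntermediateField K (algebraicClosure K ℂ)) :=
    (InfiniteGalois.mem_bot_iff_fixed x).2 h1
  obtain ⟨r, hr⟩ := IntermediateField.mem_bot.1 h2
  refine ⟨r, ?_⟩
  rw [← hx, ← hr, AlgHom.commutes]

theorem fixed_rat {z : ℂ} (hz : IsAlgebraic ℚ z) (h : ∀ σ : ℂ ≃+* ℂ, σ z = z) :
    ∃ r : ℚ, z = r := by
  obtain ⟨r, hr⟩ := fixed_gen hz fun σ => h σ.toRingEquiv
  exact ⟨r, by rw [← hr, eq_ratCast]⟩

theorem mem_Zinv {N : ℕ} (hN : N ≠ 0) {z : ℂ} : z ∈ Zinv N ↔ ∃ (a : ℤ) (k : ℕ), z * N ^ k = a := by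
  have hN' : (N : ℂ) ≠ 0 := Nat.cast_ne_zero.2 hN
  constructor
  · intro hz
    induction hz using Subring.closure_induction with
    | mem x hx =>
      rw [Set.mem_singleton_iff] at hx
      subst hx
      exact ⟨1, 1, by rw [pow_one, inv_mul_cancel₀ hN', Int.cast_one]⟩
    | zero => exact ⟨0, 0, by simp⟩
    | one => exact ⟨1, 0, by simp⟩
    | add x y _ _ hx hy =>
      obtain ⟨a, k, ha⟩ := hx
      obtain ⟨b, l, hb⟩ := hy
      refine ⟨a * N ^ l + b * N ^ k, k + l, ?_⟩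
      push_cast
      rw [← ha, ← hb]
      ring
    | neg x _ hx =>
      obtain ⟨a, k, ha⟩ := hx
      refine ⟨-a, k, ?_⟩
      push_cast
      rw [← ha]
      ring
    | mul x y _ _ hx hy =>
      obtain ⟨a, k, ha⟩ := hx
      obtain ⟨b, l, hb⟩ := hy
      refine ⟨a * b, k + l, ?_⟩
      push_cast
      rw [← ha, ← hb]
      ring
  · rintro ⟨a, k, h⟩
    have h1 : z = a * ((N : ℂ)⁻¹) ^ k := by
      rw [← h, mul_assoc, ← mul_pow, mul_inv_cancel₀ hN', one_pow, mul_one]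
    have h2 : (N : ℂ)⁻¹ ∈ Zinv N := Subring.subset_closure (Set.mem_singleton _)
    rw [h1]
    exact (Zinv N).mul_mem (intCast_mem (Zinv N) a) ((Zinv N).pow_mem h2 k)

theorem zinv_fixed {N n : ℕ} (hN : N ≠ 0) (hn : n ≠ 0) {z : ℂ} (hz : z ∈ ZinvZ N n)
    (h : ∀ σ : ℂ ≃+* ℂ, σ z = z) : z ∈ Zinv N := by
  have hN' : (N : ℂ) ≠ 0 := Nat.cast_ne_zero.2 hN
  have hNi : ∀ k : ℕ, IsIntegral ℤ ((N : ℂ) ^ k) := fun k => by
    have h0 : IsIntegral ℤ (algebraMap ℤ ℂ (N : ℤ)) := isIntegral_algebraMap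
    rw [map_natCast] at h0
    exact h0.pow k
  have h1 : ∃ k : ℕ, IsIntegral ℤ (z * N ^ k) := by
    clear h
    induction hz using Subring.closure_induction with
    | mem x hx =>
      rcases hx with rfl | hx
      · refine ⟨1, ?_⟩
        rw [pow_one, inv_mul_cancel₀ hN']
        exact isIntegral_one
      · rw [Set.mem_singleton_iff] at hx
        subst hx
        refine ⟨0, ?_⟩
        rw [pow_zero, mul_one]
        exact (Complex.isPrimitiveRoot_exp n hn).isIntegral (Nat.pos_of_ne_zero hn)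
    | zero => exact ⟨0, by rw [zero_mul]; exact isIntegral_zero⟩
    | one => exact ⟨0, by rw [pow_zero, mul_one]; exact isIntegral_one⟩
    | add x y _ _ hx hy =>
      obtain ⟨k, ha⟩ := hx
      obtain ⟨l, hb⟩ := hy
      refine ⟨k + l, ?_⟩
      have e : (x + y) * (N : ℂ) ^ (k + l) = x * N ^ k * N ^ l + y * N ^ l * N ^ k := by ring
      rw [e]
      exact (ha.mul (hNi l)).add (hb.mul (hNi k))
    | neg x _ hx =>
      obtain ⟨k, ha⟩ := hx
      refine ⟨k, ?_⟩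
      rw [neg_mul]
      exact ha.neg
    | mul x y _ _ hx hy =>
      obtain ⟨k, ha⟩ := hx
      obtain ⟨l, hb⟩ := hy
      refine ⟨k + l, ?_⟩
      have e : (x * y) * (N : ℂ) ^ (k + l) = x * N ^ k * (y * N ^ l) := by ring
      rw [e]
      exact ha.mul hb
  obtain ⟨k, hk⟩ := h1
  have h2 : IsAlgebraic ℚ z := by
    have h3 : IsAlgebraic ℚ (z * (N : ℂ) ^ k) := (hk.tower_top (A := ℚ)).isAlgebraic
    have h4 : IsAlgebraic ℚ ((N : ℂ) ^ k) := ((hNi k).tower_top (A := ℚ)).isAlgebraic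
    have h5 : z = z * (N : ℂ) ^ k * ((N : ℂ) ^ k)⁻¹ := by
      rw [mul_assoc, mul_inv_cancel₀ (pow_ne_zero _ hN'), mul_one]
    rw [h5]
    exact h3.mul h4.inv
  obtain ⟨r, hr⟩ := fixed_rat h2 h
  have h3 : IsIntegral ℤ (r * (N : ℚ) ^ k) := by
    rw [← isIntegral_algebraMap_iff (B := ℂ) (algebraMap ℚ ℂ).injective]
    have h4 : algebraMap ℚ ℂ (r * (N : ℚ) ^ k) = z * (N : ℂ) ^ k := by
      rw [hr, map_mul, map_pow, map_natCast, eq_ratCast]
    rw [h4]
    exact hk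
  obtain ⟨a, ha⟩ := IsIntegrallyClosed.isIntegral_iff.1 h3
  refine (mem_Zinv hN).2 ⟨a, k, ?_⟩
  have h4 : (((algebraMap ℤ ℚ a : ℚ)) : ℂ) = ((r * (N : ℚ) ^ k : ℚ) : ℂ) := by rw [ha]
  push_cast at h4
  rw [hr, ← h4]
  simp

/-- the automorphisms of `ℂ` permute the primitive roots of unity -/
theorem sigma_zeta {n : ℕ} (hn : n ≠ 0) (σ : ℂ ≃+* ℂ) :
    ∃ u : ℕ, u.Coprime n ∧ σ (Complex.exp (2 * Real.pi * Complex.I / n)) =
      Complex.exp (2 * Real.pi * Complex.I / n) ^ u := by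
  have h1 := Complex.isPrimitiveRoot_exp n hn
  have h2 : IsPrimitiveRoot (σ (Complex.exp (2 * Real.pi * Complex.I / n))) n :=
    h1.map_of_injective σ.injective
  have : NeZero n := ⟨hn⟩
  obtain ⟨u, -, hu⟩ := h1.eq_pow_of_pow_eq_one h2.pow_eq_one
  refine ⟨u, ?_, hu.symm⟩
  rw [← hu] at h2
  exact (h1.pow_iff_coprime (Nat.pos_of_ne_zero hn) u).1 h2

end Pool.Agent.SS
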