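import Pool.Agent.Work.MP_a5099b_nt.A.Lat

/-!
# Module A.LatFun (S-M)

The lattice function of a modular form is well defined: if `m • tauLat τ = m' • tauLat τ'` then
`m τ = m'(aτ' + b)`, `m = m'(cτ' + d)` and conversely, so `(a b; c d)` is invertible over `ℤ`, of
determinant `1` (both `τ, τ'` in the upper half plane), `τ = γτ'`, `m = m' (cτ' + d)` and
`m^(-k) f(τ) = m'^(-k) (cτ'+d)^(-k) f(γτ') = m'^(-k) f(τ')` by slash invariance. So `latFun k f (m • tauLat τ)
= m^(-k) f τ` for all `m ≠ 0`, `τ`.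
-/

set_option autoImplicit false

namespace Pool.Agent.SS

open UpperHalfPlane Polynomial
open Pool.Agent.Work.CM (IsLat g2 g3 tauLat)
open scoped Pointwise MatrixGroups

private theorem mem_tauLat {τ : ℍ} {z : ℂ} : z ∈ tauLat τ ↔ ∃ a b : ℤ, (a : ℂ) * τ + b = z := by
  unfold Pool.Agent.Work.CM.tauLat
  rw [Submodule.mem_span_pair]
  simp [zsmul_eq_mul]

/-- comparison of two bases, one direction -/
private theorem coords {m m' : ℂ} (hm : m ≠ 0) {τ τ' : ℍ}
    (h : m • tauLat τ = m' • tauLat τ') :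
    ∃ a b c d : ℤ, m * τ = m' * (a * τ' + b) ∧ m = m' * (c * τ' + d) := by
  have key : ∀ z, z ∈ tauLat τ → ∃ a b : ℤ, m * z = m' * (a * τ' + b) := by
    intro z hz
    have h1 : m * z ∈ m • tauLat τ := (Pool.Agent.Work.CM.mem_smul_iff hm).2 hz
    rw [h, Submodule.mem_smul_pointwise_iff_exists] at h1
    obtain ⟨w, hw, hwz⟩ := h1
    obtain ⟨a, b, hab⟩ := mem_tauLat.1 hw
    refine ⟨a, b, ?_⟩
    rw [hab, ← hwz]
    rfl
  obtain ⟨a, b, h1⟩ := key τ (mem_tauLat.2 ⟨1, 0, by push_cast; ring⟩)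
  obtain ⟨c, d, h2⟩ := key 1 (mem_tauLat.2 ⟨0, 1, by push_cast; ring⟩)
  exact ⟨a, b, c, d, h1, by rw [← h2, mul_one]⟩

private theorem indep {τ : ℍ} {a b : ℤ} (h : (a : ℂ) * τ + b = 0) : a = 0 ∧ b = 0 := by
  have h1 := congrArg Complex.im h
  have h2 := congrArg Complex.re h
  simp only [Complex.add_im, Complex.mul_im, Complex.intCast_re, Complex.intCast_im, zero_mul,
    add_zero, Complex.zero_im] at h1
  have h3 : (a : ℝ) = 0 := by
    rcases mul_eq_zero.1 h1 with h4 | h4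
    · exact h4
    · exact absurd h4 τ.im_ne_zero
  have ha : a = 0 := by exact_mod_cast h3
  refine ⟨ha, ?_⟩
  rw [ha, Int.cast_zero, zero_mul, zero_add] at h
  exact_mod_cast h

private theorem well {k : ℤ} (f : ModularForm 𝒮ℒ k) {m m' : ℂ} (hm : m ≠ 0) (hm' : m' ≠ 0)
    {τ τ' : ℍ} (h : m • tauLat τ = m' • tauLat τ') :
    (m ^ k)⁻¹ * f τ = (m' ^ k)⁻¹ * f τ' := by
  obtain ⟨a, b, c, d, h1, h2⟩ := coords hm h
  obtain ⟨a', b', c', d', h1', h2'⟩ := coords hm' h.symm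
  -- `m' τ' = m (a' τ + b')`
  have e1 : (((a' * a + b' * c - 1 : ℤ) : ℂ)) * τ' + ((a' * b + b' * d : ℤ) : ℂ) = 0 := by
    apply mul_left_cancel₀ hm'
    push_cast
    linear_combination -h1' - (a' : ℂ) * h1 - (b' : ℂ) * h2
  have e2 : (((c' * a + d' * c : ℤ) : ℂ)) * τ' + ((c' * b + d' * d - 1 : ℤ) : ℂ) = 0 := by
    apply mul_left_cancel₀ hm'
    push_cast
    linear_combination -h2' - (c' : ℂ) * h1 - (d' : ℂ) * h2
  obtain ⟨i1, i2⟩ := indep e1
  obtain ⟨i3, i4⟩ := indep e2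
  have hdet : (a' * d' - b' * c') * (a * d - b * c) = 1 := by
    have j1 : a' * a + b' * c = 1 := by linarith
    have j4 : c' * b + d' * d = 1 := by linarith
    calc (a' * d' - b' * c') * (a * d - b * c)
        = (a' * a + b' * c) * (c' * b + d' * d) - (a' * b + b' * d) * (c' * a + d' * c) := by ring
      _ = 1 := by rw [j1, j4, i2, i3]; ring
  have hcd : (c : ℂ) * τ' + d ≠ 0 := by
    intro h0
    rw [h0, mul_zero] at h2
    exact hm h2
  have hτ : (τ : ℂ) * (c * τ' + d) = a * τ' + b := by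
    apply mul_left_cancel₀ hm'
    linear_combination h1 - (τ : ℂ) * h2
  have hpos : 0 < a * d - b * c := by
    have h3 : (τ : ℂ).im * Complex.normSq (c * τ' + d) = (a * d - b * c) * (τ' : ℂ).im := by
      have h4 : (τ : ℂ) * (Complex.normSq (c * τ' + d) : ℂ) =
          (a * τ' + b) * (starRingEnd ℂ) (c * τ' + d) := by
        rw [← hτ, mul_assoc, Complex.mul_conj]
      have h5 := congrArg Complex.im h4
      simp only [Complex.mul_im, Complex.ofReal_im, Complex.ofReal_re, mul_zero, zero_add,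
        Complex.add_im, Complex.add_re, Complex.mul_re, Complex.intCast_re, Complex.intCast_im,
        zero_mul, add_zero, sub_zero, map_add, map_mul, Complex.conj_re, Complex.conj_im] at h5
      rw [h5]
      simp
      ring
    have h6 : 0 < (τ : ℂ).im * Complex.normSq (c * τ' + d) :=
      mul_pos τ.im_pos (Complex.normSq_pos.2 hcd)
    rw [h3] at h6
    have h7 : (0 : ℝ) < (a * d - b * c : ℝ) := pos_of_mul_pos_left h6 τ'.im_pos.le
    exact_mod_cast h7
  have hone : a * d - b * c = 1 := by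
    rcases Int.isUnit_iff.1 (IsUnit.of_mul_eq_one_right _ hdet) with h3 | h3
    · exact h3
    · omega
  let γ : SL(2, ℤ) := ⟨!![a, b; c, d], by rw [Matrix.det_fin_two_of]; exact hone⟩
  have hden : UpperHalfPlane.denom γ τ' = c * τ' + d := ModularGroup.denom_apply γ τ'
  have hγ : γ • τ' = τ := by
    apply UpperHalfPlane.ext
    rw [UpperHalfPlane.coe_specialLinearGroup_apply]
    have h4 : (((algebraMap ℤ ℝ (γ 0 0) : ℝ) : ℂ) * τ' + ((algebraMap ℤ ℝ (γ 0 1) : ℝ) : ℂ)) /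
      (((algebraMap ℤ ℝ (γ 1 0) : ℝ) : ℂ) * τ' + ((algebraMap ℤ ℝ (γ 1 1) : ℝ) : ℂ)) =
        (a * τ' + b) / (c * τ' + d) := by
      simp [γ]
    rw [h4, ← hτ, mul_div_assoc, div_self hcd, mul_one]
  have h3 : f (γ • τ') = UpperHalfPlane.denom γ τ' ^ k * f τ' := by
    have hmem : (Matrix.SpecialLinearGroup.mapGL ℝ γ) ∈ 𝒮ℒ := ⟨γ, rfl⟩
    exact SlashInvariantForm.slash_action_eqn'' f hmem τ'
  rw [hγ, hden] at h3
  rw [h3, h2, mul_zpow, mul_inv]
  have h5 : ((c : ℂ) * τ' + d) ^ k ≠ 0 := zpow_ne_zero _ hcd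
  field_simp

private theorem latFun_smul {k : ℤ} (f : ModularForm 𝒮ℒ k) {m : ℂ} (hm : m ≠ 0) (τ : ℍ) :
    latFun k f (m • tauLat τ) = (m ^ k)⁻¹ * f τ := by
  have h : ∃ p : ℂ × ℍ, p.1 ≠ 0 ∧ m • tauLat τ = p.1 • tauLat p.2 := ⟨(m, τ), hm, rfl⟩
  unfold latFun
  rw [dif_pos h]
  exact (well f hm h.choose_spec.1 h.choose_spec.2).symm

theorem latFun_spec {k : ℤ} (f : ModularForm 𝒮ℒ k) :
    Wt k (latFun k f) ∧ ∀ τ, latFun k f (tauLat τ) = f τ := by
  constructor
  · intro L hL m hm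
    obtain ⟨n, hn, τ, rfl⟩ := exists_tau hL
    rw [smul_smul, latFun_smul f (mul_ne_zero hm hn), latFun_smul f hn, mul_zpow, mul_inv]
    have : m ^ k ≠ 0 := zpow_ne_zero _ hm
    field_simp
  · intro τ
    have h := latFun_smul f one_ne_zero τ
    rwa [one_smul, one_zpow, inv_one, one_mul] at h

end Pool.Agent.SS
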