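import Pool.Agent.Work.MP_a5099b_nt.A.Lat
import Pool.Agent.Work.MP_a5099b_nt.A.Lev

/-!
# Module A.Mf (M)

A homogeneous function of lattices with a holomorphic expansion is a modular form.
Put `f τ = S (tauLat τ)`. Slash invariance: `f (γτ) = S (tauLat (γτ)) = (cτ+d)^k S ((cτ+d) • tauLat (γτ))
= (cτ+d)^k f τ` (`Wt`, `tauLat_smul`), for elements of `𝒮ℒ` (images of `SL(2, ℤ)`), compare
`CuspForm.discriminantEquiv` in Mathlib (`LevelOne/DimensionFormula.lean`) for the format of the proof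
(`slash_action_eq'`, `bdd_at_cusps'` with `Subgroup.IsArithmetic.isCusp_iff_isCusp_SL2Z`,
`isBoundedAt_iff_forall_SL2Z`). Holomorphy: with `c m = a.coeff m` (`m : ℕ`),
`HasSum (c m * 𝕢 1 τ ^ m) (f τ)` for all `τ`, so the power series `∑ c m q^m` converges in the unit disc to
a holomorphic `G` and `f τ = G (𝕢 1 τ)`. Bounded: `isBoundedAtImInfty_of_hasSum_qExpansion`.
Coefficients: `UpperHalfPlane.qExpansion_coeff_unique` (or `ModularFormClass` version).
The converse `QX_of_modularForm`: `ModularFormClass.hasSum_qExpansion`.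
-/

set_option autoImplicit false

namespace Pool.Agent.SS

open UpperHalfPlane Polynomial
open Pool.Agent.Work.CM (IsLat g2 g3 tauLat)
open scoped Pointwise MatrixGroups

private theorem hasSum_nat {f : ℍ → ℂ} {a : LaurentSeries ℂ} (ha : QX 1 f a)
    (h0 : ∀ m : ℤ, m < 0 → a.coeff m = 0) (τ : ℍ) :
    HasSum (fun m : ℕ => a.coeff m • Function.Periodic.qParam (1 : ℝ) τ ^ m) (f τ) := by
  have h := ha τ
  rw [← (Nat.cast_injective (R := ℤ)).hasSum_iff] at h
  · simpa [Function.comp_def] using h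
  · intro x hx
    have hx0 : x < 0 := by
      by_contra hcon
      exact hx ⟨x.toNat, Int.toNat_of_nonneg (not_lt.1 hcon)⟩
    rw [h0 x hx0, zero_mul]

private theorem exists_tau_qParam {q : ℂ} (h0 : q ≠ 0) (h1 : ‖q‖ < 1) :
    ∃ τ : ℍ, Function.Periodic.qParam (1 : ℝ) τ = q :=
  ⟨⟨Function.Periodic.invQParam 1 q,
    Function.Periodic.im_invQParam_pos_of_norm_lt_one one_pos h1 h0⟩,
    Function.Periodic.qParam_right_inv one_ne_zero h0⟩

private theorem summ {f : ℍ → ℂ} {c : ℕ → ℂ}
    (hf : ∀ τ : ℍ, HasSum (fun m : ℕ => c m • Function.Periodic.qParam (1 : ℝ) τ ^ m) (f τ))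
    {q : ℂ} (h1 : ‖q‖ < 1) : Summable fun m : ℕ => c m * q ^ m := by
  rcases eq_or_ne q 0 with rfl | h0
  · refine summable_of_ne_finset_zero (s := {0}) fun m hm => ?_
    rw [Finset.mem_singleton] at hm
    rw [zero_pow hm, mul_zero]
  · obtain ⟨τ, hτ⟩ := exists_tau_qParam h0 h1
    have h := (hf τ).summable
    rw [hτ] at h
    exact h

private theorem radius_ge {c : ℕ → ℂ} (hc : ∀ q : ℂ, ‖q‖ < 1 → Summable fun m : ℕ => c m * q ^ m) :
    1 ≤ (FormalMultilinearSeries.ofScalars ℂ c).radius := by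
  refine le_of_forall_lt_imp_le_of_dense fun r hr => ?_
  lift r to NNReal using hr.ne_top
  apply FormalMultilinearSeries.le_radius_of_summable
  have h := (hc (r : ℂ) (by simpa using hr)).norm
  simpa [FormalMultilinearSeries.ofScalars_norm, norm_mul, norm_pow] using h

private theorem mdiff {f : ℍ → ℂ} {c : ℕ → ℂ}
    (hf : ∀ τ : ℍ, HasSum (fun m : ℕ => c m • Function.Periodic.qParam (1 : ℝ) τ ^ m) (f τ)) :
    MDifferentiable (modelWithCornersSelf ℂ ℂ) (modelWithCornersSelf ℂ ℂ) f := by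
  rw [mdifferentiable_iff]
  have hr := radius_ge fun q hq => summ hf hq
  have hG := (FormalMultilinearSeries.ofScalars ℂ c).hasFPowerSeriesOnBall
    (lt_of_lt_of_le one_pos hr)
  have hG1 := hG.mono one_pos hr
  have hd : DifferentiableOn ℂ ((FormalMultilinearSeries.ofScalars ℂ c).sum) (Metric.eball 0 1) :=
    hG1.differentiableOn
  have h1 : DifferentiableOn ℂ (fun z : ℂ => (FormalMultilinearSeries.ofScalars ℂ c).sum
      (Function.Periodic.qParam (1 : ℝ) z)) {z | 0 < z.im} := by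
    refine hd.comp Function.Periodic.differentiable_qParam.differentiableOn fun z hz => ?_
    have := Function.Periodic.norm_qParam_lt_one (h := 1) one_pos hz
    simpa [← ENNReal.coe_one] using this
  refine h1.congr fun z hz => ?_
  rw [Function.comp_apply, ofComplex_apply_of_im_pos hz]
  have h2 := hf ⟨z, hz⟩
  have h3 := FormalMultilinearSeries.ofScalars_sum_eq c (Function.Periodic.qParam (1 : ℝ) z)
  show _ = FormalMultilinearSeries.ofScalarsSum c (Function.Periodic.qParam (1 : ℝ) z)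
  rw [h3]
  exact h2.tsum_eq.symm

theorem exists_modularForm {k : ℤ} {S : Submodule ℤ ℂ → ℂ} (hS : Wt k S)
    {a : LaurentSeries ℂ} (ha : QX 1 (fun τ => S (tauLat τ)) a)
    (h0 : ∀ m : ℤ, m < 0 → a.coeff m = 0) :
    ∃ f : ModularForm 𝒮ℒ k, (∀ τ, f τ = S (tauLat τ)) ∧
      ∀ m : ℕ, (qExpansion 1 f).coeff m = a.coeff m := by
  have hsum := hasSum_nat ha h0
  have hslash : ∀ γ : SL(2, ℤ), SlashAction.map k γ (fun τ : ℍ => S (tauLat τ)) =
      fun τ => S (tauLat τ) := by
    intro γ
    funext τ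
    rw [ModularForm.SL_slash_apply]
    have h1 := hS (tauLat (γ • τ)) (Pool.Agent.Work.CM.tauLat_isLat _) (UpperHalfPlane.denom γ τ)
      (UpperHalfPlane.denom_ne_zero _ _)
    rw [tauLat_smul] at h1
    show S (tauLat (γ • τ)) * _ = S (tauLat τ)
    rw [← h1, zpow_neg]
    have h2 : UpperHalfPlane.denom γ τ ^ k ≠ 0 := zpow_ne_zero _ (UpperHalfPlane.denom_ne_zero _ _)
    field_simp
  let f : ModularForm 𝒮ℒ k :=
    { toFun := fun τ => S (tauLat τ)
      slash_action_eq' := fun _ ⟨γ, hγ⟩ => hγ ▸ hslash γ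
      holo' := mdiff hsum
      bdd_at_cusps' := by
        intro c hc
        rw [Subgroup.IsArithmetic.isCusp_iff_isCusp_SL2Z] at hc
        rw [OnePoint.isBoundedAt_iff_forall_SL2Z hc]
        intro γ _
        rw [hslash γ]
        exact isBoundedAtImInfty_of_hasSum_qExpansion one_pos hsum }
  refine ⟨f, fun τ => rfl, fun m => ?_⟩
  exact (ModularFormClass.qExpansion_coeff_unique one_pos one_mem_strictPeriods_SL
    (f := f) hsum m).symm

theorem QX_of_modularForm {k : ℤ} (f : ModularForm 𝒮ℒ k) :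
    QX 1 (fun τ => f τ) (HahnSeries.ofPowerSeries ℤ ℂ (qExpansion 1 f)) := by
  intro τ
  have h := ModularForm.hasSum_qExpansion f one_pos one_mem_strictPeriods_SL τ
  rw [← (Nat.cast_injective (R := ℤ)).hasSum_iff]
  · simpa [Function.comp_def, HahnSeries.ofPowerSeries_apply_coeff] using h
  · intro x hx
    have h0 : (HahnSeries.ofPowerSeries ℤ ℂ (qExpansion 1 f)).coeff x = 0 := by
      rw [HahnSeries.ofPowerSeries_apply]
      apply HahnSeries.embDomain_of_notMem_range
      rintro ⟨n, hn⟩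
      exact hx ⟨n, by simpa using hn⟩
    rw [h0, zero_mul]

end Pool.Agent.SS
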