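import Pool.Agent.Work.MP_a5099b_nt.A.Sec

/-!
# Module A.NmChar (M)

The norm form in characteristic `n` (`n` prime, coefficients in the prime field). First
`lexp n a = a ^ n` for `a : LaurentSeries (ZMod n)`: the map `a ↦ a^n` is a ring homomorphism (characteristic
`n`), and the coefficients satisfy `c^n = c`; for a series argue by truncation: modulo `t^N` for every `N`
(`a = P + t^N b`, `P` a Laurent polynomial, `a^n = P^n + t^(nN) b^n`), or cite `PowerSeries`/`HahnSeries`
Frobenius facts. Then `M = reg n a` satisfies `M^n = reg n (a^n) = reg n (lexp n a) = a • 1` (`reg_mul`,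
`reg_lexp`). Let `Kc` be an algebraic closure of `F_n((q))` and `α ∈ Kc` with `α^n = a`. Every root `β` of the
characteristic polynomial of `M` is an eigenvalue, so `β^n = a = α^n`, `β = α` (characteristic `n`). The
characteristic polynomial is monic of degree `n`, so it is `(X - α)^n = X^n - α^n = X^n - a`.
-/

set_option autoImplicit false

namespace Pool.Agent.SS

open UpperHalfPlane Polynomial
open Pool.Agent.Work.CM (IsLat g2 g3 tauLat)
open scoped Pointwise MatrixGroups

private theorem expand_eq_pow {n : ℕ} (hn : n.Prime) (f : PowerSeries (ZMod n)) :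
    PowerSeries.expand n hn.ne_zero f = f ^ n := by
  have : Fact n.Prime := ⟨hn⟩
  have h := MvPowerSeries.map_frobenius_expand (R := ZMod n) (σ := Unit) n hn.ne_zero (f := f)
  rw [ZMod.frobenius_zmod, MvPowerSeries.map_id] at h
  exact h

private theorem lexp_ofPowerSeries {n : ℕ} (hn : n ≠ 0) {A : Type*} [CommRing A]
    (f : PowerSeries A) : lexp n (HahnSeries.ofPowerSeries ℤ A f) =
      HahnSeries.ofPowerSeries ℤ A (PowerSeries.expand n hn f) := by
  have hn0 : (0 : ℤ) < n := by exact_mod_cast Nat.pos_of_ne_zero hn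
  ext m
  by_cases hm : (n : ℤ) ∣ m
  · obtain ⟨k, rfl⟩ := hm
    rw [lexp_coeff_mul hn, PowerSeries.coeff_coe, PowerSeries.coeff_coe]
    by_cases hk : k < 0
    · rw [if_pos hk, if_pos (by nlinarith)]
    · rw [if_neg hk, if_neg (by push Not at hk ⊢; positivity), Int.natAbs_mul, Int.natAbs_natCast,
        PowerSeries.coeff_expand_mul]
  · rw [lexp_coeff_of_not_dvd hn _ hm, PowerSeries.coeff_coe]
    by_cases hk : m < 0
    · rw [if_pos hk]
    · rw [if_neg hk, PowerSeries.coeff_expand_of_not_dvd]
      intro h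
      exact hm (Int.natCast_dvd.2 h)

private theorem lexp_single {n : ℕ} (hn : n ≠ 0) {A : Type*} [CommRing A] (k : ℤ) :
    lexp n (HahnSeries.single k (1 : A)) = HahnSeries.single (n * k) (1 : A) := by
  have hn0 : (n : ℤ) ≠ 0 := by exact_mod_cast hn
  ext m
  by_cases hm : (n : ℤ) ∣ m
  · obtain ⟨l, rfl⟩ := hm
    rw [lexp_coeff_mul hn]
    by_cases hl : l = k
    · subst hl
      simp
    · rw [HahnSeries.coeff_single_of_ne hl, HahnSeries.coeff_single_of_ne]
      intro h
      exact hl (mul_left_cancel₀ hn0 h)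
  · rw [lexp_coeff_of_not_dvd hn _ hm, HahnSeries.coeff_single_of_ne]
    rintro rfl
    exact hm (dvd_mul_right _ _)

theorem lexp_eq_pow {n : ℕ} (hn : n.Prime) (a : LaurentSeries (ZMod n)) : lexp n a = a ^ n := by
  have h := LaurentSeries.single_order_mul_powerSeriesPart a
  rw [← h, map_mul, mul_pow, lexp_single hn.ne_zero, lexp_ofPowerSeries hn.ne_zero,
    expand_eq_pow hn, map_pow, HahnSeries.single_pow, one_pow, nsmul_eq_mul]

theorem Nm_char {n : ℕ} (hn : n.Prime) (a : LaurentSeries (ZMod n)) :
    Nm n a = X ^ n - C a := by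
  have hF : Fact n.Prime := ⟨hn⟩
  have hne : NeZero n := ⟨hn.ne_zero⟩
  have hch : CharP (LaurentSeries (ZMod n)) n :=
    charP_of_injective_ringHom (f := (HahnSeries.C : ZMod n →+* LaurentSeries (ZMod n)))
      HahnSeries.C_injective n
  set Kc := AlgebraicClosure (LaurentSeries (ZMod n)) with hKc
  have hchKc : CharP Kc n := charP_of_injective_algebraMap
    (algebraMap (LaurentSeries (ZMod n)) Kc).injective n
  -- the powers of the matrix
  have hone : reg n (1 : LaurentSeries (ZMod n)) = 1 := by
    have h := reg_lexp hn.ne_zero (1 : LaurentSeries (ZMod n))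
    rwa [map_one, map_one] at h
  have hpow : ∀ k : ℕ, reg n (a ^ k) = (reg n a) ^ k := by
    intro k
    induction k with
    | zero => rw [pow_zero, pow_zero, hone]
    | succ k ih => rw [pow_succ, reg_mul hn.ne_zero, ih, pow_succ]
  have hM : (reg n a) ^ n = Matrix.scalar (Fin n) a := by
    rw [← hpow, ← lexp_eq_pow hn, reg_lexp hn.ne_zero]
  obtain ⟨α, hα⟩ := IsAlgClosed.exists_pow_nat_eq (algebraMap (LaurentSeries (ZMod n)) Kc a)
    hn.pos
  set φ := algebraMap (LaurentSeries (ZMod n)) Kc with hφ
  set M' : Matrix (Fin n) (Fin n) Kc := (reg n a).map φ with hM'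
  have hM'n : M' ^ n = Matrix.scalar (Fin n) (α ^ n) := by
    rw [hα, hM', ← Matrix.map_pow, hM]
    ext i j
    simp [Matrix.scalar_apply, Matrix.diagonal_apply]
    split_ifs <;> simp
  have hnil : IsNilpotent (M' - Matrix.scalar (Fin n) α) := by
    refine ⟨n, ?_⟩
    have hc : Commute M' (Matrix.scalar (Fin n) α) := (Matrix.scalar_commute α (fun _ => Commute.all _ _) M').symm
    rw [sub_pow_char_of_commute n hc, hM'n, map_pow, sub_self]
  have hcp : (M' - Matrix.scalar (Fin n) α).charpoly = X ^ n := by
    have h := (Matrix.isNilpotent_charpoly_sub_pow_of_isNilpotent hnil).eq_zero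
    rw [Fintype.card_fin] at h
    exact sub_eq_zero.1 h
  have hcp2 : M'.charpoly = (X - C α) ^ n := by
    refine Polynomial.funext fun t => ?_
    have h1 := Matrix.eval_charpoly (M' - Matrix.scalar (Fin n) α) (t - α)
    rw [hcp, eval_pow, eval_X] at h1
    rw [Matrix.eval_charpoly, eval_pow, eval_sub, eval_X, eval_C, h1]
    congr 1
    rw [map_sub]
    abel
  have hcp3 : (X - C α : Kc[X]) ^ n = X ^ n - C (φ a) := by
    rw [sub_pow_char, ← C_pow, hα]
  have h : (Nm n a).map φ = (X ^ n - C a).map φ := by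
    unfold Nm
    rw [← Matrix.charpoly_map]
    rw [show (reg n a).map φ = M' from rfl, hcp2, hcp3]
    simp
  exact Polynomial.map_injective φ φ.injective h

end Pool.Agent.SS
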