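import Pool.Agent.Work.MP_a5099b_nt.A.NmProd
import Pool.Agent.Work.MP_a5099b_nt.A.Lev

/-!
# Module A.NmLev (S-M)

Values of the norm form. `lev (lexp n c) t = lev c (t^n)` and `lev (lsc z a) t = lev a (z t)` for `‖z‖ = 1`
(termwise; `Cv` is preserved). The convergent series form a subring of `ℂ((t))` on which `lev · t` is a ring
homomorphism; apply it to the coefficient `i` of `Nm_prod`.
-/

set_option autoImplicit false

namespace Pool.Agent.SS

open UpperHalfPlane Polynomial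
open Pool.Agent.Work.CM (IsLat g2 g3 tauLat)
open scoped Pointwise MatrixGroups

theorem Cv.lexp {n : ℕ} (hn : n ≠ 0) {a : LaurentSeries ℂ} (ha : Cv a) :
    Cv (Pool.Agent.SS.lexp n a) := by
  intro t h0 h1
  have hinj : Function.Injective (fun k : ℤ => (n : ℤ) * k) := fun x y h =>
    mul_left_cancel₀ (by exact_mod_cast hn) h
  rw [← hinj.summable_iff]
  · have h2 := ha (t ^ n) (pow_ne_zero n h0)
      (by rw [norm_pow]; exact pow_lt_one₀ (norm_nonneg _) h1 hn)
    refine h2.congr fun k => ?_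
    show a.coeff k * (t ^ n) ^ k = (Pool.Agent.SS.lexp n a).coeff (n * k) * t ^ ((n : ℤ) * k)
    rw [lexp_coeff_mul hn, zpow_mul, zpow_natCast]
  · intro m hm
    rw [lexp_coeff_of_not_dvd hn, zero_mul]
    rintro ⟨k, hk⟩
    exact hm ⟨k, hk.symm⟩

theorem lev_lexp {n : ℕ} (hn : n ≠ 0) (a : LaurentSeries ℂ) (t : ℂ) :
    lev (lexp n a) t = lev a (t ^ n) := by
  have hinj : Function.Injective (fun k : ℤ => (n : ℤ) * k) := fun x y h =>
    mul_left_cancel₀ (by exact_mod_cast hn) h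
  rw [lev, lev, ← hinj.tsum_eq]
  · refine tsum_congr fun k => ?_
    rw [lexp_coeff_mul hn, zpow_mul, zpow_natCast]
  · intro m hm
    by_contra h
    apply hm
    show (lexp n a).coeff m * t ^ m = 0
    rw [lexp_coeff_of_not_dvd hn, zero_mul]
    rintro ⟨k, hk⟩
    exact h ⟨k, hk.symm⟩

theorem Cv.lsc {z : ℂ} (hz : ‖z‖ = 1) {a : LaurentSeries ℂ} (ha : Cv a) :
    Cv (Pool.Agent.SS.lsc z a) := by
  intro t h0 h1
  have hz0 : z ≠ 0 := by
    rintro rfl
    rw [norm_zero] at hz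
    exact zero_ne_one hz
  have h2 := ha (z * t) (mul_ne_zero hz0 h0) (by rw [norm_mul, hz, one_mul]; exact h1)
  refine h2.congr fun k => ?_
  show a.coeff k * (z * t) ^ k = z ^ k * a.coeff k * t ^ k
  rw [mul_zpow]
  ring

theorem lev_lsc (z : ℂ) (a : LaurentSeries ℂ) (t : ℂ) : lev (lsc z a) t = lev a (z * t) := by
  rw [lev, lev]
  refine tsum_congr fun k => ?_
  show z ^ k * a.coeff k * t ^ k = a.coeff k * (z * t) ^ k
  rw [mul_zpow]
  ring

private theorem nmlev_cv_zero : Cv 0 := by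
  have h := Cv.single 0 0
  rwa [HahnSeries.single_eq_zero] at h

private theorem nmlev_cv_one : Cv 1 := Cv.single 0 1

/-- the subring of the convergent series -/
private noncomputable def cvR : Subring (LaurentSeries ℂ) where
  carrier := {a | Cv a}
  mul_mem' := fun ha hb => Cv.mul ha hb
  one_mem' := nmlev_cv_one
  add_mem' := fun ha hb => Cv.add ha hb
  zero_mem' := nmlev_cv_zero
  neg_mem' := fun ha => Cv.neg ha

/-- the value as a ring homomorphism -/
private noncomputable def levR {t : ℂ} (h0 : t ≠ 0) (h1 : ‖t‖ < 1) : cvR →+* ℂ where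
  toFun a := lev (a : LaurentSeries ℂ) t
  map_one' := by
    have h := lev_single 0 1 t
    rw [zpow_zero, mul_one] at h
    exact h
  map_mul' a b := lev_mul a.2 b.2 h0 h1
  map_zero' := by
    have h := lev_single 0 0 t
    rw [zero_mul, HahnSeries.single_eq_zero] at h
    exact h
  map_add' a b := lev_add a.2 b.2 h0 h1

theorem Nm_lev {n : ℕ} (hn : n ≠ 0) {a : LaurentSeries ℂ} (ha : Cv a) {t : ℂ} (h0 : t ≠ 0)
    (h1 : ‖t‖ < 1) {ζ : ℂ} (hζ : IsPrimitiveRoot ζ n) (i : ℕ) :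
    lev ((Nm n a).coeff i) (t ^ n) =
      (∏ b ∈ Finset.range n, (X - C (lev a (ζ ^ b * t)))).coeff i := by
  have hz : ‖ζ‖ = 1 := Complex.norm_eq_one_of_pow_eq_one hζ.pow_eq_one hn
  have hzb : ∀ b : ℕ, ‖ζ ^ b‖ = 1 := fun b => by rw [norm_pow, hz, one_pow]
  rw [← lev_lexp hn, ← coeff_map, Nm_prod hn hζ]
  have e1 : (∏ b ∈ Finset.range n, (X - C (lsc (ζ ^ b) a)) : (LaurentSeries ℂ)[X]) =
      (∏ b ∈ Finset.range n, (X - C (⟨lsc (ζ ^ b) a, Cv.lsc (hzb b) ha⟩ : cvR))).map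
        cvR.subtype := by
    rw [Polynomial.map_prod]
    refine Finset.prod_congr rfl fun b _ => ?_
    rw [Polynomial.map_sub, map_X, map_C]
    rfl
  have e2 : (∏ b ∈ Finset.range n, (X - C (lev a (ζ ^ b * t))) : ℂ[X]) =
      (∏ b ∈ Finset.range n, (X - C (⟨lsc (ζ ^ b) a, Cv.lsc (hzb b) ha⟩ : cvR))).map
        (levR h0 h1) := by
    rw [Polynomial.map_prod]
    refine Finset.prod_congr rfl fun b _ => ?_
    rw [Polynomial.map_sub, map_X, map_C]
    congr 2
    exact (lev_lsc (ζ ^ b) a t).symm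
  rw [e1, e2, coeff_map, coeff_map]
  rfl

end Pool.Agent.SS
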