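import Pool.Agent.Work.MP_a5099b_nt.A.Sec

/-!
# Module A.NmProd (M)

The factorisation of the norm form over a field with a primitive `n`-th root of unity. `lsc z` is
multiplicative (coefficients: `z^m (ab)_m = ∑ z^i a_i z^j b_j`, the supports of `lsc z a` and `a` agree for
`z ≠ 0`). Let `V` be the `n × n` matrix over `K((t))` with `V b i = single i (ζ^(b i)) = (single 1 (ζ^b))^i`
(a Vandermonde matrix, `Matrix.vandermonde`). Then
`V * (reg n a).map (lexp n) = diagonal (lsc (ζ^b) a) * V`: the entry `(b, j)` of the left side is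
`∑_i single i (ζ^(bi)) * lexp n (sec n (i - j) a)`, whose coefficient at `t^k`, `k = nm + i`, `0 ≤ i < n`, is
`ζ^(bi) a_(nm+i-j) = ζ^(bk) a_(k-j)` (as `ζ^n = 1`), and the right side has the coefficient
`ζ^(b(k-j)) a_(k-j) ζ^(bj)`. `det V ≠ 0` (`Matrix.det_vandermonde_ne_zero_iff`: the `ζ^b t` are distinct).
So `(reg n a).map (lexp n)` is conjugate to the diagonal matrix; `Matrix.charpoly_map`,
`Matrix.charpoly_units_conj`, `Matrix.charpoly_diagonal` or `charpoly_of_upperTriangular`.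
-/

set_option autoImplicit false

namespace Pool.Agent.SS

open UpperHalfPlane Polynomial
open Pool.Agent.Work.CM (IsLat g2 g3 tauLat)
open scoped Pointwise MatrixGroups

theorem lsc_one {K : Type*} [Field K] {z : K} (hz : z ≠ 0) :
    lsc z (1 : LaurentSeries K) = 1 := by
  ext m
  show z ^ m * (1 : LaurentSeries K).coeff m = _
  rcases eq_or_ne m 0 with rfl | h
  · simp
  · simp [HahnSeries.coeff_one, h]

theorem lsc_add {K : Type*} [Field K] (z : K) (a b : LaurentSeries K) :
    lsc z (a + b) = lsc z a + lsc z b := by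
  ext m
  show z ^ m * (a + b).coeff m = z ^ m * a.coeff m + z ^ m * b.coeff m
  rw [HahnSeries.coeff_add, mul_add]

theorem lsc_mul {K : Type*} [Field K] {z : K} (hz : z ≠ 0) (a b : LaurentSeries K) :
    lsc z (a * b) = lsc z a * lsc z b := by
  have hs : ∀ c : LaurentSeries K, (lsc z c).support = c.support := by
    intro c
    ext m
    show z ^ m * c.coeff m ≠ 0 ↔ c.coeff m ≠ 0
    rw [mul_ne_zero_iff]
    exact ⟨fun h => h.2, fun h => ⟨zpow_ne_zero _ hz, h⟩⟩
  ext m
  show z ^ m * (a * b).coeff m = _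
  rw [HahnSeries.coeff_mul, HahnSeries.coeff_mul, Finset.mul_sum]
  apply Finset.sum_congr
  · ext ij
    rw [Finset.mem_antidiagonal, Finset.mem_antidiagonal, hs, hs]
  · intro ij hij
    rw [Finset.mem_antidiagonal] at hij
    show z ^ m * (a.coeff ij.1 * b.coeff ij.2) = z ^ ij.1 * a.coeff ij.1 * (z ^ ij.2 * b.coeff ij.2)
    rw [← hij.2.2, zpow_add₀ hz]
    ring

private theorem nm_sec_coeff {A : Type*} [CommRing A] {n : ℕ} (hn : n ≠ 0) (r : ℤ)
    (a : LaurentSeries A) (m : ℤ) : (sec n r a).coeff m = a.coeff (n * m + r) := by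
  rw [sec, dif_neg hn]
  rfl

private theorem nm_lexp_inj {n : ℕ} (hn : n ≠ 0) :
    Function.Injective (AddMonoidHom.mulLeft (n : ℤ)) := by
  intro a b h
  have h' : (n : ℤ) * a = (n : ℤ) * b := h
  exact mul_left_cancel₀ (by exact_mod_cast hn) h'

private theorem nm_coeff_mul {A : Type*} [CommRing A] {n : ℕ} (hn : n ≠ 0)
    (a : LaurentSeries A) (m : ℤ) : (lexp n a).coeff (n * m) = a.coeff m := by
  rw [lexp, dif_neg hn]
  exact HahnSeries.embDomain_coeff (f := (⟨⟨AddMonoidHom.mulLeft (n : ℤ), nm_lexp_inj hn⟩, by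
    intro a b
    have h0 : (0 : ℤ) < n := by exact_mod_cast Nat.pos_of_ne_zero hn
    exact mul_le_mul_iff_right₀ h0⟩ : ℤ ↪o ℤ))

private theorem nm_coeff_not_dvd {A : Type*} [CommRing A] {n : ℕ} (hn : n ≠ 0)
    (a : LaurentSeries A) {m : ℤ} (hm : ¬(n : ℤ) ∣ m) : (lexp n a).coeff m = 0 := by
  rw [lexp, dif_neg hn]
  refine HahnSeries.embDomain_of_notMem_range (f := (⟨⟨AddMonoidHom.mulLeft (n : ℤ),
    nm_lexp_inj hn⟩, by
    intro a b
    have h0 : (0 : ℤ) < n := by exact_mod_cast Nat.pos_of_ne_zero hn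
    exact mul_le_mul_iff_right₀ h0⟩ : ℤ ↪o ℤ)) ?_
  rintro ⟨c, hc⟩
  exact hm ⟨c, hc.symm⟩

theorem Nm_prod {K : Type*} [Field K] {n : ℕ} (hn : n ≠ 0) {ζ : K} (hζ : IsPrimitiveRoot ζ n)
    (a : LaurentSeries K) :
    (Nm n a).map (lexp n) = ∏ b ∈ Finset.range n, (X - C (lsc (ζ ^ b) a)) := by
  have hζ0 : ζ ≠ 0 := hζ.ne_zero hn
  set v : Fin n → LaurentSeries K := fun b => HahnSeries.single 1 (ζ ^ (b : ℕ)) with hv
  set V : Matrix (Fin n) (Fin n) (LaurentSeries K) := Matrix.vandermonde v with hV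
  set d : Fin n → LaurentSeries K := fun b => lsc (ζ ^ (b : ℕ)) a with hd
  have hvinj : Function.Injective v := by
    intro b c h
    have h1 : ζ ^ (b : ℕ) = ζ ^ (c : ℕ) := by
      have h2 := congrArg (fun x : LaurentSeries K => x.coeff 1) h
      simpa [hv] using h2
    exact Fin.ext (hζ.pow_inj b.2 c.2 h1)
  have hdet : V.det ≠ 0 := Matrix.det_vandermonde_ne_zero_iff.2 hvinj
  have hcomm : V * (reg n a).map (lexp n) = Matrix.diagonal d * V := by
    refine Matrix.ext fun b j => ?_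
    rw [Matrix.diagonal_mul, Matrix.mul_apply]
    ext k
    have hzb : ζ ^ (b : ℕ) ≠ 0 := pow_ne_zero _ hζ0
    have hzn : (ζ ^ (b : ℕ)) ^ n = 1 := by
      rw [← pow_mul, mul_comm, pow_mul, hζ.pow_eq_one, one_pow]
    have hright : (d b * V b j).coeff k = (ζ ^ (b : ℕ)) ^ k * a.coeff (k - (j : ℤ)) := by
      rw [hV, Matrix.vandermonde_apply, hv, HahnSeries.single_pow, HahnSeries.coeff_mul_single]
      have h1 : ((j : ℕ) • (1 : ℤ)) = (j : ℤ) := by simp
      rw [h1]
      show (ζ ^ (b : ℕ)) ^ (k - (j : ℤ)) * a.coeff (k - (j : ℤ)) * (ζ ^ (b : ℕ)) ^ (j : ℕ) = _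
      rw [zpow_sub₀ hzb, zpow_natCast]
      field_simp
    rw [hright]
    have hnz : (n : ℤ) ≠ 0 := by exact_mod_cast hn
    have hnp : (0 : ℤ) < n := by exact_mod_cast Nat.pos_of_ne_zero hn
    have hi0 : 0 ≤ k % n := Int.emod_nonneg _ hnz
    have hi1 : k % n < n := Int.emod_lt_of_pos _ hnp
    obtain ⟨i0, hi0'⟩ : ∃ i0 : Fin n, (i0 : ℤ) = k % n :=
      ⟨⟨(k % n).toNat, by omega⟩, by simp [hi0]⟩
    have hkd : k = n * (k / n) + (i0 : ℤ) := by
      rw [hi0']
      exact (Int.mul_ediv_add_emod k n).symm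
    have hterm : ∀ i : Fin n, (V b i * ((reg n a).map (lexp n)) i j).coeff k =
        if i = i0 then (ζ ^ (b : ℕ)) ^ k * a.coeff (k - (j : ℤ)) else 0 := by
      intro i
      rw [hV, Matrix.vandermonde_apply, hv, HahnSeries.single_pow, HahnSeries.coeff_single_mul]
      have h1 : ((i : ℕ) • (1 : ℤ)) = (i : ℤ) := by simp
      rw [h1, Matrix.map_apply]
      split_ifs with hi
      · subst hi
        have h2 : k - (i : ℤ) = n * (k / n) := by omega
        rw [h2, nm_coeff_mul hn, reg, nm_sec_coeff hn]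
        have h3 : (n : ℤ) * (k / n) + ((i : ℤ) - (j : ℤ)) = k - (j : ℤ) := by omega
        rw [h3]
        congr 1
        conv_rhs => rw [hkd]
        rw [zpow_add₀ hzb, zpow_mul, zpow_natCast, zpow_natCast, hzn, one_zpow, one_mul]
      · rw [nm_coeff_not_dvd hn, mul_zero]
        intro h2
        apply hi
        apply Fin.ext
        have h3 := i.2
        have h4 := i0.2
        have h5 : (n : ℤ) ∣ (i0 : ℤ) - (i : ℤ) := by
          have h6 : (i0 : ℤ) - (i : ℤ) = (k - (i : ℤ)) - n * (k / n) := by omega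
          rw [h6]
          exact dvd_sub h2 (dvd_mul_right _ _)
        obtain ⟨c, hc⟩ := h5
        have hc0 : c = 0 := by
          by_contra hc0
          rcases lt_or_gt_of_ne hc0 with h | h
          · nlinarith
          · nlinarith
        subst hc0
        omega
    rw [HahnSeries.coeff_sum, Finset.sum_congr rfl fun i _ => hterm i]
    simp
  have hunit : IsUnit V := (Matrix.isUnit_iff_isUnit_det V).2 (isUnit_iff_ne_zero.2 hdet)
  obtain ⟨U, hU⟩ := hunit
  have h1 : (reg n a).map (lexp n) = (U⁻¹).val * Matrix.diagonal d * U.val := by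
    rw [Matrix.mul_assoc, hU, ← hcomm, ← hU, ← Matrix.mul_assoc, Units.inv_mul, Matrix.one_mul]
  have h2 : ((reg n a).map (lexp n)).charpoly = ∏ i, (X - C (d i)) := by
    rw [h1, Matrix.coe_units_inv, Matrix.charpoly_units_conj', Matrix.charpoly_diagonal]
  have h3 : (Nm n a).map (lexp n) = ((reg n a).map (lexp n)).charpoly := by
    rw [Nm, Matrix.charpoly_map]
  rw [h3, h2, ← Fin.prod_univ_eq_prod_range (fun b => X - C (lsc (ζ ^ b) a)) n]

end Pool.Agent.SS
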