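import Pool.Agent.Work.MP_a5099b_nt.A.Lev

/-!
# Module A.Sec (M)

The formal operations. `reg_mul`: `(reg a * reg b)_(i,j) = ∑_k sec(i-k) a * sec(k-j) b`; coefficient at `q^m`:
`∑_k ∑_(u+v=m) a_(nu+i-k) b_(nv+k-j)`, `0 ≤ k < n`: the pairs `(x, y) = (nu+i-k, nv+k-j)` are exactly the
pairs with `x + y = nm + i - j` (given `x`, `k` and `u` are determined: `i - x ≡ k mod n`), so this is
`(ab)_(nm+i-j)`. (All sums are finite sums over the supports; one can also argue with
`ofSuppBddBelow` after a shift, or use that `A((t))` is free over `A((t^n))`.) `reg_lexp`: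
`(reg (lexp n c))_(i,j)` has coefficients `(lexp n c)_(nm+i-j)`, which is `c_m` for `i = j` and `0` for `i ≠ j` (as
`|i - j| < n`). `Nm_map`: `Matrix.charpoly_map`. `Nm_InR`: the series with coefficients in `R` form a subring, the
coefficients of a characteristic polynomial are polynomials in the entries
(`Matrix.charpoly` commutes with the map from matrices over the subring). `Nm_Cv`: the same with the
subring of the convergent series; `Cv (sec n r a)`: `∑ a_(nm+r) s^m` with `s = t^n`: it is `t^(-r)` times a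
subfamily of the summable family `a_k t^k`.
-/

set_option autoImplicit false

namespace Pool.Agent.SS

open UpperHalfPlane Polynomial
open Pool.Agent.Work.CM (IsLat g2 g3 tauLat)
open scoped Pointwise MatrixGroups

section
variable {A B : Type*} [CommRing A] [CommRing B]

theorem lexp_coeff_mul {n : ℕ} (hn : n ≠ 0) (a : LaurentSeries A) (m : ℤ) :
    (lexp n a).coeff (n * m) = a.coeff m := by
  rw [lexp, dif_neg hn]
  exact HahnSeries.embDomain_mk_coeff (f := fun x : ℤ => (n : ℤ) * x) _ _

theorem lexp_coeff_of_not_dvd {n : ℕ} (hn : n ≠ 0) (a : LaurentSeries A) {m : ℤ}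
    (hm : ¬(n : ℤ) ∣ m) : (lexp n a).coeff m = 0 := by
  rw [lexp, dif_neg hn]
  refine HahnSeries.embDomain_of_notMem_range ?_
  rintro ⟨x, hx⟩
  exact hm ⟨x, hx.symm⟩

theorem lexp_injective {n : ℕ} (hn : n ≠ 0) :
    Function.Injective (lexp n : LaurentSeries A →+* LaurentSeries A) := by
  intro a b h
  ext m
  rw [← lexp_coeff_mul hn a m, ← lexp_coeff_mul hn b m, h]

theorem sec_coeff {n : ℕ} (hn : n ≠ 0) (r : ℤ) (a : LaurentSeries A) (m : ℤ) :
    (sec n r a).coeff m = a.coeff (n * m + r) := by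
  rw [sec, dif_neg hn, HahnSeries.coeff_ofSuppBddBelow]

theorem reg_mul {n : ℕ} (hn : n ≠ 0) (a b : LaurentSeries A) :
    reg n (a * b) = reg n a * reg n b := by
  have h0 : (0 : ℤ) < n := by exact_mod_cast Nat.pos_of_ne_zero hn
  ext i j m
  rw [Matrix.mul_apply]
  simp only [reg]
  rw [sec_coeff hn, HahnSeries.coeff_sum, HahnSeries.coeff_mul]
  simp only [HahnSeries.coeff_mul, sec_coeff hn]
  rw [Finset.sum_sigma']
  symm
  refine Finset.sum_bij (fun p _ => ((n : ℤ) * p.2.1 + ((i : ℤ) - (p.1 : ℤ)),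
    (n : ℤ) * p.2.2 + ((p.1 : ℤ) - (j : ℤ)))) ?_ ?_ ?_ ?_
  · rintro ⟨k, u, v⟩ hp
    simp only [Finset.mem_sigma, Finset.mem_univ, true_and, Finset.mem_antidiagonal,
      HahnSeries.mem_support, sec_coeff hn] at hp ⊢
    refine ⟨hp.1, hp.2.1, ?_⟩
    rw [← hp.2.2]
    ring
  · rintro ⟨k, u, v⟩ hp ⟨k', u', v'⟩ hp' h
    simp only [Prod.mk.injEq] at h
    obtain ⟨h1, h2⟩ := h
    have hk : (k : ℤ) < n := by exact_mod_cast k.2
    have hk' : (k' : ℤ) < n := by exact_mod_cast k'.2
    have hk0 : (0 : ℤ) ≤ k := by positivity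
    have hk0' : (0 : ℤ) ≤ k' := by positivity
    have hkk : (k : ℤ) = k' := by
      have h3 : (k : ℤ) - k' = n * (u - u') := by linarith
      have h4 : u - u' = 0 := by
        by_contra hne
        rcases lt_or_gt_of_ne hne with h5 | h5
        · have h6 : u - u' ≤ -1 := by omega
          nlinarith
        · have h6 : 1 ≤ u - u' := by omega
          nlinarith
      rw [h4] at h3
      linarith
    have hkk' : k = k' := by
      apply Fin.ext
      exact_mod_cast hkk
    subst hkk'
    have hu : u = u' := by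
      have : (n : ℤ) * u = n * u' := by linarith
      exact mul_left_cancel₀ h0.ne' this
    have hv : v = v' := by
      have : (n : ℤ) * v = n * v' := by linarith
      exact mul_left_cancel₀ h0.ne' this
    rw [hu, hv]
  · rintro ⟨x, y⟩ hxy
    simp only [Finset.mem_antidiagonal, HahnSeries.mem_support] at hxy
    obtain ⟨hx, hy, hs⟩ := hxy
    have hk1 : 0 ≤ ((i : ℤ) - x) % n := Int.emod_nonneg _ h0.ne'
    have hk2 : ((i : ℤ) - x) % n < n := Int.emod_lt_of_pos _ h0
    have hk3 := Int.emod_add_mul_ediv ((i : ℤ) - x) n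
    set q := ((i : ℤ) - x) / n
    set r := ((i : ℤ) - x) % n
    obtain ⟨k, hk⟩ : ∃ k : Fin n, (k : ℤ) = r := ⟨⟨r.toNat, by omega⟩, by simp [hk1]⟩
    have e1 : (n : ℤ) * (-q) + ((i : ℤ) - (k : ℤ)) = x := by rw [hk]; linarith
    have e2 : (n : ℤ) * (m + q) + ((k : ℤ) - (j : ℤ)) = y := by
      have : y = n * m + (i - j) - x := by linarith
      rw [this, hk]; linarith
    refine ⟨⟨k, -q, m + q⟩, ?_, ?_⟩
    · simp only [Finset.mem_sigma, Finset.mem_univ, true_and, Finset.mem_antidiagonal,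
        HahnSeries.mem_support, sec_coeff hn]
      rw [e1, e2]
      exact ⟨hx, hy, by ring⟩
    · simp only [e1, e2]
  · rintro ⟨k, u, v⟩ hp
    rfl

theorem reg_lexp {n : ℕ} (hn : n ≠ 0) (c : LaurentSeries A) :
    reg n (lexp n c) = Matrix.scalar (Fin n) c := by
  have h0 : (0 : ℤ) < n := by exact_mod_cast Nat.pos_of_ne_zero hn
  ext i j m
  rw [Matrix.scalar_apply]
  simp only [reg]
  rw [sec_coeff hn]
  by_cases hij : i = j
  · subst hij
    rw [Matrix.diagonal_apply_eq, sub_self, add_zero, lexp_coeff_mul hn]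
  · rw [Matrix.diagonal_apply_ne _ hij, lexp_coeff_of_not_dvd hn, HahnSeries.coeff_zero]
    intro hd
    have hd' : (n : ℤ) ∣ (i : ℤ) - j := (dvd_add_right (dvd_mul_right _ _)).mp hd
    apply hij
    apply Fin.ext
    have hi : (i : ℤ) < n := by exact_mod_cast i.2
    have hj : (j : ℤ) < n := by exact_mod_cast j.2
    have h1 : |(i : ℤ) - j| < n := by
      rw [abs_lt]; constructor <;> omega
    have h2 := Int.eq_zero_of_abs_lt_dvd hd' h1
    omega

theorem Nm_monic (n : ℕ) (a : LaurentSeries A) [Nontrivial A] : (Nm n a).Monic ∧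
    (Nm n a).natDegree = n := by
  refine ⟨Matrix.charpoly_monic _, ?_⟩
  rw [Nm, Matrix.charpoly_natDegree_eq_dim, Fintype.card_fin]

theorem Nm_map (f : A →+* B) (n : ℕ) (a : LaurentSeries A) :
    (Nm n a).map (lmap f) = Nm n (lmap f a) := by
  rw [Nm, Nm, ← Matrix.charpoly_map]
  congr 1
  ext i j m
  by_cases hn : n = 0
  · subst hn
    exact i.elim0
  · rw [Matrix.map_apply]
    change f ((sec n ((i : ℤ) - (j : ℤ)) a).coeff m) =
      (sec n ((i : ℤ) - (j : ℤ)) (lmap f a)).coeff m
    rw [sec_coeff hn, sec_coeff hn]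
    rfl

theorem lmap_lexp (f : A →+* B) (n : ℕ) (a : LaurentSeries A) :
    lmap f (lexp n a) = lexp n (lmap f a) := by
  by_cases hn : n = 0
  · subst hn
    simp [lexp]
  · ext m
    change f ((lexp n a).coeff m) = _
    by_cases hm : (n : ℤ) ∣ m
    · obtain ⟨x, rfl⟩ := hm
      rw [lexp_coeff_mul hn, lexp_coeff_mul hn]
      rfl
    · rw [lexp_coeff_of_not_dvd hn _ hm, lexp_coeff_of_not_dvd hn _ hm, map_zero]

private theorem charpoly_coeff_mem {E : Type*} [CommRing E] (S : Subring E) {n : ℕ}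
    (M : Matrix (Fin n) (Fin n) E) (h : ∀ i j, M i j ∈ S) (k : ℕ) : M.charpoly.coeff k ∈ S := by
  let M' : Matrix (Fin n) (Fin n) S := fun i j => ⟨M i j, h i j⟩
  have h1 : M = M'.map S.subtype := rfl
  rw [h1, Matrix.charpoly_map, Polynomial.coeff_map]
  exact (M'.charpoly.coeff k).2

end

private theorem InR_mul (R : Subring ℂ) {a b : LaurentSeries ℂ} (ha : InR R a) (hb : InR R b) :
    InR R (a * b) := by
  intro m
  rw [HahnSeries.coeff_mul]
  exact R.sum_mem fun x _ => R.mul_mem (ha _) (hb _)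

private def subInR (R : Subring ℂ) : Subring (LaurentSeries ℂ) where
  carrier := {a | InR R a}
  mul_mem' := fun ha hb => InR_mul R ha hb
  one_mem' := by
    intro m
    rw [HahnSeries.coeff_one]
    split_ifs
    · exact R.one_mem
    · exact R.zero_mem
  add_mem' := fun {a b} ha hb m => by
    rw [HahnSeries.coeff_add]
    exact R.add_mem (ha m) (hb m)
  zero_mem' := fun m => by
    rw [HahnSeries.coeff_zero]
    exact R.zero_mem
  neg_mem' := fun {a} ha m => by
    rw [HahnSeries.coeff_neg]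
    exact R.neg_mem (ha m)

private def subCv : Subring (LaurentSeries ℂ) where
  carrier := {a | Cv a}
  mul_mem' := fun ha hb => Cv.mul ha hb
  one_mem' := Cv.single 0 1
  add_mem' := fun ha hb => Cv.add ha hb
  zero_mem' := by
    intro t _ _
    simp only [HahnSeries.coeff_zero, zero_mul]
    exact summable_zero
  neg_mem' := fun ha => Cv.neg ha

private theorem Cv_sec {n : ℕ} (hn : n ≠ 0) (r : ℤ) {a : LaurentSeries ℂ} (ha : Cv a) :
    Cv (sec n r a) := by
  intro t ht0 ht1
  obtain ⟨s, hs⟩ := IsAlgClosed.exists_pow_nat_eq t (Nat.pos_of_ne_zero hn)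
  have hs0 : s ≠ 0 := by
    rintro rfl
    rw [zero_pow hn] at hs
    exact ht0 hs.symm
  have hs1 : ‖s‖ < 1 := by
    by_contra hge
    rw [not_lt] at hge
    have h1 : 1 ≤ ‖s‖ ^ n := one_le_pow₀ hge
    rw [← norm_pow, hs] at h1
    linarith
  have h1 := ha s hs0 hs1
  have hinj : Function.Injective fun m : ℤ => (n : ℤ) * m + r := by
    intro x y hxy
    have h2 : (n : ℤ) * x = n * y := by
      have h3 : (n : ℤ) * x + r = n * y + r := hxy
      linarith
    exact mul_left_cancel₀ (by exact_mod_cast hn) h2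
  have h2 := (h1.comp_injective hinj).mul_right (s ^ (-r))
  refine h2.congr fun m => ?_
  rw [sec_coeff hn]
  simp only [Function.comp_apply]
  rw [zpow_add₀ hs0, zpow_mul, zpow_natCast, hs, zpow_neg]
  field_simp

theorem Nm_InR (R : Subring ℂ) (n : ℕ) {a : LaurentSeries ℂ} (ha : InR R a) (i : ℕ) :
    InR R ((Nm n a).coeff i) := by
  refine charpoly_coeff_mem (subInR R) (reg n a) (fun x y => ?_) i
  have hn : n ≠ 0 := by
    rintro rfl
    exact x.elim0
  intro m
  change (sec n ((x : ℤ) - (y : ℤ)) a).coeff m ∈ R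
  rw [sec_coeff hn]
  exact ha _

theorem Nm_Cv (n : ℕ) {a : LaurentSeries ℂ} (ha : Cv a) (i : ℕ) : Cv ((Nm n a).coeff i) := by
  refine charpoly_coeff_mem subCv (reg n a) (fun x y => ?_) i
  have hn : n ≠ 0 := by
    rintro rfl
    exact x.elim0
  exact Cv_sec hn _ ha

end Pool.Agent.SS
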