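import Pool.Agent.Work.MP_a5099b_nt.A.Deriv
import Pool.Agent.Work.MP_a5099b_nt.A.Form
import Pool.Agent.Work.MP_a5099b_nt.A.Uniq

/-!
# Module A.Theta (M)

`D j = -E₄²E₆/Δ`. Let `j τ = jL (tauLat τ)`, `g τ = D j τ * Δ τ`. `j` is invariant: `j ∣[0] γ = j`, so
`D j ∣[2] γ = D j` (Mathlib `Derivative.normalizedDerivOfComplex_SL_slash`, the correction has the factor
`k = 0`). `g` has weight 14, is holomorphic (`Derivative.normalizedDerivOfComplex_mdifferentiable`) and has
the expansion `(theta (toC Jq)) * toC Dq` (`QX_deriv`, `QX_jL`, `QX_dl`), whose coefficients at negative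
integers vanish, constant coefficient `-1`. So `g` is a modular form of weight 14 and `g + E₄²E₆` is a cusp
form of weight 14, that is `Δ` times a modular form of weight 2, hence zero.
`theta_Jq`: `QX.unique`, and `toC` is injective.
-/

set_option autoImplicit false

namespace Pool.Agent.SS

open UpperHalfPlane Polynomial
open Pool.Agent.Work.CM (IsLat g2 g3 tauLat)
open scoped Pointwise MatrixGroups

section ThetaPriv

open ModularForm EisensteinSeries

private lemma theta_coeff {A : Type*} [CommRing A] (a : LaurentSeries A) (m : ℤ) :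
    (theta a).coeff m = (m : A) * a.coeff m := rfl

private lemma toC_coeff (a : LaurentSeries ℤ) (m : ℤ) : (toC a).coeff m = ((a.coeff m : ℤ) : ℂ) := by
  simp [toC, lmap]

private lemma toC_inj {a b : LaurentSeries ℤ} (h : toC a = toC b) : a = b := by
  ext m
  have := congrArg (fun x => HahnSeries.coeff x m) h
  simp only [toC_coeff] at this
  exact_mod_cast this

private lemma theta_toC (a : LaurentSeries ℤ) : theta (toC a) = toC (theta a) := by
  ext m
  rw [theta_coeff, toC_coeff, toC_coeff, theta_coeff]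
  push_cast
  ring

private lemma formal : ∃ W : PowerSeries ℤ,
    theta Jq * HahnSeries.ofPowerSeries ℤ ℤ Dq = HahnSeries.ofPowerSeries ℤ ℤ W ∧
      PowerSeries.coeff 0 W = -1 := by
  set V : PowerSeries ℤ := PowerSeries.mk fun m => (theta Jq).coeff ((m : ℤ) - 1) with hV
  set U : PowerSeries ℤ := PowerSeries.mk fun m => PowerSeries.coeff (m + 1) Dq with hU
  have hlow : ∀ m : ℤ, m < -1 → (theta Jq).coeff m = 0 := by
    intro m hm
    rw [theta_coeff, Jq_coeff_lt hm, mul_zero]
  have h1 : theta Jq = HahnSeries.single (-1) 1 * HahnSeries.ofPowerSeries ℤ ℤ V := by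
    ext m
    rw [HahnSeries.coeff_single_mul, one_mul, PowerSeries.coeff_coe]
    by_cases hm : m - -1 < 0
    · rw [if_pos hm]
      exact hlow m (by omega)
    · rw [if_neg hm, hV, PowerSeries.coeff_mk]
      congr 1
      omega
  have h2 : Dq = PowerSeries.X * U := by
    ext m
    rcases m with _ | m
    · simpa using Dq_zero
    · rw [PowerSeries.coeff_succ_X_mul, hU, PowerSeries.coeff_mk]
  refine ⟨V * U, ?_, ?_⟩
  · rw [h1, h2, map_mul, map_mul, HahnSeries.ofPowerSeries_X]
    have h3 : (HahnSeries.single (-1 : ℤ) (1 : ℤ)) * HahnSeries.single 1 1 = 1 := by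
      rw [HahnSeries.single_mul_single]
      norm_num
    calc HahnSeries.single (-1) 1 * HahnSeries.ofPowerSeries ℤ ℤ V *
          (HahnSeries.single 1 1 * HahnSeries.ofPowerSeries ℤ ℤ U)
        = (HahnSeries.single (-1 : ℤ) (1 : ℤ) * HahnSeries.single 1 1) *
          (HahnSeries.ofPowerSeries ℤ ℤ V * HahnSeries.ofPowerSeries ℤ ℤ U) := by ring
      _ = _ := by rw [h3, one_mul]
  · rw [PowerSeries.coeff_zero_eq_constantCoeff_apply, map_mul, ← PowerSeries.coeff_zero_eq_constantCoeff_apply,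
      ← PowerSeries.coeff_zero_eq_constantCoeff_apply]
    have e1 : PowerSeries.coeff 0 V = -1 := by
      rw [hV, PowerSeries.coeff_mk, theta_coeff]
      simp [Jq_coeff_neg_one]
    have e2 : PowerSeries.coeff 0 U = 1 := by
      rw [hU, PowerSeries.coeff_mk]
      simpa using Dq_one
    rw [e1, e2]
    norm_num

/-- an expansion without negative exponents as a sum over the natural numbers -/
private lemma nat_sum {f : ℍ → ℂ} {W : PowerSeries ℤ}
    (h : QX 1 f (toC (HahnSeries.ofPowerSeries ℤ ℤ W))) (τ : ℍ) :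
    HasSum (fun m : ℕ => ((PowerSeries.coeff m W : ℤ) : ℂ) • Function.Periodic.qParam 1 τ ^ m) (f τ) := by
  have h1 := h τ
  have h2 := (Function.Injective.hasSum_iff (Nat.cast_injective (R := ℤ)) (f := fun m : ℤ =>
    (toC (HahnSeries.ofPowerSeries ℤ ℤ W)).coeff m * Function.Periodic.qParam ((1 : ℕ) : ℝ) τ ^ m)
    (a := f τ) ?_).mpr h1
  · convert h2 using 1
    funext m
    simp only [Function.comp_apply, smul_eq_mul, toC_coeff, Nat.cast_one, zpow_natCast]
    rw [LaurentSeries.coeff_coe_powerSeries]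
  · intro m hm
    have : m < 0 := by
      by_contra hcon
      exact hm ⟨m.toNat, by simp; omega⟩
    rw [toC_coeff, PowerSeries.coeff_coe, if_pos this]
    simp

private noncomputable def jt : ℍ → ℂ := fun τ => jL (tauLat τ)

private lemma jt_slash (γ : SL(2, ℤ)) : jt ∣[(0 : ℤ)] γ = jt := by
  funext τ
  rw [ModularForm.SL_slash_apply]
  simp only [neg_zero, zpow_zero, mul_one, jt]
  have h := tauLat_smul γ τ
  rw [← h, jL_smul (Pool.Agent.Work.CM.tauLat_isLat _) (UpperHalfPlane.denom_ne_zero _ _)]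

open scoped Manifold in
private lemma jt_mdiff : MDiff jt := by
  rw [UpperHalfPlane.mdifferentiable_iff]
  exact (QX_deriv QX_jL).2

private noncomputable def gt : ℍ → ℂ := Derivative.normalizedDerivOfComplex jt * ModularForm.discriminant

private lemma gt_slash (γ : SL(2, ℤ)) : gt ∣[(14 : ℤ)] γ = gt := by
  have h1 : (Derivative.normalizedDerivOfComplex jt) ∣[(2 : ℤ)] γ = Derivative.normalizedDerivOfComplex jt := by
    have h := Derivative.normalizedDerivOfComplex_SL_slash (k := 0) jt_mdiff (γ := γ)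
    rw [jt_slash γ] at h
    simp only [Int.cast_zero, zero_mul, zero_add] at h
    funext τ
    have := congrFun h τ
    simp only [Pi.sub_apply, sub_zero] at this
    exact this.symm
  have h2 : (ModularForm.discriminant : ℍ → ℂ) ∣[(12 : ℤ)] γ = ModularForm.discriminant :=
    SlashInvariantForm.slash_action_eqn CuspForm.discriminant _ (⟨γ, rfl⟩ : (γ : GL (Fin 2) ℝ) ∈ 𝒮ℒ)
  have h3 := ModularForm.mul_slash_SL2 2 12 γ (Derivative.normalizedDerivOfComplex jt) ModularForm.discriminant
  rw [h1, h2] at h3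
  exact h3

private lemma gt_QX : ∃ W : PowerSeries ℤ,
    theta Jq * HahnSeries.ofPowerSeries ℤ ℤ Dq = HahnSeries.ofPowerSeries ℤ ℤ W ∧
      PowerSeries.coeff 0 W = -1 ∧ QX 1 gt (toC (HahnSeries.ofPowerSeries ℤ ℤ W)) := by
  obtain ⟨W, hW, hW0⟩ := formal
  refine ⟨W, hW, hW0, ?_⟩
  have h1 := (QX_deriv QX_jL).1
  have h2 : QX 1 (fun τ => ModularForm.discriminant τ) (toC (HahnSeries.ofPowerSeries ℤ ℤ Dq)) := by
    have h := QX_dl
    simp only [dl_tauLat] at h
    exact h
  have h3 := QX.mul one_ne_zero h1 h2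
  rw [theta_toC, toC, toC, ← map_mul, hW] at h3
  exact h3

private noncomputable def gF : ModularForm 𝒮ℒ 14 where
  toFun := gt
  slash_action_eq' := fun _ ⟨γ, hγ⟩ ↦ hγ ▸ gt_slash γ
  holo' := (Derivative.normalizedDerivOfComplex_mdifferentiable jt_mdiff).mul CuspForm.discriminant.holo'
  bdd_at_cusps' {c} hc := by
    rw [Subgroup.IsArithmetic.isCusp_iff_isCusp_SL2Z] at hc
    rw [OnePoint.isBoundedAt_iff_forall_SL2Z hc]
    intro γ _
    rw [gt_slash γ]
    obtain ⟨W, _, _, hW⟩ := gt_QX
    exact isBoundedAtImInfty_of_hasSum_qExpansion one_pos (nat_sum hW)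

private lemma gF_coeff : (qExpansion 1 gF).coeff 0 = -1 := by
  obtain ⟨W, _, hW0, hW⟩ := gt_QX
  have h := ModularFormClass.qExpansion_coeff_unique (F := ModularForm 𝒮ℒ 14) one_pos one_mem_strictPeriods_SL
    (f := gF) (c := fun m => ((PowerSeries.coeff m W : ℤ) : ℂ)) (nat_sum hW) 0
  rw [← h, hW0]
  norm_num

private noncomputable def eF : ModularForm 𝒮ℒ 14 :=
  ModularForm.mcast (by norm_num) ((E₄.mul E₄).mul E₆)

private lemma eF_apply (τ : ℍ) : eF τ = E₄ τ * E₄ τ * E₆ τ := by
  rw [eF, ModularForm.mcast_apply]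
  rfl

private lemma eF_coeff : (qExpansion 1 eF).coeff 0 = 1 := by
  rw [eF, ModularForm.qExpansion_mcast, ModularForm.qExpansion_mul one_pos one_mem_strictPeriods_SL,
    ModularForm.qExpansion_mul one_pos one_mem_strictPeriods_SL, PowerSeries.coeff_zero_eq_constantCoeff_apply,
    map_mul, map_mul, ← PowerSeries.coeff_zero_eq_constantCoeff_apply,
    ← PowerSeries.coeff_zero_eq_constantCoeff_apply, E_qExpansion_coeff _ ⟨2, rfl⟩, E_qExpansion_coeff _ ⟨3, rfl⟩]
  simp

private lemma gF_eq (τ : ℍ) : gt τ = -(E₄ τ * E₄ τ * E₆ τ) := by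
  set f : ModularForm 𝒮ℒ 14 := gF + eF with hf
  have hf0 : (qExpansion 1 f).coeff 0 = 0 := by
    rw [hf, FunLike.coe_add, ModularForm.qExpansion_add one_pos one_mem_strictPeriods_SL, map_add, gF_coeff,
      eF_coeff]
    norm_num
  set h := CuspForm.discriminantEquiv (toCuspForm f hf0) with hh
  have hgh : f τ = discriminant τ * h τ := by
    have := discriminant_mul_discriminantEquiv_apply (toCuspForm f hf0) τ
    rw [← hh] at this
    rw [this, toCuspForm_apply]
  set h' : ModularForm 𝒮ℒ 2 := ModularForm.mcast (by norm_num) h with hh'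
  have h0 : h' = 0 := rank_zero_iff_forall_zero.mp ModularForm.levelOne_weight_two_rank_zero h'
  have h1 : h τ = 0 := by
    have : h' τ = h τ := by simp [hh']
    rw [← this, h0]
    rfl
  rw [h1, mul_zero] at hgh
  have h2 : f τ = gt τ + eF τ := rfl
  rw [h2, eF_apply] at hgh
  linear_combination hgh

end ThetaPriv

theorem deriv_j (τ : ℍ) :
    Derivative.normalizedDerivOfComplex (fun τ => jL (tauLat τ)) τ * ModularForm.discriminant τ =
      -(ModularForm.E₄ τ ^ 2 * ModularForm.E₆ τ) := by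
  have h := gF_eq τ
  have h2 : gt τ = Derivative.normalizedDerivOfComplex (fun τ => jL (tauLat τ)) τ * ModularForm.discriminant τ :=
    rfl
  rw [← h2, h]
  ring

theorem theta_Jq : theta Jq * HahnSeries.ofPowerSeries ℤ ℤ Dq =
    -HahnSeries.ofPowerSeries ℤ ℤ (E4q ^ 2 * E6q) := by
  obtain ⟨W, hW, _, hg⟩ := gt_QX
  apply toC_inj
  rw [hW]
  refine QX.unique one_ne_zero hg ?_
  have h4 : QX 1 (fun τ => ModularForm.E₄ τ) (toC (HahnSeries.ofPowerSeries ℤ ℤ E4q)) := by
    have h := QX_e4
    simp only [e4_tauLat] at h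
    exact h
  have h6 : QX 1 (fun τ => ModularForm.E₆ τ) (toC (HahnSeries.ofPowerSeries ℤ ℤ E6q)) := by
    have h := QX_e6
    simp only [e6_tauLat] at h
    exact h
  have h := QX.neg (QX.mul one_ne_zero (QX.mul one_ne_zero h4 h4) h6)
  have e1 : gt = -((fun τ => ModularForm.E₄ τ) * (fun τ => ModularForm.E₄ τ) * (fun τ => ModularForm.E₆ τ)) := by
    funext τ
    exact gF_eq τ
  have e2 : toC (-HahnSeries.ofPowerSeries ℤ ℤ (E4q ^ 2 * E6q)) =
      -(toC (HahnSeries.ofPowerSeries ℤ ℤ E4q) * toC (HahnSeries.ofPowerSeries ℤ ℤ E4q) *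
        toC (HahnSeries.ofPowerSeries ℤ ℤ E6q)) := by
    simp only [toC, map_neg, map_mul, map_pow]
    ring
  rw [e1, e2]
  exact h

end Pool.Agent.SS
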